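import Mathlib

open AlgebraicGeometry CategoryTheory Limits

namespace Pool.Agent.Work.MP_eb613f_ag

/-- connected finite etale covers -/
structure Cover (X : Scheme.{0}) where
  Y : Scheme.{0}
  p : Y ⟶ X
  fin : IsFinite p
  et : Etale p
  conn : ConnectedSpace Y

theorem CV.surj {X Y : Scheme.{0}} (p : Y ⟶ X) [IsFinite p] [Etale p] [ConnectedSpace X]
    [Nonempty Y] : Surjective p := by
  refine ⟨?_⟩
  have h1 : IsClosed (Set.range p) := p.isClosedMap.isClosed_range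
  have h2 : IsOpen (Set.range p) := p.isOpenMap.isOpen_range
  have h3 := IsClopen.eq_univ ⟨h1, h2⟩ (Set.range_nonempty p)
  exact Set.range_eq_univ.1 h3

theorem CV.exists_clopen (Z : Type*) [TopologicalSpace Z] [TopologicalSpace.NoetherianSpace Z]
    [Nonempty Z] : ∃ C : Set Z, IsClopen C ∧ ConnectedSpace C := by
  have hwf : WellFoundedLT (TopologicalSpace.Closeds Z) :=
    ((TopologicalSpace.noetherianSpace_TFAE Z).out 0 1).1 ‹_›
  let S : Set (TopologicalSpace.Closeds Z) := {C | IsClopen (C : Set Z) ∧ (C : Set Z).Nonempty}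
  have hS : S.Nonempty := ⟨⊤, isClopen_univ, Set.univ_nonempty⟩
  obtain ⟨C, hCS, hmin⟩ := hwf.wf.has_min S hS
  refine ⟨C, hCS.1, ?_⟩
  have hne : Nonempty (C : Set Z) := hCS.2.to_subtype
  have hpre : PreconnectedSpace (C : Set Z) := by
    rw [preconnectedSpace_iff_clopen]
    intro s hs
    by_contra hcon
    push Not at hcon
    obtain ⟨hs1, hs2⟩ := hcon
    have hcl : IsClosed (Subtype.val '' s) :=
      hCS.1.isClosed.isClosedEmbedding_subtypeVal.isClosedMap _ hs.isClosed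
    have hop : IsOpen (Subtype.val '' s) :=
      hCS.1.isOpen.isOpenEmbedding_subtypeVal.isOpenMap _ hs.isOpen
    refine hmin ⟨_, hcl⟩ ⟨⟨hcl, hop⟩, hs1.image _⟩ ?_
    refine lt_of_le_of_ne ?_ ?_
    · rintro _ ⟨x, -, rfl⟩
      exact x.2
    · intro heq
      apply hs2
      have h1 : Subtype.val '' s = (C : Set Z) := congrArg (fun D : TopologicalSpace.Closeds Z => (D : Set Z)) heq
      ext x
      simp only [Set.mem_univ, iff_true]
      have h2 : (x : Z) ∈ Subtype.val '' s := by rw [h1]; exact x.2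
      obtain ⟨y, hy, hyx⟩ := h2
      rwa [← Subtype.ext hyx]
  exact { toPreconnectedSpace := hpre, toNonempty := hne }

theorem CV.directed_aux (X Z : Scheme.{0}) [IsNoetherian X] [Nonempty Z] (q : Z ⟶ X) [IsFinite q]
    [Etale q] : ∃ (W : Scheme.{0}) (i : W ⟶ Z), IsFinite (i ≫ q) ∧ Etale (i ≫ q) ∧
      ConnectedSpace W := by
  have hln : IsLocallyNoetherian Z := LocallyOfFiniteType.isLocallyNoetherian q
  have hcs : CompactSpace Z := QuasiCompact.compactSpace_of_compactSpace q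
  have hn : IsNoetherian Z := { }
  obtain ⟨C, hC, hcon⟩ := CV.exists_clopen Z
  let U : Z.Opens := ⟨C, hC.isOpen⟩
  have hcl : IsClosedImmersion U.ι := by
    apply IsClosedImmersion.of_isPreimmersion
    rw [Scheme.Opens.range_ι]
    exact hC.isClosed
  have hcU : ConnectedSpace U.toScheme := hcon
  exact ⟨U.toScheme, U.ι, inferInstance, inferInstance, hcU⟩

theorem CV.directed (X : Scheme.{0}) [IsNoetherian X] [ConnectedSpace X] (k j : Cover X) :
    ∃ l : Cover X, (∃ π : l.Y ⟶ k.Y, π ≫ k.p = l.p) ∧ (∃ π : l.Y ⟶ j.Y, π ≫ j.p = l.p) := by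
  have := k.fin
  have := k.et
  have := k.conn
  have := j.fin
  have := j.et
  have := j.conn
  have hj : Surjective j.p := CV.surj j.p
  have hne : Nonempty ↥(pullback k.p j.p) := by
    obtain ⟨y⟩ : Nonempty k.Y := inferInstance
    obtain ⟨z, -⟩ := (pullback.fst k.p j.p).surjective y
    exact ⟨z⟩
  obtain ⟨W, i, h1, h2, h3⟩ := CV.directed_aux X (pullback k.p j.p) (pullback.fst k.p j.p ≫ k.p)
  refine ⟨⟨W, i ≫ pullback.fst k.p j.p ≫ k.p, h1, h2, h3⟩,
    ⟨i ≫ pullback.fst k.p j.p, by simp⟩, ⟨i ≫ pullback.snd k.p j.p, ?_⟩⟩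
  simp [pullback.condition]

open Filter in
theorem exists_ultrafilter (X : Scheme.{0}) [IsNoetherian X] [ConnectedSpace X] :
    ∃ 𝒰 : Ultrafilter (Cover X), ∀ k : Cover X, ∀ᶠ l in (𝒰 : Filter (Cover X)),
      ∃ π : l.Y ⟶ k.Y, π ≫ k.p = l.p := by
  have hne : Nonempty (Cover X) := ⟨⟨X, 𝟙 X, inferInstance, inferInstance, inferInstance⟩⟩
  let A : Cover X → Set (Cover X) := fun k => {l | ∃ π : l.Y ⟶ k.Y, π ≫ k.p = l.p}
  have hA : ∀ k, k ∈ A k := fun k => ⟨𝟙 _, by simp⟩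
  have hmono : ∀ k l, l ∈ A k → A l ⊆ A k := by
    rintro k l ⟨π, hπ⟩ m ⟨ρ, hρ⟩
    exact ⟨ρ ≫ π, by rw [Category.assoc, hπ, hρ]⟩
  have hF : (⨅ k, 𝓟 (A k)).NeBot := by
    refine iInf_neBot_of_directed ?_ (fun k => principal_neBot_iff.2 ⟨k, hA k⟩)
    intro k j
    obtain ⟨l, h1, h2⟩ := CV.directed X k j
    exact ⟨l, principal_mono.2 (hmono k l h1), principal_mono.2 (hmono j l h2)⟩
  refine ⟨Ultrafilter.of (⨅ k, 𝓟 (A k)), fun k => ?_⟩
  have h1 : ((Ultrafilter.of (⨅ k, 𝓟 (A k)) : Ultrafilter (Cover X)) : Filter (Cover X)) ≤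
      𝓟 (A k) := (Ultrafilter.of_le _).trans (iInf_le _ k)
  exact h1 (mem_principal_self _)

end Pool.Agent.Work.MP_eb613f_ag
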