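import Mathlib

open AlgebraicGeometry CategoryTheory

namespace Pool.Agent.Work.MP_eb613f_ag

noncomputable section

/-- The grading of the polynomial ring `ℂ[x_0,…,x_r]` by degree. -/
abbrev grad (r : ℕ) : ℕ → Submodule ℂ (MvPolynomial (Fin (r + 1)) ℂ) :=
  MvPolynomial.homogeneousSubmodule (Fin (r + 1)) ℂ

/-- The grading of the polynomial ring by degree is a grading (this is in Mathlib). -/
instance gradGraded (r : ℕ) : GradedAlgebra (grad r) := MvPolynomial.gradedAlgebra

/-- The projective space `P^r` over `ℂ`, as a scheme. -/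
def PP (r : ℕ) : Scheme.{0} := Proj (grad r)

/-- The structure morphism of the projective space `P^r`. -/
def PP.toSpec (r : ℕ) : PP r ⟶ Spec (CommRingCat.of ℂ) :=
  Proj.toSpecZero (grad r) ≫ Spec.map (CommRingCat.ofHom (algebraMap ℂ (grad r 0)))

/-- The standard affine chart `x_a ≠ 0` of `P^r`. -/
def PP.chart (r : ℕ) (a : Fin (r + 1)) : (PP r).Opens := Proj.basicOpen (grad r) (MvPolynomial.X a)

/-- The ring of the fractions `F / x_a^k` with `F` homogeneous of degree `k`. -/
def PP.ring (r : ℕ) (a : Fin (r + 1)) : CommRingCat.{0} :=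
  CommRingCat.of (HomogeneousLocalization.Away (grad r) (MvPolynomial.X a))

/-- The fractions `F / x_a^k` are functions on the chart `x_a ≠ 0` of `P^r`. -/
def PP.toFunctions (r : ℕ) (a : Fin (r + 1)) : PP.ring r a ⟶ Γ(PP r, PP.chart r a) :=
  Proj.awayToSection (grad r) (MvPolynomial.X a)

/-- The fraction `x_b / x_a`. -/
def PP.frac (r : ℕ) (a b : Fin (r + 1)) : PP.ring r a :=
  HomogeneousLocalization.Away.mk (grad r) (d := 1) (MvPolynomial.isHomogeneous_X ℂ a) 1
    (MvPolynomial.X b) (by simpa using MvPolynomial.isHomogeneous_X ℂ b)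

/-- The function `x_b / x_a` on the chart `x_a ≠ 0` of `P^r`. -/
def PP.coord (r : ℕ) (a b : Fin (r + 1)) : Γ(PP r, PP.chart r a) :=
  (PP.toFunctions r a).hom (PP.frac r a b)

variable {r : ℕ} {Y : Scheme.{0}}

/-- The pullback of the function `x_b / x_a` along `f : Y ⟶ P^r`. -/
def crd (f : Y ⟶ PP r) (a b : Fin (r + 1)) : Γ(Y, f ⁻¹ᵁ PP.chart r a) :=
  (f.app (PP.chart r a)).hom (PP.coord r a b)

/-- The value at the point `c` of the pullback to `Y` of the function `x_b / x_a`
(for a point `c` which is mapped by `f : Y ⟶ P^r` to the chart `x_a ≠ 0`). -/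
def ratio (f : Y ⟶ PP r) (c : Y) (a b : Fin (r + 1)) (h : c ∈ f ⁻¹ᵁ PP.chart r a) :
    Y.residueField c :=
  (Y.evaluation (f ⁻¹ᵁ PP.chart r a) c h).hom (crd f a b)

/-- The constant functions on a scheme over `P^r`. -/
def constantFunctions (f : Y ⟶ PP r) : ℂ →+* Γ(Y, ⊤) :=
  ((f ≫ PP.toSpec r).appTop).hom.comp (Scheme.ΓSpecIso (CommRingCat.of ℂ)).inv.hom

/-- The embedding of the constants `ℂ` in the residue field of a point. -/
def constants (f : Y ⟶ PP r) (c : Y) : ℂ →+* Y.residueField c :=
  (Y.evaluation ⊤ c trivial).hom.comp (constantFunctions f)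

/-- The point `c` is the generic point of a curve: its residue field has transcendence degree `1`
over `ℂ`. -/
def IsCurvePoint (f : Y ⟶ PP r) (c : Y) : Prop :=
  @Algebra.trdeg ℂ (Y.residueField c) _ _ (constants f c).toAlgebra = 1

/-- A place of a field extension `F` of `ℂ`: a normalised discrete valuation of `F`
which is trivial on `ℂ`. -/
structure Place {F : Type} [Field F] (φ : ℂ →+* F) where
  /-- the valuation -/
  v : Valuation F (WithZero (Multiplicative ℤ))
  surj : Function.Surjective v
  triv : ∀ z : ℂ, z ≠ 0 → v (φ z) = 1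

/-- The order of `x` at a place. -/
def Place.ord {F : Type} [Field F] {φ : ℂ →+* F} (P : Place φ) (x : F) : ℤ :=
  - WithZero.log (P.v x)

open scoped Classical in
/-- The degree on the curve with generic point `c` of the pullback of `O(1)`. -/
def curveDeg (f : Y ⟶ PP r) (c : Y) : ℕ :=
  if h : ∃ a, c ∈ f ⁻¹ᵁ PP.chart r a then
    ∑ᶠ P : Place (constants f c), (Finset.univ.sup' (Finset.univ_nonempty (α := Fin (r+1)))
      (fun b => - P.ord (ratio f c h.choose b h.choose_spec))).toNat
  else 0

/-- The restriction of germs at a point `x` of a curve to the function field of the curve. -/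
def toFunField {c x : Y} (h : c ⤳ x) : Y.presheaf.stalk x →+* Y.residueField c :=
  (Y.residue c).hom.comp (Y.presheaf.stalkSpecializes h).hom

/-- The place `P` of the function field of a curve is centered at the point `x`. -/
def Place.CenteredAt {f : Y ⟶ PP r} {c x : Y} (P : Place (constants f c)) (h : c ⤳ x) : Prop :=
  ∀ s : Y.presheaf.stalk x, P.v (toFunField h s) ≤ 1 ∧
    (s ∈ IsLocalRing.maximalIdeal (Y.presheaf.stalk x) → P.v (toFunField h s) < 1)

/-- The contribution of a place to the multiplicity: the least order of a function vanishing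
at `x`. -/
def Place.localMult {f : Y ⟶ PP r} {c x : Y} (P : Place (constants f c)) (h : c ⤳ x) : ℕ :=
  sInf {k : ℕ | ∃ s ∈ IsLocalRing.maximalIdeal (Y.presheaf.stalk x),
    toFunField h s ≠ 0 ∧ P.ord (toFunField h s) = k}

/-- The multiplicity at the point `x` of the curve with generic point `c`. -/
def curveMult (f : Y ⟶ PP r) {c x : Y} (h : c ⤳ x) : ℕ :=
  ∑ᶠ P : {P : Place (constants f c) // P.CenteredAt h}, P.1.localMult h

open ENNReal in
/-- The Seshadri constant at the point `x` of a line bundle `M` on `Y`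
with `M^m = f^* O(1)`. -/
def seshadri (m : ℕ) (f : Y ⟶ PP r) (x : Y) : ℝ≥0∞ :=
  ⨅ (c : Y) (_ : IsCurvePoint f c) (h : c ⤳ x),
    (curveDeg f c : ℝ≥0∞) / (m * curveMult f h : ℝ≥0∞)

/-- The degree `[κ(y) : κ(p y)]` of the extension of residue fields. -/
def residueDegree {X : Scheme.{0}} (p : Y ⟶ X) (y : Y) : ℕ :=
  @Module.finrank (X.residueField (p y)) (Y.residueField y) _ _
    (p.residueFieldMap y).hom.toAlgebra.toModule

/-- `X` has large algebraic fundamental group. -/
def LargeAlgebraicPi1 (X : Scheme.{0}) : Prop :=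
  ∀ z : X, ¬ IsClosed {z} → ∀ d : ℕ, ∃ (X' : Scheme.{0}) (p : X' ⟶ X),
    IsFinite p ∧ Etale p ∧ ConnectedSpace X' ∧ ∀ y : X', p y = z → d ≤ residueDegree p y

/-- A projective manifold: an integral closed subscheme of a projective space over `ℂ`,
smooth over `ℂ`. -/
structure ProjManifold where
  space : Scheme.{0}
  ambientDim : ℕ
  embedding : space ⟶ PP ambientDim
  dimension : ℕ
  isClosedImmersion : IsClosedImmersion embedding
  smooth : SmoothOfRelativeDimension dimension (embedding ≫ PP.toSpec ambientDim)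
  integral : IsIntegral space

end

end Pool.Agent.Work.MP_eb613f_ag
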