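import Mathlib
import Pool.Agent.Work.MP_eb613f_ag.Defs

open AlgebraicGeometry CategoryTheory Limits MvPolynomial TopologicalSpace

namespace Pool.Agent.Work.MP_eb613f_ag

noncomputable section

/-! ### General facts on `Proj` -/

section general

variable {σ : Type*} {A : Type} [CommRing A] [SetLike σ A] [AddSubgroupClass σ A]
variable (𝒜 : ℕ → σ) [GradedRing 𝒜]

theorem preimage_basicOpenToSpec (f : A) (s : HomogeneousLocalization.Away 𝒜 f) :
    Proj.basicOpenToSpec 𝒜 f ⁻¹ᵁ PrimeSpectrum.basicOpen s =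
      (Proj.basicOpen 𝒜 f).ι ⁻¹ᵁ (Proj 𝒜).basicOpen ((Proj.awayToSection 𝒜 f).hom s) := by
  rw [← Scheme.Opens.toSpecΓ_preimage_basicOpen]
  rfl

theorem basicOpen_awayToSection {f g : A} {m m' : ℕ} (f_deg : f ∈ 𝒜 m) (hm : 0 < m)
    (g_deg : g ∈ 𝒜 m') (hm' : 0 < m') :
    (Proj 𝒜).basicOpen ((Proj.awayToSection 𝒜 f).hom
      (HomogeneousLocalization.Away.isLocalizationElem f_deg g_deg)) =
      Proj.basicOpen 𝒜 f ⊓ Proj.basicOpen 𝒜 g := by
  have h1 := preimage_basicOpenToSpec 𝒜 f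
    (HomogeneousLocalization.Away.isLocalizationElem f_deg g_deg)
  have h2 := Proj.awayι_preimage_basicOpen 𝒜 f_deg hm g_deg hm'
  have h3 : (Proj.basicOpen 𝒜 f).ι =
      (Proj.basicOpenIsoSpec 𝒜 f f_deg hm).hom ≫ Proj.awayι 𝒜 f f_deg hm := by
    rw [Proj.awayι, Iso.hom_inv_id_assoc]
  have h4 : (Proj.basicOpen 𝒜 f).ι ⁻¹ᵁ Proj.basicOpen 𝒜 g =
      (Proj.basicOpen 𝒜 f).ι ⁻¹ᵁ (Proj 𝒜).basicOpen ((Proj.awayToSection 𝒜 f).hom
        (HomogeneousLocalization.Away.isLocalizationElem f_deg g_deg)) := by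
    rw [← h1, ← h2, h3]
    rfl
  have h5 := congrArg (fun V => (Proj.basicOpen 𝒜 f).ι ''ᵁ V) h4
  simp only [Scheme.Hom.image_preimage_eq_opensRange_inf, Scheme.Opens.opensRange_ι] at h5
  rw [h5]
  exact (inf_eq_right.mpr (Scheme.basicOpen_le _ _)).symm

end general

theorem X_mem_grad (r : ℕ) (a : Fin (r + 1)) :
    (X a : MvPolynomial (Fin (r + 1)) ℂ) ∈ grad r 1 := isHomogeneous_X ℂ a

theorem X_mem_grad' (r : ℕ) (a : Fin (r + 1)) :
    (X a : MvPolynomial (Fin (r + 1)) ℂ) ∈ grad r (1 • 1) := by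
  simpa using isHomogeneous_X ℂ a

/-- The fraction `x_b / x_a`. -/
def frac (r : ℕ) (a b : Fin (r + 1)) : HomogeneousLocalization.Away (grad r) (X a) :=
  HomogeneousLocalization.Away.mk (grad r) (X_mem_grad r a) 1 (X b) (X_mem_grad' r b)

theorem coord_eq (r : ℕ) (a b : Fin (r + 1)) :
    PP.coord r a b = (Proj.awayToSection (grad r) (X a)).hom (frac r a b) := rfl

theorem frac_self (r : ℕ) (a : Fin (r + 1)) : frac r a a = 1 := by
  unfold frac
  ext
  rw [HomogeneousLocalization.Away.val_mk, HomogeneousLocalization.val_one,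
    ← Localization.mk_one, Localization.mk_eq_mk_iff, Localization.r_iff_exists]
  exact ⟨1, by simp⟩

theorem coord_self (r : ℕ) (a : Fin (r + 1)) : PP.coord r a a = 1 := by
  rw [coord_eq, frac_self, map_one]
  rfl

theorem basicOpen_coord (r : ℕ) (a b : Fin (r + 1)) :
    (PP r).basicOpen (PP.coord r a b) = PP.chart r a ⊓ PP.chart r b := by
  have h := basicOpen_awayToSection (grad r) (X_mem_grad r a) one_pos (X_mem_grad r b) one_pos
  rw [coord_eq]
  have h2 : frac r a b =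
      HomogeneousLocalization.Away.isLocalizationElem (X_mem_grad r a) (X_mem_grad r b) := by
    unfold frac
    ext
    rw [HomogeneousLocalization.Away.val_mk, HomogeneousLocalization.Away.val_mk,
      Localization.mk_eq_mk_iff, Localization.r_iff_exists]
    exact ⟨1, by simp⟩
  rw [h2]
  exact h

theorem map_awayToSection {A σ : Type} [CommRing A] [SetLike σ A] [AddSubgroupClass σ A]
    (𝒜 : ℕ → σ) [GradedRing 𝒜] {f g x : A} {m' : ℕ} (g_deg : g ∈ 𝒜 m') (hx : x = f * g)
    (V : (Proj 𝒜).Opens) (h1 : V ≤ Proj.basicOpen 𝒜 f) (h2 : V ≤ Proj.basicOpen 𝒜 x)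
    (s : HomogeneousLocalization.Away 𝒜 f) :
    ((Proj 𝒜).presheaf.map (homOfLE h1).op).hom ((Proj.awayToSection 𝒜 f).hom s) =
    ((Proj 𝒜).presheaf.map (homOfLE h2).op).hom ((Proj.awayToSection 𝒜 x).hom
      (HomogeneousLocalization.awayMap 𝒜 g_deg hx s)) := by
  have h := Proj.awayMap_awayToSection 𝒜 g_deg hx
  have h3 := congrArg (fun φ => φ.hom s) h
  simp only [CommRingCat.hom_comp, RingHom.comp_apply, CommRingCat.hom_ofHom] at h3
  have h4 : ∀ y : Γ(Proj 𝒜, Proj.basicOpen 𝒜 f),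
      ((Proj 𝒜).presheaf.map (homOfLE h2).op).hom
        (((Proj 𝒜).presheaf.map (homOfLE (Proj.basicOpen_mono 𝒜 _ _ ⟨_, hx⟩)).op).hom y) =
      ((Proj 𝒜).presheaf.map (homOfLE h1).op).hom y := by
    intro y
    rw [← CommRingCat.comp_apply, ← Functor.map_comp]
    rfl
  rw [h3, h4]

theorem map_mul_awayToSection {A σ : Type} [CommRing A] [SetLike σ A] [AddSubgroupClass σ A]
    (𝒜 : ℕ → σ) [GradedRing 𝒜] {f g x : A} {m m' : ℕ} (f_deg : f ∈ 𝒜 m) (g_deg : g ∈ 𝒜 m')
    (hx : x = f * g) (hx' : x = g * f)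
    (V : (Proj 𝒜).Opens) (h1 : V ≤ Proj.basicOpen 𝒜 f) (h1' : V ≤ Proj.basicOpen 𝒜 g)
    (h2 : V ≤ Proj.basicOpen 𝒜 x)
    (s t : HomogeneousLocalization.Away 𝒜 f) (u : HomogeneousLocalization.Away 𝒜 g)
    (hst : HomogeneousLocalization.awayMap 𝒜 g_deg hx s *
      HomogeneousLocalization.awayMap 𝒜 f_deg hx' u = HomogeneousLocalization.awayMap 𝒜 g_deg hx t) :
    ((Proj 𝒜).presheaf.map (homOfLE h1).op).hom ((Proj.awayToSection 𝒜 f).hom s) *
    ((Proj 𝒜).presheaf.map (homOfLE h1').op).hom ((Proj.awayToSection 𝒜 g).hom u) =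
    ((Proj 𝒜).presheaf.map (homOfLE h1).op).hom ((Proj.awayToSection 𝒜 f).hom t) := by
  rw [map_awayToSection 𝒜 g_deg hx V h1 h2 s, map_awayToSection 𝒜 f_deg hx' V h1' h2 u,
    map_awayToSection 𝒜 g_deg hx V h1 h2 t, ← hst, RingHom.map_mul]
  exact (RingHom.map_mul ((Proj 𝒜).presheaf.map (homOfLE h2).op).hom _ _).symm

theorem frac_cocycle (r : ℕ) (a b c : Fin (r + 1)) :
    HomogeneousLocalization.awayMap (grad r) (X_mem_grad r b)
        (rfl : (X a * X b : MvPolynomial (Fin (r + 1)) ℂ) = X a * X b) (frac r a b) *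
      HomogeneousLocalization.awayMap (grad r) (X_mem_grad r a)
        (mul_comm _ _ : (X a * X b : MvPolynomial (Fin (r + 1)) ℂ) = X b * X a) (frac r b c) =
      HomogeneousLocalization.awayMap (grad r) (X_mem_grad r b)
        (rfl : (X a * X b : MvPolynomial (Fin (r + 1)) ℂ) = X a * X b) (frac r a c) := by
  unfold frac
  rw [HomogeneousLocalization.awayMap_mk, HomogeneousLocalization.awayMap_mk,
    HomogeneousLocalization.awayMap_mk]
  ext
  rw [HomogeneousLocalization.val_mul, HomogeneousLocalization.Away.val_mk,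
    HomogeneousLocalization.Away.val_mk, HomogeneousLocalization.Away.val_mk,
    Localization.mk_mul, Localization.mk_eq_mk_iff, Localization.r_iff_exists]
  refine ⟨1, ?_⟩
  simp only [OneMemClass.coe_one, one_mul, Submonoid.coe_mul]
  ring

theorem coord_cocycle (r : ℕ) (a b c : Fin (r + 1)) :
    ((PP r).presheaf.map (homOfLE (inf_le_left : PP.chart r a ⊓ PP.chart r b ≤
      PP.chart r a)).op).hom (PP.coord r a b) *
    ((PP r).presheaf.map (homOfLE (inf_le_right : PP.chart r a ⊓ PP.chart r b ≤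
      PP.chart r b)).op).hom (PP.coord r b c) =
    ((PP r).presheaf.map (homOfLE (inf_le_left : PP.chart r a ⊓ PP.chart r b ≤
      PP.chart r a)).op).hom (PP.coord r a c) := by
  have hle : PP.chart r a ⊓ PP.chart r b ≤
      Proj.basicOpen (grad r) (X a * X b : MvPolynomial (Fin (r + 1)) ℂ) := by
    rw [Proj.basicOpen_mul]
    exact le_rfl
  exact map_mul_awayToSection (grad r) (X_mem_grad r a) (X_mem_grad r b) rfl (mul_comm _ _)
    (PP.chart r a ⊓ PP.chart r b) inf_le_left inf_le_right hle (frac r a b) (frac r a c)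
    (frac r b c) (frac_cocycle r a b c)

theorem adjoin_X (r : ℕ) :
    Algebra.adjoin (grad r 0) (Set.range (X : Fin (r + 1) → MvPolynomial (Fin (r + 1)) ℂ)) = ⊤ := by
  rw [eq_top_iff]
  intro p _
  induction p using MvPolynomial.induction_on with
  | C a =>
    exact Subalgebra.algebraMap_mem _ (⟨C a, isHomogeneous_C _ a⟩ : grad r 0)
  | add p q hp hq => exact Subalgebra.add_mem _ (hp trivial) (hq trivial)
  | mul_X p i hp => exact Subalgebra.mul_mem _ (hp trivial) (Algebra.subset_adjoin ⟨i, rfl⟩)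

theorem iSup_chart (r : ℕ) : ⨆ a, PP.chart r a = ⊤ := by
  unfold PP.chart
  exact Proj.iSup_basicOpen_eq_top' (grad r) _ (fun i => ⟨1, isHomogeneous_X ℂ i⟩) (adjoin_X r)

theorem isAffineOpen_chart (r : ℕ) (a : Fin (r + 1)) : IsAffineOpen (PP.chart r a) :=
  Proj.isAffineOpen_basicOpen (grad r) (X a) (isHomogeneous_X ℂ a) one_pos

/-- The constants, as sections of the structure sheaf of `Y`. -/
noncomputable def cst {r : ℕ} {Y : Scheme.{0}} (f : Y ⟶ PP r) (U : Y.Opens) : ℂ →+* Γ(Y, U) :=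
  (Y.presheaf.map (homOfLE le_top).op).hom.comp
    (((f ≫ PP.toSpec r).appTop).hom.comp (Scheme.ΓSpecIso (CommRingCat.of ℂ)).inv.hom)

theorem ι_toSpecZero {A σ : Type} [CommRing A] [SetLike σ A] [AddSubgroupClass σ A]
    (𝒜 : ℕ → σ) [GradedRing 𝒜] {f : A} {m : ℕ} (f_deg : f ∈ 𝒜 m) (hm : 0 < m) :
    (Proj.basicOpen 𝒜 f).ι ≫ Proj.toSpecZero 𝒜 = Proj.basicOpenToSpec 𝒜 f ≫
      Spec.map (CommRingCat.ofHom (HomogeneousLocalization.fromZeroRingHom 𝒜 _)) := by
  have h := Proj.awayι_toSpecZero 𝒜 f f_deg hm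
  rw [Proj.awayι, Category.assoc, Iso.inv_comp_eq, Proj.basicOpenIsoSpec_hom] at h
  exact h

theorem toSpecZero_appTop {A σ : Type} [CommRing A] [SetLike σ A] [AddSubgroupClass σ A]
    (𝒜 : ℕ → σ) [GradedRing 𝒜] {f : A} {m : ℕ} (f_deg : f ∈ 𝒜 m) (hm : 0 < m) :
    (Proj.toSpecZero 𝒜).appTop ≫ (Proj 𝒜).presheaf.map
      (homOfLE (le_top : Proj.basicOpen 𝒜 f ≤ ⊤)).op =
    (Scheme.ΓSpecIso _).hom ≫ CommRingCat.ofHom (HomogeneousLocalization.fromZeroRingHom 𝒜 _) ≫
      Proj.awayToSection 𝒜 f := by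
  have h := congrArg Scheme.Hom.appTop (ι_toSpecZero 𝒜 f_deg hm)
  rw [Scheme.Hom.comp_appTop, Scheme.Hom.comp_appTop] at h
  have h2 : (Proj.basicOpenToSpec 𝒜 f).appTop = (Scheme.ΓSpecIso _).hom ≫
      Proj.awayToSection 𝒜 f ≫ (Proj.basicOpen 𝒜 f).topIso.inv :=
    Proj.basicOpenToSpec_app_top 𝒜 f
  have h3 : (Proj 𝒜).presheaf.map (homOfLE (le_top : Proj.basicOpen 𝒜 f ≤ ⊤)).op =
      (Proj.basicOpen 𝒜 f).ι.appTop ≫ (Proj.basicOpen 𝒜 f).topIso.hom := by
    rw [Scheme.Opens.ι_appTop, Scheme.Opens.topIso_hom]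
    exact (Proj 𝒜).presheaf.map_comp _ _
  rw [h3, ← Category.assoc, h]
  rw [h2]
  simp only [Category.assoc, Iso.inv_hom_id, Category.comp_id]
  rw [← Category.assoc, Scheme.ΓSpecIso_naturality, Category.assoc]

theorem toSpec_appTop (r : ℕ) (a : Fin (r + 1)) :
    (Proj.toSpecZero (grad r) ≫ Spec.map (CommRingCat.ofHom (algebraMap ℂ (grad r 0)))).appTop ≫
      (Proj (grad r)).presheaf.map
        (homOfLE (le_top : Proj.basicOpen (grad r) (X a) ≤ ⊤)).op =
    (Scheme.ΓSpecIso _).hom ≫ CommRingCat.ofHom (algebraMap ℂ (grad r 0)) ≫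
      CommRingCat.ofHom (HomogeneousLocalization.fromZeroRingHom (grad r) _) ≫
      Proj.awayToSection (grad r) (X a) := by
  rw [Scheme.Hom.comp_appTop, Category.assoc, toSpecZero_appTop (grad r) (X_mem_grad r a) one_pos,
    ← Category.assoc, Scheme.ΓSpecIso_naturality, Category.assoc]

/-- The constants of `(A_f)_0`. -/
def awayConst (r : ℕ) (a : Fin (r + 1)) : ℂ →+* HomogeneousLocalization.Away (grad r) (X a) :=
  (HomogeneousLocalization.fromZeroRingHom (grad r) (Submonoid.powers (X a))).comp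
    (algebraMap ℂ (grad r 0))

theorem cst_chart (r : ℕ) (a : Fin (r + 1)) (z : ℂ) :
    cst (𝟙 (PP r)) (PP.chart r a) z = (Proj.awayToSection (grad r) (X a)).hom (awayConst r a z) := by
  have h1 := toSpec_appTop r a
  have h2 := congrArg (fun φ => φ.hom ((Scheme.ΓSpecIso (CommRingCat.of ℂ)).inv.hom z)) h1
  have h3 : (Scheme.ΓSpecIso (CommRingCat.of ℂ)).hom.hom
      ((Scheme.ΓSpecIso (CommRingCat.of ℂ)).inv.hom z) = z := by
    rw [← CommRingCat.comp_apply, Iso.inv_hom_id]
    rfl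
  unfold cst
  rw [Category.id_comp]
  simp only [CommRingCat.comp_apply, h3] at h2
  exact h2

/-- The polynomial ring. -/
abbrev PolyR (r : ℕ) := MvPolynomial (Fin (r + 1)) ℂ

theorem eval₂_homog {K : Type} [CommRing K] {r n : ℕ} (p : MvPolynomial (Fin (r + 1)) ℂ)
    (hp : p.IsHomogeneous n) (g : ℂ →+* K) (u : K) (v : Fin (r + 1) → K) :
    eval₂ g (fun i => u * v i) p = u ^ n * eval₂ g v p := by
  rw [eval₂_eq', eval₂_eq', Finset.mul_sum]
  refine Finset.sum_congr rfl fun d hd => ?_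
  have hdeg : ∑ i, d i = n := by
    have := hp (mem_support_iff.mp hd)
    rw [← this, Finsupp.weight_apply, Finsupp.sum_fintype _ _ (by simp)]
    simp
  simp only [mul_pow, Finset.prod_mul_distrib, Finset.prod_pow_eq_pow_sum, hdeg]
  ring

theorem val_eq_algebraMap (r : ℕ) (a : Fin (r + 1))
    (x : HomogeneousLocalization.Away (grad r) (X a)) :
    x.val = algebraMap _ (Localization.Away (X a : MvPolynomial (Fin (r + 1)) ℂ)) x := rfl

theorem val_awayConst (r : ℕ) (a : Fin (r + 1)) (z : ℂ) : (awayConst r a z).val =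
    algebraMap (MvPolynomial (Fin (r + 1)) ℂ) (Localization.Away (X a)) (C z) := rfl

theorem mul_val_frac (r : ℕ) (a b : Fin (r + 1)) :
    algebraMap (MvPolynomial (Fin (r + 1)) ℂ) (Localization.Away (X a)) (X a) * (frac r a b).val =
    algebraMap (MvPolynomial (Fin (r + 1)) ℂ) (Localization.Away (X a)) (X b) := by
  unfold frac
  rw [HomogeneousLocalization.Away.val_mk, ← Localization.mk_one_eq_algebraMap,
    ← Localization.mk_one_eq_algebraMap, Localization.mk_mul, Localization.mk_eq_mk_iff,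
    Localization.r_iff_exists]
  exact ⟨1, by simp⟩

theorem away_eq (r : ℕ) (a : Fin (r + 1)) (n : ℕ) (p : MvPolynomial (Fin (r + 1)) ℂ)
    (hp : p ∈ grad r (n • 1)) :
    HomogeneousLocalization.Away.mk (grad r) (X_mem_grad r a) n p hp =
      eval₂ (awayConst r a) (frac r a) p := by
  apply HomogeneousLocalization.val_injective
  have hu : IsUnit (algebraMap (PolyR r) (Localization.Away (X a : PolyR r)) (X a)) :=
    IsLocalization.map_units _ (⟨X a, 1, pow_one _⟩ : Submonoid.powers (X a : PolyR r))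
  apply (hu.pow n).mul_left_cancel
  have hp' : p.IsHomogeneous n := by
    have := (mem_homogeneousSubmodule _ _).mp hp
    simpa using this
  rw [val_eq_algebraMap r a (eval₂ _ _ _), hom_eval₂, ← eval₂_homog p hp']
  have e1 : (fun i => algebraMap (PolyR r) (Localization.Away (X a : PolyR r)) (X a) *
      algebraMap (HomogeneousLocalization.Away (grad r) (X a)) (Localization.Away (X a : PolyR r))
        (frac r a i)) = fun i => algebraMap (PolyR r) (Localization.Away (X a : PolyR r)) (X i) := by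
    funext i
    exact mul_val_frac r a i
  rw [e1]
  have e2 : (algebraMap (HomogeneousLocalization.Away (grad r) (X a))
      (Localization.Away (X a : PolyR r))).comp (awayConst r a) =
      (algebraMap (PolyR r) (Localization.Away (X a : PolyR r))).comp C := by
    ext z
    exact val_awayConst r a z
  rw [e2, ← hom_eval₂, eval₂_eta]
  rw [HomogeneousLocalization.Away.val_mk, ← Localization.mk_one_eq_algebraMap,
    ← Localization.mk_one_eq_algebraMap, Localization.mk_pow, Localization.mk_mul,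
    Localization.mk_eq_mk_iff, Localization.r_iff_exists]
  exact ⟨1, by simp⟩

theorem awayToSection_surjective (r : ℕ) (a : Fin (r + 1)) :
    Function.Surjective (Proj.awayToSection (grad r) (X a)).hom := by
  have h : (Proj.basicOpenIsoAway (grad r) (X a) (X_mem_grad r a) one_pos).hom =
    Proj.awayToSection (grad r) (X a) := rfl
  rw [← h]
  intro s
  refine ⟨(Proj.basicOpenIsoAway (grad r) (X a) (X_mem_grad r a) one_pos).inv.hom s, ?_⟩
  rw [← CommRingCat.comp_apply, Iso.inv_hom_id]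
  rfl

theorem exists_polynomial (r : ℕ) (a : Fin (r + 1)) (s : Γ(PP r, PP.chart r a)) :
    ∃ P : MvPolynomial (Fin (r + 1)) ℂ,
      s = MvPolynomial.eval₂ (cst (𝟙 (PP r)) (PP.chart r a)) (PP.coord r a) P := by
  obtain ⟨t, rfl⟩ := awayToSection_surjective r a s
  obtain ⟨n, p, hp, rfl⟩ := HomogeneousLocalization.Away.mk_surjective (grad r) (X_mem_grad r a) t
  refine ⟨p, ?_⟩
  rw [away_eq]
  have h1 : cst (𝟙 (PP r)) (PP.chart r a) =
      (Proj.awayToSection (grad r) (X a)).hom.comp (awayConst r a) := by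
    ext z
    exact cst_chart r a z
  rw [h1]
  exact hom_eval₂ _ _ _ _

end

end Pool.Agent.Work.MP_eb613f_ag
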