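import Mathlib
import Pool.Agent.Work.MP_eb613f_ag.Defs
import Pool.Agent.Work.MP_eb613f_ag.Charts

open AlgebraicGeometry CategoryTheory Limits MvPolynomial TopologicalSpace

namespace Pool.Agent.Work.MP_eb613f_ag

noncomputable section

variable {r : ℕ} {Y Y' : Scheme.{0}}

/-- restriction of functions to a smaller open subset -/
def res {U V : Y.Opens} (h : V ≤ U) : Γ(Y, U) →+* Γ(Y, V) := (Y.presheaf.map (homOfLE h).op).hom

theorem res_res {U V W : Y.Opens} (h : V ≤ U) (h' : W ≤ V) (s : Γ(Y, U)) :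
    res h' (res h s) = res (h'.trans h) s := by
  simp only [res]
  rw [← CommRingCat.comp_apply, ← Functor.map_comp]
  rfl

theorem res_self {U : Y.Opens} (h : U ≤ U) (s : Γ(Y, U)) : res h s = s := by
  simp only [res]
  have : (homOfLE h).op = 𝟙 (Opposite.op U) := rfl
  rw [this, CategoryTheory.Functor.map_id]
  rfl

theorem evaluation_res {U V : Y.Opens} (h : V ≤ U) (y : Y) (hy : y ∈ V) (s : Γ(Y, U)) :
    Y.evaluation V y hy (res h s) = Y.evaluation U y (h hy) s := by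
  simp only [res, Scheme.evaluation]
  rw [CommRingCat.comp_apply, CommRingCat.comp_apply]
  congr 1
  exact Y.presheaf.germ_res_apply (homOfLE h) y hy s

theorem germ_res {U V : Y.Opens} (h : V ≤ U) (y : Y) (hy : y ∈ V) (s : Γ(Y, U)) :
    Y.presheaf.germ V y hy (res h s) = Y.presheaf.germ U y (h hy) s := by
  exact Y.presheaf.germ_res_apply (homOfLE h) y hy s

theorem basicOpen_res {U V : Y.Opens} (h : V ≤ U) (s : Γ(Y, U)) :
    Y.basicOpen (res h s) = V ⊓ Y.basicOpen s := by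
  exact Y.basicOpen_res s (homOfLE h).op

/-- the chart of `Y` over a chart of `P^r` -/
abbrev chart (f : Y ⟶ PP r) (a : Fin (r + 1)) : Y.Opens := f ⁻¹ᵁ PP.chart r a

theorem crd_self (f : Y ⟶ PP r) (a : Fin (r + 1)) : crd f a a = 1 := by
  simp [crd, coord_self]

theorem basicOpen_crd (f : Y ⟶ PP r) (a b : Fin (r + 1)) :
    Y.basicOpen (crd f a b) = chart f a ⊓ chart f b := by
  have h := Scheme.preimage_basicOpen f (PP.coord r a b)
  rw [basicOpen_coord] at h
  exact h.symm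

/-- pull back of functions on the charts -/
def pb (f : Y ⟶ PP r) {U : (PP r).Opens} (V : Y.Opens) (h : V ≤ f ⁻¹ᵁ U) : Γ(PP r, U) →+* Γ(Y, V) :=
  (f.appLE U V h).hom

theorem res_app (f : Y ⟶ PP r) {U U' : (PP r).Opens} (h : U' ≤ U)
    (s : Γ(PP r, U)) :
    res (show f ⁻¹ᵁ U' ≤ f ⁻¹ᵁ U from fun _ hx => h hx) ((f.app U).hom s) =
      (f.app U').hom (((PP r).presheaf.map (homOfLE h).op).hom s) := by
  simp only [res]
  have := f.naturality (homOfLE h).op
  have h2 := congrArg (fun φ => φ.hom s) this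
  simp only [CommRingCat.hom_comp, RingHom.comp_apply] at h2
  exact h2.symm

theorem crd_cocycle (f : Y ⟶ PP r) (a b c : Fin (r + 1)) :
    res (inf_le_left : chart f a ⊓ chart f b ≤ chart f a) (crd f a b) *
    res (inf_le_right : chart f a ⊓ chart f b ≤ chart f b) (crd f b c) =
    res (inf_le_left : chart f a ⊓ chart f b ≤ chart f a) (crd f a c) := by
  have h := congrArg (f.app (PP.chart r a ⊓ PP.chart r b)).hom (coord_cocycle r a b c)
  rw [map_mul, ← res_app, ← res_app, ← res_app] at h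
  exact h

theorem iSup_chart' (f : Y ⟶ PP r) : ⨆ a, chart f a = ⊤ := by
  have h := congrArg (fun U => f ⁻¹ᵁ U) (iSup_chart r)
  simp only [Scheme.Hom.preimage_iSup] at h
  exact h

theorem exists_mem_chart (f : Y ⟶ PP r) (y : Y) : ∃ a, y ∈ chart f a := by
  have h : y ∈ (⊤ : Y.Opens) := trivial
  rw [← iSup_chart' f] at h
  simpa using h

theorem isAffineOpen_chart' (f : Y ⟶ PP r) [IsAffineHom f] (a : Fin (r + 1)) :
    IsAffineOpen (chart f a) :=
  (isAffineOpen_chart r a).preimage f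

theorem isAffineOpen_inf (f : Y ⟶ PP r) [IsAffineHom f] (a b : Fin (r + 1)) :
    IsAffineOpen (chart f a ⊓ chart f b) := by
  rw [← basicOpen_crd]
  exact (isAffineOpen_chart' f a).basicOpen _

theorem res_cst (f : Y ⟶ PP r) {U V : Y.Opens} (h : V ≤ U) (z : ℂ) :
    res h (cst f U z) = cst f V z := by
  simp only [cst, RingHom.comp_apply]
  exact res_res _ _ _

/-! families -/

/-- families of functions on the charts -/
abbrev Fam (f : Y ⟶ PP r) : Type := ∀ a : Fin (r + 1), Γ(Y, chart f a)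

/-- a family is a section of `O(j)` -/
def IsSec (f : Y ⟶ PP r) (j : ℕ) (s : Fam f) : Prop :=
  ∀ a b, res (inf_le_left : chart f a ⊓ chart f b ≤ chart f a) (s a) =
    res (inf_le_left : chart f a ⊓ chart f b ≤ chart f a) (crd f a b) ^ j *
    res (inf_le_right : chart f a ⊓ chart f b ≤ chart f b) (s b)

theorem IsSec.add {f : Y ⟶ PP r} {j : ℕ} {s t : Fam f} (hs : IsSec f j s) (ht : IsSec f j t) :
    IsSec f j (s + t) := by
  intro a b
  simp only [Pi.add_apply, map_add, hs a b, ht a b, mul_add]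

theorem IsSec.zero {f : Y ⟶ PP r} {j : ℕ} : IsSec f j 0 := by
  intro a b
  simp

theorem IsSec.one {f : Y ⟶ PP r} : IsSec f 0 1 := by
  intro a b
  simp

theorem IsSec.sum {f : Y ⟶ PP r} {j : ℕ} {ι : Type*} (S : Finset ι) {s : ι → Fam f}
    (hs : ∀ i ∈ S, IsSec f j (s i)) : IsSec f j (∑ i ∈ S, s i) := by
  classical
  induction S using Finset.induction_on with
  | empty => simpa using IsSec.zero
  | insert i S hi ih =>
    rw [Finset.sum_insert hi]
    exact (hs i (by simp)).add (ih fun i' hi' => hs i' (by simp [hi']))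

theorem IsSec.mul {f : Y ⟶ PP r} {j j' : ℕ} {s t : Fam f} (hs : IsSec f j s) (ht : IsSec f j' t) :
    IsSec f (j + j') (s * t) := by
  intro a b
  simp only [Pi.mul_apply, map_mul, hs a b, ht a b]
  ring

theorem IsSec.pow {f : Y ⟶ PP r} {j : ℕ} {s : Fam f} (hs : IsSec f j s) (k : ℕ) :
    IsSec f (k * j) (s ^ k) := by
  intro a b
  simp only [Pi.pow_apply, map_pow, hs a b]
  ring

theorem IsSec.prod {f : Y ⟶ PP r} {ι : Type*} (S : Finset ι) {s : ι → Fam f} {j : ι → ℕ}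
    (hs : ∀ i ∈ S, IsSec f (j i) (s i)) : IsSec f (∑ i ∈ S, j i) (∏ i ∈ S, s i) := by
  classical
  induction S using Finset.induction_on with
  | empty => simpa using IsSec.one
  | insert i S hi ih =>
    rw [Finset.prod_insert hi, Finset.sum_insert hi]
    exact (hs i (by simp)).mul (ih fun i' hi' => hs i' (by simp [hi']))

/-- constant families -/
def cstF (f : Y ⟶ PP r) : ℂ →+* Fam f := RingHom.pi fun a => cst f (chart f a)

@[simp] theorem cstF_apply (f : Y ⟶ PP r) (z : ℂ) (a : Fin (r + 1)) :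
    cstF f z a = cst f (chart f a) z := rfl

theorem isSec_cstF (f : Y ⟶ PP r) (z : ℂ) : IsSec f 0 (cstF f z) := by
  intro a b
  simp [res_cst]

theorem IsSec.smul {f : Y ⟶ PP r} {j : ℕ} {s : Fam f} (hs : IsSec f j s) (z : ℂ) :
    IsSec f j (cstF f z * s) := by
  simpa using (isSec_cstF f z).mul hs

/-- the coordinate `x_b` as a section of `O(1)` -/
def lin (f : Y ⟶ PP r) (b : Fin (r + 1)) : Fam f := fun a => crd f a b

theorem isSec_lin (f : Y ⟶ PP r) (b : Fin (r + 1)) : IsSec f 1 (lin f b) := by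
  intro a c
  simp only [lin, pow_one]
  exact (crd_cocycle f a c b).symm

/-- vanishing of a family at a point -/
def Van (f : Y ⟶ PP r) (s : Fam f) (y : Y) : Prop := ∀ a, y ∉ Y.basicOpen (s a)

theorem isClosed_van (f : Y ⟶ PP r) (s : Fam f) : IsClosed {y | Van f s y} := by
  have : {y | Van f s y} = ⋂ a, ((Y.basicOpen (s a) : Set Y))ᶜ := by
    ext y; simp [Van]
  rw [this]
  exact isClosed_iInter fun a => (Y.basicOpen (s a)).isOpen.isClosed_compl

theorem Van.specializes {f : Y ⟶ PP r} {s : Fam f} {c y : Y} (h : Van f s c) (hcy : c ⤳ y) :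
    Van f s y := by
  exact (hcy.mem_closed (isClosed_van f s) h)

/-- for a section the vanishing may be tested on one chart -/
theorem IsSec.van_iff {f : Y ⟶ PP r} {j : ℕ} {s : Fam f} (hs : IsSec f j s) {y : Y} {a : Fin (r + 1)}
    (ha : y ∈ chart f a) : Van f s y ↔ y ∉ Y.basicOpen (s a) := by
  constructor
  · intro h; exact h a
  · intro h b hb
    apply h
    have hb' : y ∈ chart f b := Y.basicOpen_le _ hb
    have h1 : y ∈ Y.basicOpen (res (inf_le_left : chart f b ⊓ chart f a ≤ chart f b) (s b)) := by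
      rw [basicOpen_res]; exact ⟨⟨hb', ha⟩, hb⟩
    rw [hs b a, Y.basicOpen_mul] at h1
    have h2 := h1.2
    rw [basicOpen_res] at h2
    exact h2.2

/-! pullback -/

/-- pullback of functions along a morphism -/
def pull (π : Y' ⟶ Y) {U : Y.Opens} {V : Y'.Opens} (e : V ≤ π ⁻¹ᵁ U) : Γ(Y, U) →+* Γ(Y', V) :=
  (π.appLE U V e).hom

theorem pull_res (π : Y' ⟶ Y) {U U' : Y.Opens} {V : Y'.Opens} (e : V ≤ π ⁻¹ᵁ U') (h : U' ≤ U)
    (s : Γ(Y, U)) : pull π e (res h s) = pull π (e.trans (fun _ hx => h hx)) s := by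
  simp only [pull, res]
  rw [← CommRingCat.comp_apply, Scheme.Hom.map_appLE]

theorem res_pull (π : Y' ⟶ Y) {U : Y.Opens} {V V' : Y'.Opens} (e : V ≤ π ⁻¹ᵁ U) (h : V' ≤ V)
    (s : Γ(Y, U)) : res h (pull π e s) = pull π (h.trans e) s := by
  simp only [pull, res]
  rw [← CommRingCat.comp_apply, Scheme.Hom.appLE_map]

theorem pull_app (π : Y' ⟶ Y) {U : Y.Opens} (s : Γ(Y, U)) :
    pull π (le_refl (π ⁻¹ᵁ U)) s = (π.app U).hom s := by
  simp only [pull]
  rw [Scheme.Hom.appLE_eq_app]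

theorem pull_eq (π : Y' ⟶ Y) {U : Y.Opens} {V : Y'.Opens} (e : V ≤ π ⁻¹ᵁ U) (s : Γ(Y, U)) :
    pull π e s = res e ((π.app U).hom s) := by
  rw [← pull_app, res_pull]

theorem basicOpen_pull (π : Y' ⟶ Y) {U : Y.Opens} {V : Y'.Opens} (e : V ≤ π ⁻¹ᵁ U) (s : Γ(Y, U)) :
    Y'.basicOpen (pull π e s) = V ⊓ π ⁻¹ᵁ (Y.basicOpen s) := by
  rw [pull_eq, basicOpen_res]
  congr 1
  exact (Scheme.preimage_basicOpen π s).symm

/-- pullback of functions on charts along a morphism over `P^r` -/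
def pbk {f : Y ⟶ PP r} {f' : Y' ⟶ PP r} (π : Y' ⟶ Y) (h : π ≫ f = f') (a : Fin (r + 1)) :
    Γ(Y, chart f a) →+* Γ(Y', chart f' a) :=
  pull π (show chart f' a ≤ π ⁻¹ᵁ chart f a by rw [← h]; rfl)

/-- pullback of families -/
def pbF {f : Y ⟶ PP r} {f' : Y' ⟶ PP r} (π : Y' ⟶ Y) (h : π ≫ f = f') : Fam f →+* Fam f' :=
  RingHom.pi fun a => (pbk π h a).comp (Pi.evalRingHom _ a)

@[simp] theorem pbF_apply {f : Y ⟶ PP r} {f' : Y' ⟶ PP r} (π : Y' ⟶ Y) (h : π ≫ f = f')
    (s : Fam f) (a : Fin (r + 1)) : pbF π h s a = pbk π h a (s a) := rfl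

theorem pbk_crd {f : Y ⟶ PP r} {f' : Y' ⟶ PP r} (π : Y' ⟶ Y) (h : π ≫ f = f')
    (a b : Fin (r + 1)) : pbk π h a (crd f a b) = crd f' a b := by
  subst h
  simp only [crd, Scheme.Hom.comp_app]
  exact pull_app π _

theorem pull_cst {f : Y ⟶ PP r} {f' : Y' ⟶ PP r} (π : Y' ⟶ Y) (h : π ≫ f = f')
    {U : Y.Opens} {V : Y'.Opens} (e : V ≤ π ⁻¹ᵁ U) (z : ℂ) :
    pull π e (cst f U z) = cst f' V z := by
  subst h
  have h1 : ∀ w : Γ(PP r, ⊤), pull π e (res le_top (f.appTop.hom w)) =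
      res le_top ((π ≫ f).appTop.hom w) := by
    intro w
    rw [pull_res, pull_eq, Scheme.Hom.comp_appTop, CommRingCat.hom_comp, RingHom.comp_apply]
    rfl
  simp only [cst, RingHom.comp_apply, Scheme.Hom.comp_appTop, CommRingCat.hom_comp] at h1 ⊢
  exact h1 _

theorem pbk_cst {f : Y ⟶ PP r} {f' : Y' ⟶ PP r} (π : Y' ⟶ Y) (h : π ≫ f = f')
    (a : Fin (r + 1)) (z : ℂ) : pbk π h a (cst f (chart f a) z) = cst f' (chart f' a) z :=
  pull_cst π h _ z

theorem basicOpen_pbk {f : Y ⟶ PP r} {f' : Y' ⟶ PP r} (π : Y' ⟶ Y) (h : π ≫ f = f')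
    (a : Fin (r + 1)) (s : Γ(Y, chart f a)) : Y'.basicOpen (pbk π h a s) = π ⁻¹ᵁ (Y.basicOpen s) := by
  subst h
  rw [pbk, basicOpen_pull]
  apply inf_eq_right.2
  exact fun y hy => Y.basicOpen_le s hy

theorem van_pbF {f : Y ⟶ PP r} {f' : Y' ⟶ PP r} (π : Y' ⟶ Y) (h : π ≫ f = f')
    (s : Fam f) (y : Y') : Van f' (pbF π h s) y ↔ Van f s (π y) := by
  simp only [Van, pbF_apply, basicOpen_pbk]
  rfl

theorem IsSec.pullback {f : Y ⟶ PP r} {f' : Y' ⟶ PP r} (π : Y' ⟶ Y) (h : π ≫ f = f') {j : ℕ}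
    {s : Fam f} (hs : IsSec f j s) : IsSec f' j (pbF π h s) := by
  subst h
  intro a b
  have h1 := congrArg (pull π (le_refl (π ⁻¹ᵁ (chart f a ⊓ chart f b)))) (hs a b)
  rw [map_mul, map_pow, pull_res, pull_res, pull_res] at h1
  simp only [pbF_apply, pbk, res_pull]
  rw [← pbk_crd π rfl a b, pbk, res_pull]
  exact h1

theorem pbF_cstF {f : Y ⟶ PP r} {f' : Y' ⟶ PP r} (π : Y' ⟶ Y) (h : π ≫ f = f') (z : ℂ) :
    pbF π h (cstF f z) = cstF f' z := by
  ext a
  simp [pbk_cst]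

/-- the ring homomorphism `χ` is the evaluation at the (closed) point `y` -/
structure Rep (f : Y ⟶ PP r) (a : Fin (r + 1)) (χ : Γ(Y, chart f a) →+* ℂ) (y : Y) : Prop where
  mem : y ∈ chart f a
  cst : ∀ z, χ (cst f (chart f a) z) = z
  iff : ∀ s, χ s = 0 ↔ y ∉ Y.basicOpen s

open Filter Topology in
/-- convergence of points along an ultrafilter -/
def IsLim (f : Y ⟶ PP r) {ι : Type*} (𝒰 : Ultrafilter ι) (y : ι → Y) (y₀ : Y) : Prop :=
  ∃ (a : Fin (r + 1)) (χ : ι → Γ(Y, chart f a) →+* ℂ) (χ₀ : Γ(Y, chart f a) →+* ℂ),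
    (∀ᶠ l in (𝒰 : Filter ι), Rep f a (χ l) (y l)) ∧ Rep f a χ₀ y₀ ∧
      ∀ s, Tendsto (fun l => χ l s) (𝒰 : Filter ι) (𝓝 (χ₀ s))

/-- multi-indices of degree at most `d` -/
def Mon (n d : ℕ) : Finset (Fin n → ℕ) :=
  (Fintype.piFinset fun _ => Finset.range (d + 1)).filter (fun β => ∑ i, β i ≤ d)

theorem mem_Mon {n d : ℕ} {β : Fin n → ℕ} : β ∈ Mon n d ↔ ∑ i, β i ≤ d := by
  simp only [Mon, Finset.mem_filter, Fintype.mem_piFinset, Finset.mem_range, and_iff_right_iff_imp]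
  intro h i
  have := Finset.single_le_sum (f := β) (fun i _ => Nat.zero_le _) (Finset.mem_univ i)
  omega

end

end Pool.Agent.Work.MP_eb613f_ag
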