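import Mathlib
import Pool.Agent.Work.MP_eb613f_ag.Basic

/-!
Vanishing to high order at a smooth point, counting monomials.
-/

namespace Pool.Agent.Work.MP_eb613f_ag

theorem card_Mon_lt (n σ d : ℕ) (hσ : 0 < σ) (hd : 0 < d) :
    (Mon n (σ * d - 1)).card < (σ ^ n + 1) * (Mon n d).card := by
  classical
  have h1 : (Mon n (σ * d - 1)).card ≤
      ((Fintype.piFinset fun _ : Fin n => Finset.range σ) ×ˢ Mon n d).card := by
    refine Finset.card_le_card_of_injOn
      (fun β => ((fun i => β i % σ), (fun i => β i / σ))) ?_ ?_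
    · intro β hβ
      rw [Finset.mem_coe, mem_Mon] at hβ
      rw [Finset.mem_coe, Finset.mem_product, mem_Mon, Fintype.mem_piFinset]
      refine ⟨fun i => Finset.mem_range.mpr (Nat.mod_lt _ hσ), ?_⟩
      have h2 : σ * ∑ i, β i / σ ≤ ∑ i, β i := by
        rw [Finset.mul_sum]
        exact Finset.sum_le_sum fun i _ => Nat.mul_div_le _ _
      have h3 : σ * ∑ i, β i / σ ≤ σ * d := h2.trans (hβ.trans (Nat.sub_le _ _))
      exact Nat.le_of_mul_le_mul_left h3 hσ
    · intro β _ γ _ h
      simp only [Prod.mk.injEq] at h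
      funext i
      have e1 := congrFun h.1 i
      have e2 := congrFun h.2 i
      rw [← Nat.div_add_mod (β i) σ, ← Nat.div_add_mod (γ i) σ, e1, e2]
  rw [Finset.card_product, Fintype.card_piFinset] at h1
  simp only [Finset.card_range, Finset.prod_const, Finset.card_univ, Fintype.card_fin] at h1
  have h4 : 0 < (Mon n d).card := Finset.card_pos.mpr ⟨0, mem_Mon.mpr (by simp)⟩
  calc (Mon n (σ * d - 1)).card ≤ σ ^ n * (Mon n d).card := h1
    _ < (σ ^ n + 1) * (Mon n d).card := by
      rw [add_mul, one_mul]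
      omega

theorem exists_vanishing {B : Type} [CommRing B] (C : ℂ →+* B) (χ : B →+* ℂ)
    (hχ : ∀ z, χ (C z) = z) {n : ℕ} (t : Fin n → B)
    (ht : RingHom.ker χ = Ideal.span (Set.range t) ⊔ RingHom.ker χ ^ 2) {I : Type} [Fintype I]
    (h : I → B) (M : ℕ) (hM0 : 0 < M) (hM : (Mon n (M - 1)).card < Fintype.card I) :
    ∃ lam : I → ℂ, lam ≠ 0 ∧ ∑ i, C (lam i) * h i ∈ RingHom.ker χ ^ M := by
  classical
  letI : Algebra ℂ B := C.toAlgebra
  set 𝔪 := RingHom.ker χ with h𝔪
  have hsm : ∀ (z : ℂ) (b : B), z • b = C z * b := fun z b => rfl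
  let mon : (Fin n → ℕ) → B := fun β => ∏ i, t i ^ β i
  let S : ℕ → Submodule ℂ B := fun k => Submodule.span ℂ (((Mon n k).image mon : Finset B) : Set B)
  have hdec : ∀ b : B, b - C (χ b) ∈ 𝔪 := by
    intro b
    rw [h𝔪, RingHom.mem_ker, map_sub, hχ, sub_self]
  -- multiplication by the elements t i
  have hmul : ∀ k (p : B), p ∈ S k → ∀ i, p * t i ∈ S (k + 1) := by
    intro k p hp i
    induction hp using Submodule.span_induction with
    | mem x hx =>
      rw [Finset.mem_coe, Finset.mem_image] at hx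
      obtain ⟨β, hβ, rfl⟩ := hx
      refine Submodule.subset_span ?_
      rw [Finset.mem_coe, Finset.mem_image]
      refine ⟨β + Pi.single i 1, ?_, ?_⟩
      · rw [mem_Mon] at hβ ⊢
        simp only [Pi.add_apply, Finset.sum_add_distrib]
        have : ∑ x, (Pi.single i 1 : Fin n → ℕ) x = 1 := by
          rw [Finset.sum_pi_single']
          simp
        omega
      · simp only [mon, Pi.add_apply, pow_add, Finset.prod_mul_distrib]
        congr 1
        rw [Finset.prod_eq_single i]
        · simp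
        · intro j _ hj
          rw [Pi.single_eq_of_ne hj, pow_zero]
        · simp
    | zero => rw [zero_mul]; exact zero_mem _
    | add x y _ _ hx hy => rw [add_mul]; exact add_mem hx hy
    | smul a x _ hx => rw [smul_mul_assoc]; exact Submodule.smul_mem _ _ hx
  -- decomposition of elements of the maximal ideal
  have hm2 : ∀ z ∈ 𝔪, ∃ γ : Fin n → ℂ, z - ∑ i, C (γ i) * t i ∈ 𝔪 ^ 2 := by
    intro z hz
    rw [ht, Submodule.mem_sup] at hz
    obtain ⟨y, hy, w, hw, rfl⟩ := hz
    rw [Ideal.mem_span_range_iff_exists_fun] at hy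
    obtain ⟨c, rfl⟩ := hy
    refine ⟨fun i => χ (c i), ?_⟩
    have e : ∑ i, c i * t i + w - ∑ i, C (χ (c i)) * t i = ∑ i, (c i - C (χ (c i))) * t i + w := by
      simp only [sub_mul, Finset.sum_sub_distrib]
      ring
    rw [e]
    refine add_mem (Ideal.sum_mem _ fun i _ => ?_) hw
    rw [pow_two]
    refine Ideal.mul_mem_mul (hdec _) ?_
    rw [ht]
    exact Ideal.mem_sup_left (Ideal.subset_span ⟨i, rfl⟩)
  have hmono : ∀ k, S k ≤ S (k + 1) := by
    intro k
    refine Submodule.span_mono ?_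
    intro x hx
    rw [Finset.mem_coe, Finset.mem_image] at hx ⊢
    obtain ⟨β, hβ, rfl⟩ := hx
    exact ⟨β, mem_Mon.mpr ((mem_Mon.mp hβ).trans (Nat.le_succ k)), rfl⟩
  have hP : ∀ k, ∀ x ∈ 𝔪 ^ k, ∃ p ∈ S k, x - p ∈ 𝔪 ^ (k + 1) := by
    intro k
    induction k with
    | zero =>
      intro x _
      refine ⟨C (χ x), ?_, ?_⟩
      · have h1 : C (χ x) = χ x • mon 0 := by
          rw [hsm]
          simp [mon]
        rw [h1]
        refine Submodule.smul_mem _ _ (Submodule.subset_span ?_)
        rw [Finset.mem_coe]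
        exact Finset.mem_image_of_mem _ (mem_Mon.mpr (by simp))
      · rw [zero_add, pow_one]
        exact hdec x
    | succ k ih =>
      intro x hx
      rw [pow_succ] at hx
      refine Submodule.mul_induction_on hx ?_ ?_
      · intro y hy z hz
        obtain ⟨p, hp, hp2⟩ := ih y hy
        obtain ⟨γ, hγ⟩ := hm2 z hz
        refine ⟨p * ∑ i, C (γ i) * t i, ?_, ?_⟩
        · rw [Finset.mul_sum]
          refine Submodule.sum_mem _ fun i _ => ?_
          have : p * (C (γ i) * t i) = γ i • (p * t i) := by rw [hsm]; ring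
          rw [this]
          exact Submodule.smul_mem _ _ (hmul k p hp i)
        · have e : y * z - p * ∑ i, C (γ i) * t i =
              (y - p) * z + p * (z - ∑ i, C (γ i) * t i) := by ring
          rw [e]
          refine add_mem ?_ ?_
          · have h3 : 𝔪 ^ (k + 1 + 1) = 𝔪 ^ (k + 1) * 𝔪 := pow_succ _ _
            rw [h3]
            exact Ideal.mul_mem_mul hp2 hz
          · have h3 : 𝔪 ^ (k + 1 + 1) = 𝔪 ^ k * 𝔪 ^ 2 := by rw [← pow_add]
            rw [h3]
            refine Ideal.mul_mem_mul ?_ hγ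
            have h4 : p = y - (y - p) := by ring
            rw [h4]
            exact sub_mem hy (Ideal.pow_le_pow_right (Nat.le_succ k) hp2)
      · rintro x y ⟨p, hp, hp2⟩ ⟨q, hq, hq2⟩
        refine ⟨p + q, add_mem hp hq, ?_⟩
        have e : x + y - (p + q) = (x - p) + (y - q) := by ring
        rw [e]
        exact add_mem hp2 hq2
  -- every element is a combination of monomials modulo a power
  have hQ : ∀ k, ∀ x : B, ∃ p ∈ S k, x - p ∈ 𝔪 ^ (k + 1) := by
    intro k
    induction k with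
    | zero => exact fun x => hP 0 x (by simp)
    | succ k ih =>
      intro x
      obtain ⟨p, hp, hp2⟩ := ih x
      obtain ⟨q, hq, hq2⟩ := hP (k + 1) _ hp2
      refine ⟨p + q, add_mem (hmono k hp) hq, ?_⟩
      rw [← sub_sub]
      exact hq2
  have hQ' : ∀ i, ∃ p ∈ S (M - 1), h i - p ∈ 𝔪 ^ M := by
    intro i
    have := hQ (M - 1) (h i)
    rwa [Nat.sub_add_cancel hM0] at this
  choose p hp hp2 using hQ'
  let φ : (I → ℂ) →ₗ[ℂ] S (M - 1) :=
    ∑ i, (LinearMap.proj i : (I → ℂ) →ₗ[ℂ] ℂ).smulRight (⟨p i, hp i⟩ : S (M - 1))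
  have hfin : FiniteDimensional ℂ (S (M - 1)) := FiniteDimensional.span_finset ℂ _
  have hlt : Module.finrank ℂ (S (M - 1)) < Module.finrank ℂ (I → ℂ) := by
    rw [Module.finrank_fintype_fun_eq_card]
    exact lt_of_le_of_lt ((finrank_span_finset_le_card _).trans Finset.card_image_le) hM
  have hker := LinearMap.ker_ne_bot_of_finrank_lt (f := φ) hlt
  obtain ⟨lam, hlam, hne⟩ := Submodule.exists_mem_ne_zero_of_ne_bot hker
  refine ⟨lam, hne, ?_⟩
  have h5 : ∑ i, C (lam i) * p i = 0 := by
    have h6 := congrArg (Submodule.subtype _) (LinearMap.mem_ker.mp hlam)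
    simpa [φ, hsm] using h6
  have h7 : ∑ i, C (lam i) * h i = ∑ i, C (lam i) * (h i - p i) := by
    simp only [mul_sub, Finset.sum_sub_distrib, h5, sub_zero]
  rw [h7]
  exact Ideal.sum_mem _ fun i _ => Ideal.mul_mem_left _ _ (hp2 i)

end Pool.Agent.Work.MP_eb613f_ag
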