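import Pool.Agent.Work.MP_eb613f_ag.Curve2

/-!
# Bezout inequality, positivity of the degree, hyperplane sections of curves
-/

open AlgebraicGeometry CategoryTheory Limits MvPolynomial TopologicalSpace WithZero

namespace Pool.Agent.Work.MP_eb613f_ag

noncomputable section

variable {r : ℕ} {Y : Scheme.{0}}

/-- the pole order of the coordinates at a place, computed in a chart -/
def poleOrd (f : Y ⟶ PP r) (c : Y) (a : Fin (r + 1)) (ha : c ∈ chart f a)
    (P : Place (constants f c)) : ℕ :=
  (Finset.univ.sup' (Finset.univ_nonempty (α := Fin (r+1)))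
      (fun b => - P.ord (ratio f c a b ha))).toNat

theorem curveDeg_eq (f : Y ⟶ PP r) (c : Y) : ∃ (a : Fin (r + 1)) (ha : c ∈ chart f a),
    curveDeg f c = ∑ᶠ P : Place (constants f c), poleOrd f c a ha P := by
  classical
  have h : ∃ a, c ∈ f ⁻¹ᵁ PP.chart r a := exists_mem_chart f c
  refine ⟨h.choose, h.choose_spec, ?_⟩
  unfold curveDeg
  rw [dif_pos h]
  rfl

variable {f : Y ⟶ PP r} {c : Y}

theorem poleOrd_eq {a : Fin (r + 1)} (ha : c ∈ chart f a) (P : Place (constants f c))
    {b : Fin (r + 1)} (hb : c ∈ chart f b) (hv : ∀ d, P.v (ratio f c b d hb) ≤ 1) :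
    (poleOrd f c a ha P : ℤ) = - P.ord (ratio f c a b ha) := by
  refine P.sup'_eq (fun d => ratio f c a d ha) (ratio_self f c ha)
    ((ratio_ne_zero_iff f c ha).2 hb) (fun d => ?_)
  rw [← ratio_mul f c ha hb d, map_mul]
  exact mul_le_of_le_one_right' (hv d)

theorem exists_chart_le {a : Fin (r + 1)} (ha : c ∈ chart f a) (P : Place (constants f c)) :
    ∃ (b : Fin (r + 1)) (hb : c ∈ chart f b), (∀ d, P.v (ratio f c b d hb) ≤ 1) ∧
      ∀ d, P.v (ratio f c a d ha) ≤ P.v (ratio f c a b ha) := by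
  obtain ⟨b, hb0, hb⟩ := P.exists_max (fun d => ratio f c a d ha) (ratio_self f c ha)
  have hbc : c ∈ chart f b := (ratio_ne_zero_iff f c ha).1 hb0
  refine ⟨b, hbc, fun d => ?_, hb⟩
  have h1 := hb d
  rw [← ratio_mul f c ha hbc d, map_mul] at h1
  have h2 : 0 < P.v (ratio f c a b ha) := zero_lt_iff.2 (P.vne hb0)
  by_contra hcon
  push Not at hcon
  have := mul_lt_mul_of_pos_left hcon h2
  rw [mul_one] at this
  exact absurd h1 (not_le.2 this)

theorem v_ev_le [IsFinite f] (P : Place (constants f c)) {b : Fin (r + 1)} (hb : c ∈ chart f b)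
    (hv : ∀ d, P.v (ratio f c b d hb) ≤ 1) (s : Γ(Y, chart f b)) : P.v (ev f c b hb s) ≤ 1 :=
  ev_mem f c hb P.ring (fun _ hx => P.mem_ring_of_isIntegral hx) (fun z => P.v_cst z) hv s

theorem toFunField_germ {x : Y} (h : c ⤳ x) {a : Fin (r + 1)} (ha : x ∈ chart f a)
    (s : Γ(Y, chart f a)) : toFunField h (Y.presheaf.germ (chart f a) x ha s) =
      ev f c a (h.mem_open (chart f a).isOpen ha) s := by
  have h1 := TopCat.Presheaf.germ_stalkSpecializes Y.presheaf ha h
  have h2 := congrArg (fun φ => (Y.residue c).hom (φ.hom s)) h1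
  exact h2

theorem finite_poleOrd [IsFinite f] (hc : IsCurvePoint f c) {a : Fin (r + 1)}
    (ha : c ∈ chart f a) : (Function.support (fun P => poleOrd f c a ha P)).Finite := by
  have h1 : ∀ b : Fin (r + 1), {P : Place (constants f c) | P.ord (ratio f c a b ha) ≠ 0}.Finite := by
    intro b
    by_cases hb : ratio f c a b ha = 0
    · rw [hb]
      have : {P : Place (constants f c) | P.ord (0 : Y.residueField c) ≠ 0} = ∅ := by
        ext P; simp [P.ord_zero]
      rw [this]
      exact Set.finite_empty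
    · exact finite_ord (constants f c) hc (fg_top f c) _ hb
  refine (Set.finite_iUnion h1).subset ?_
  intro P hP
  rw [Set.mem_iUnion]
  by_contra hcon
  push Not at hcon
  apply hP
  have h2 : ∀ b, P.ord (ratio f c a b ha) = 0 := by
    intro b
    have := hcon b
    simp only [Set.mem_ofPred_eq, not_not] at this
    exact this
  simp only [poleOrd, h2]
  simp

theorem Place.localMult_le {x : Y} {h : c ⤳ x} {P : Place (constants f c)} (hP : P.CenteredAt h)
    {z : Y.presheaf.stalk x} (hz : z ∈ IsLocalRing.maximalIdeal (Y.presheaf.stalk x)) :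
    P.v (toFunField h z) ≤ exp (-(P.localMult h : ℤ)) := by
  by_cases h0 : toFunField h z = 0
  · rw [h0, map_zero]; exact zero_le
  rw [P.v_le_exp h0]
  have h1 := (P.v_lt_one h0).1 ((hP z).2 hz)
  have h2 : P.localMult h ≤ (P.ord (toFunField h z)).toNat :=
    Nat.sInf_le ⟨z, hz, h0, (Int.toNat_of_nonneg h1.le).symm⟩
  omega

theorem Place.pow_localMult_le {x : Y} {h : c ⤳ x} {P : Place (constants f c)}
    (hP : P.CenteredAt h) (M : ℕ) :
    ∀ z ∈ (IsLocalRing.maximalIdeal (Y.presheaf.stalk x)) ^ M,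
      P.v (toFunField h z) ≤ exp (-((M * P.localMult h : ℕ) : ℤ)) := by
  induction M with
  | zero =>
    intro z _
    simpa using (hP z).1
  | succ M ih =>
    intro z hz
    rw [pow_succ] at hz
    refine Submodule.mul_induction_on hz ?_ ?_
    · intro a ha b hb
      have h1 := ih a ha
      have h2 := Place.localMult_le hP hb
      rw [map_mul, map_mul]
      refine (mul_le_mul' h1 h2).trans ?_
      rw [← exp_add]
      apply le_of_eq
      congr 1
      push_cast
      ring
    · intro a b ha hb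
      rw [map_add]
      exact (P.v.map_add _ _).trans (max_le ha hb)

theorem bezout (f : Y ⟶ PP r) [IsFinite f] {c x : Y} (hc : IsCurvePoint f c) (h : c ⤳ x)
    {t M : ℕ} {s : Fam f} (hs : IsSec f t s) (hsc : ¬ Van f s c) {a : Fin (r + 1)}
    (ha : x ∈ chart f a)
    (hM : Y.presheaf.germ (chart f a) x ha (s a) ∈
      (IsLocalRing.maximalIdeal (Y.presheaf.stalk x)) ^ M) :
    M * curveMult f h ≤ t * curveDeg f c := by
  classical
  obtain ⟨a₁, ha₁, hdeg⟩ := curveDeg_eq f c
  have hca : c ∈ chart f a := h.mem_open (chart f a).isOpen ha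
  set g := ev f c a₁ ha₁ (s a₁) with hg
  have hg0 : g ≠ 0 := by
    intro h0
    apply hsc
    rw [hs.van_iff ha₁, ← ev_eq_zero_iff f c ha₁]
    exact h0
  -- first estimate
  have est1 : ∀ P : Place (constants f c), 0 ≤ P.ord g + t * (poleOrd f c a₁ ha₁ P : ℤ) := by
    intro P
    obtain ⟨b, hb, hv, -⟩ := exists_chart_le ha₁ P
    have e1 := poleOrd_eq ha₁ P hb hv
    have e2 : g = ratio f c a₁ b ha₁ ^ t * ev f c b hb (s b) := hs.ev_eq c ha₁ hb
    have hne : ev f c b hb (s b) ≠ 0 := by
      intro h0; rw [h0, mul_zero] at e2; exact hg0 e2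
    have hne2 : ratio f c a₁ b ha₁ ≠ 0 := (ratio_ne_zero_iff f c ha₁).2 hb
    have e3 := (P.v_le_one hne).1 (v_ev_le P hb hv (s b))
    rw [e2, P.ord_mul (pow_ne_zero _ hne2) hne, P.ord_pow, e1]
    linarith
  -- second estimate
  have est2 : ∀ P : Place (constants f c), P.CenteredAt h →
      0 ≤ P.ord g + t * (poleOrd f c a₁ ha₁ P : ℤ) - M * (P.localMult h : ℤ) := by
    intro P hP
    have hv : ∀ d, P.v (ratio f c a d hca) ≤ 1 := by
      intro d
      rw [← ev_crd, ← toFunField_germ h ha]
      exact (hP _).1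
    have e1 := poleOrd_eq ha₁ P hca hv
    have e2 : g = ratio f c a₁ a ha₁ ^ t * ev f c a hca (s a) := hs.ev_eq c ha₁ hca
    have hne : ev f c a hca (s a) ≠ 0 := by
      intro h0; rw [h0, mul_zero] at e2; exact hg0 e2
    have hne2 : ratio f c a₁ a ha₁ ≠ 0 := (ratio_ne_zero_iff f c ha₁).2 hca
    have e3 := Place.pow_localMult_le hP M _ hM
    rw [toFunField_germ h ha] at e3
    rw [P.v_le_exp hne] at e3
    rw [e2, P.ord_mul (pow_ne_zero _ hne2) hne, P.ord_pow, e1]
    push_cast at e3
    linarith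
  -- finiteness
  have fin1 := finite_poleOrd hc ha₁
  have fin2 := finite_ord (constants f c) hc (fg_top f c) g hg0
  have fin3 : {P : Place (constants f c) | P.CenteredAt h ∧ P.localMult h ≠ 0}.Finite := by
    by_cases hex : ∃ z ∈ IsLocalRing.maximalIdeal (Y.presheaf.stalk x), toFunField h z ≠ 0
    · obtain ⟨z, hz, hz0⟩ := hex
      refine (finite_ord (constants f c) hc (fg_top f c) _ hz0).subset ?_
      rintro P ⟨hP, -⟩
      have := (P.v_lt_one hz0).1 ((hP z).2 hz)
      exact this.ne'
    · push Not at hex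
      convert Set.finite_empty
      ext P
      simp only [Set.mem_ofPred_eq, Set.mem_empty_iff_false, iff_false, not_and, not_not]
      intro _
      unfold Place.localMult
      have : {k : ℕ | ∃ s ∈ IsLocalRing.maximalIdeal (Y.presheaf.stalk x),
          toFunField h s ≠ 0 ∧ P.ord (toFunField h s) = k} = ∅ := by
        ext k
        simp only [Set.mem_ofPred_eq, Set.mem_empty_iff_false, iff_false]
        rintro ⟨z, hz, hz0, -⟩
        exact hz0 (hex z hz)
      rw [this, Nat.sInf_empty]
  set S : Finset (Place (constants f c)) := fin1.toFinset ∪ fin2.toFinset ∪ fin3.toFinset with hS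
  have sum1 : curveDeg f c = ∑ P ∈ S, poleOrd f c a₁ ha₁ P := by
    rw [hdeg]
    refine finsum_eq_sum_of_support_subset _ ?_
    intro P hP
    simp only [hS, Finset.coe_union, Set.Finite.coe_toFinset]
    exact Or.inl (Or.inl hP)
  have sum2 : (0 : ℤ) = ∑ P ∈ S, P.ord g := by
    rw [← finsum_ord (constants f c) hc (fg_top f c) g hg0]
    refine finsum_eq_sum_of_support_subset _ ?_
    intro P hP
    simp only [hS, Finset.coe_union, Set.Finite.coe_toFinset]
    exact Or.inl (Or.inr hP)
  have sum3 : curveMult f h = ∑ P ∈ S, if P.CenteredAt h then P.localMult h else 0 := by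
    unfold curveMult
    rw [finsum_subtype_eq_finsum_cond (f := fun P : Place (constants f c) => P.localMult h)
      (fun P : Place (constants f c) => P.CenteredAt h)]
    simp only [finsum_eq_if]
    refine finsum_eq_sum_of_support_subset _ ?_
    intro P hP
    simp only [hS, Finset.coe_union, Set.Finite.coe_toFinset]
    right
    simp only [Function.mem_support, ne_eq, ite_eq_right_iff, Classical.not_imp] at hP
    exact hP
  have key : ∀ P ∈ S, (M : ℤ) * ((if P.CenteredAt h then P.localMult h else 0 : ℕ) : ℤ) ≤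
      P.ord g + t * (poleOrd f c a₁ ha₁ P : ℤ) := by
    intro P _
    by_cases hP : P.CenteredAt h
    · rw [if_pos hP]
      have := est2 P hP
      linarith
    · rw [if_neg hP]
      have := est1 P
      simpa using this
  have := Finset.sum_le_sum key
  rw [Finset.sum_add_distrib, ← sum2, zero_add, ← Finset.mul_sum, ← Finset.mul_sum] at this
  have h3 : (M : ℤ) * (curveMult f h : ℤ) ≤ t * (curveDeg f c : ℤ) := by
    rw [sum1, sum3]
    push_cast at this ⊢
    exact this
  exact_mod_cast h3

theorem curveDeg_pos (f : Y ⟶ PP r) [IsFinite f] {c : Y} (hc : IsCurvePoint f c) :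
    0 < curveDeg f c := by
  obtain ⟨a, ha, hdeg⟩ := curveDeg_eq f c
  rw [hdeg]
  obtain ⟨b, hb⟩ := exists_ratio_notMem hc ha
  obtain ⟨P, hP⟩ := exists_ord_neg (constants f c) hc (fg_top f c) _ hb
  obtain ⟨d, hd, hv, hmax⟩ := exists_chart_le ha P
  have e := poleOrd_eq ha P hd hv
  have hne : ratio f c a b ha ≠ 0 := by
    intro h0; rw [h0, P.ord_zero] at hP; exact lt_irrefl _ hP
  have h1 := (P.v_le_v hne ((ratio_ne_zero_iff f c ha).2 hd)).1 (hmax b)
  have h2 : 0 < poleOrd f c a ha P := by omega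
  exact finsum_pos (fun _ => Nat.zero_le _) ⟨P, h2⟩ (finite_poleOrd hc ha)

theorem jacobson_PP (r : ℕ) : JacobsonSpace (PP r) := by
  have h1 : Algebra.FiniteType (grad r 0) (MvPolynomial (Fin (r + 1)) ℂ) := by
    refine ⟨⟨Finset.univ.image X, ?_⟩⟩
    rw [Finset.coe_image, Finset.coe_univ, Set.image_univ]
    exact adjoin_X r
  have h2 : IsJacobsonRing (grad r 0) := by
    refine isJacobsonRing_of_surjective ⟨algebraMap ℂ (grad r 0), ?_⟩
    rintro ⟨p, hp⟩
    have h0 : p.IsHomogeneous 0 := (mem_homogeneousSubmodule _ _).1 hp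
    obtain ⟨z, hz⟩ : ∃ z, p = C z := by
      have := (totalDegree_zero_iff_isHomogeneous _).2 h0
      rw [totalDegree_eq_zero_iff_eq_C] at this
      exact ⟨_, this⟩
    refine ⟨z, Subtype.ext ?_⟩
    exact hz.symm
  have h3 : JacobsonSpace (Spec (CommRingCat.of (grad r 0))) := inferInstance
  have h5 : JacobsonSpace (Proj (grad r)) :=
    LocallyOfFiniteType.jacobsonSpace (Proj.toSpecZero (grad r))
  exact h5

theorem jacobson_of_finite (f : Y ⟶ PP r) [IsFinite f] : JacobsonSpace Y := by
  have := jacobson_PP r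
  exact LocallyOfFiniteType.jacobsonSpace f

theorem exists_closed_specialization {U : Y.Opens} (hU : IsAffineOpen U) [JacobsonSpace Y]
    {c : Y} (hc : c ∈ U) (I : Ideal Γ(Y, U)) (hI : I ≠ ⊤)
    (hcI : ∀ s : Γ(Y, U), c ∉ Y.basicOpen s → s ∈ I) :
    ∃ x : Y, x ∈ U ∧ IsClosed {x} ∧ c ⤳ x ∧ ∀ s ∈ I, x ∉ Y.basicOpen s := by
  obtain ⟨m, hm, hIm⟩ := Ideal.exists_le_maximal I hI
  let y : Spec Γ(Y, U) := ⟨m, hm.isPrime⟩
  have hmem : ∀ (z : Spec Γ(Y, U)) (s : Γ(Y, U)), hU.fromSpec z ∈ Y.basicOpen s ↔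
      s ∉ z.asIdeal := by
    intro z s
    have h := hU.fromSpec_preimage_basicOpen s
    have h2 : z ∈ hU.fromSpec ⁻¹ᵁ Y.basicOpen s ↔ z ∈ PrimeSpectrum.basicOpen s := by
      rw [h]
      exact Iff.rfl
    exact h2
  have hy : hU.fromSpec y ∈ U := by
    have : hU.fromSpec y ∈ Set.range hU.fromSpec := ⟨y, rfl⟩
    rwa [hU.range_fromSpec] at this
  refine ⟨hU.fromSpec y, hy, ?_, ?_, ?_⟩
  · have h1 : y ∈ closedPoints (Spec Γ(Y, U)) := by
      rw [mem_closedPoints_iff]
      exact (PrimeSpectrum.isClosed_singleton_iff_isMaximal y).2 hm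
    have h2 := hU.fromSpec.isOpenEmbedding.preimage_closedPoints
    rw [← h2] at h1
    exact h1
  · have h3 : hU.fromSpec (hU.primeIdealOf ⟨c, hc⟩) = c := hU.fromSpec_primeIdealOf ⟨c, hc⟩
    have h4 : hU.primeIdealOf ⟨c, hc⟩ ⤳ y := by
      refine (PrimeSpectrum.le_iff_specializes _ _).1 ?_
      intro s hs
      apply hIm
      apply hcI
      rw [← h3]
      exact fun h => (hmem _ s).1 h hs
    have h5 := h4.map hU.fromSpec.continuous
    rw [h3] at h5
    exact h5
  · intro s hs
    rw [hmem]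
    exact fun h => h (hIm hs)

theorem exists_hyperplane_point (f : Y ⟶ PP r) [IsFinite f] {c : Y} (hc : IsCurvePoint f c)
    (α : Fin (r + 1) → ℂ) :
    ∃ x : Y, IsClosed {x} ∧ c ⤳ x ∧ Van f (∑ b, cstF f (α b) * lin f b) x := by
  have hJ := jacobson_of_finite f
  set s : Fam f := ∑ b, cstF f (α b) * lin f b with hs
  have hsec : IsSec f 1 s := IsSec.sum _ (fun b _ => (isSec_lin f b).smul (α b))
  by_cases hv : Van f s c
  · obtain ⟨x, hx, hxc⟩ := nonempty_inter_closedPoints (Z := closure ({c} : Set Y))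
      ⟨c, subset_closure rfl⟩ isClosed_closure.isLocallyClosed
    have hcx : c ⤳ x := specializes_iff_mem_closure.2 hx
    exact ⟨x, hxc, hcx, hv.specializes hcx⟩
  obtain ⟨a, ha⟩ := exists_mem_chart f c
  set g := ev f c a ha (s a) with hg
  have hg0 : g ≠ 0 := by
    intro h0
    apply hv
    rw [hsec.van_iff ha, ← ev_eq_zero_iff f c ha]
    exact h0
  -- some coordinate has a bigger pole than the linear form
  have hex : ∃ b, ratio f c a b ha / g ∉ (constants f c).range := by
    by_contra hcon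
    push Not at hcon
    obtain ⟨b, hb⟩ := exists_ratio_notMem hc ha
    obtain ⟨z, hz⟩ := hcon a
    obtain ⟨w, hw⟩ := hcon b
    rw [ratio_self, one_div] at hz
    apply hb
    refine ⟨w / z, ?_⟩
    rw [map_div₀, hz, hw]
    field_simp
  obtain ⟨b, hb⟩ := hex
  obtain ⟨P, hP⟩ := exists_ord_neg (constants f c) hc (fg_top f c) _ hb
  have hb0 : ratio f c a b ha ≠ 0 := by
    intro h0
    rw [h0, zero_div, P.ord_zero] at hP
    exact lt_irrefl _ hP
  have hlt : P.v g < P.v (ratio f c a b ha) := by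
    rw [P.v_lt_v hg0 hb0]
    have : ratio f c a b ha = (ratio f c a b ha / g) * g := by field_simp
    rw [this, P.ord_mul (div_ne_zero hb0 hg0) hg0]
    omega
  obtain ⟨d, hd, hvd, hmax⟩ := exists_chart_le ha P
  have hd0 : ratio f c a d ha ≠ 0 := (ratio_ne_zero_iff f c ha).2 hd
  have hsd : P.v (ev f c d hd (s d)) < 1 := by
    have e := hsec.ev_eq c ha hd
    rw [pow_one] at e
    have h1 : P.v g < P.v (ratio f c a d ha) := hlt.trans_le (hmax b)
    rw [hg, e, map_mul] at h1
    by_contra hcon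
    push Not at hcon
    have := mul_le_mul' (le_refl (P.v (ratio f c a d ha))) hcon
    rw [mul_one] at this
    exact absurd h1 (not_lt.2 this)
  let I : Ideal Γ(Y, chart f d) :=
    { carrier := {z | P.v (ev f c d hd z) < 1}
      add_mem' := by
        intro z w hz hw
        change P.v (ev f c d hd (z + w)) < 1
        rw [map_add]
        exact P.v.map_add_lt hz hw
      zero_mem' := by
        change P.v (ev f c d hd 0) < 1
        rw [map_zero, map_zero]
        exact zero_lt_one
      smul_mem' := by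
        intro z w hw
        change P.v (ev f c d hd (z * w)) < 1
        rw [map_mul, map_mul]
        exact (mul_le_of_le_one_left' (v_ev_le P hd hvd z)).trans_lt hw }
  have hI : I ≠ ⊤ := by
    intro h
    have : (1 : Γ(Y, chart f d)) ∈ I := by rw [h]; trivial
    change P.v (ev f c d hd 1) < 1 at this
    rw [map_one, map_one] at this
    exact lt_irrefl _ this
  obtain ⟨x, hxd, hx, hcx, hxI⟩ := exists_closed_specialization (isAffineOpen_chart' f d) hd I hI
    (by
      intro z hz
      rw [← ev_eq_zero_iff f c hd] at hz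
      change P.v (ev f c d hd z) < 1
      rw [hz, map_zero]
      exact zero_lt_one)
  refine ⟨x, hx, hcx, ?_⟩
  rw [hsec.van_iff hxd]
  exact hxI _ hsd

end

end Pool.Agent.Work.MP_eb613f_ag
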