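import Mathlib

set_option autoImplicit false

namespace Pool.Agent.Work.MP_eb613f_ag

open Polynomial IntermediateField

/-- A maximal ideal of a finitely generated complex algebra is the kernel of a complex point. -/
lemma exists_point_of_isMaximal {B : Type} [CommRing B] [Algebra ℂ B] [Algebra.FiniteType ℂ B]
    (m : Ideal B) [hm : m.IsMaximal] : ∃ χ : B →ₐ[ℂ] ℂ, RingHom.ker χ = m := by
  let : Field (B ⧸ m) := Ideal.Quotient.field m
  have : Module.Finite ℂ (B ⧸ m) := finite_of_finite_type_of_isJacobsonRing ℂ (B ⧸ m)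
  have hb : Function.Bijective (algebraMap ℂ (B ⧸ m)) :=
    IsAlgClosed.algebraMap_bijective_of_isIntegral
  let e : ℂ ≃ₐ[ℂ] (B ⧸ m) := AlgEquiv.ofBijective (Algebra.ofId ℂ (B ⧸ m)) hb
  refine ⟨e.symm.toAlgHom.comp (Ideal.Quotient.mkₐ ℂ m), ?_⟩
  ext x
  rw [RingHom.mem_ker]
  show e.symm (Ideal.Quotient.mk m x) = 0 ↔ x ∈ m
  rw [map_eq_zero_iff _ e.symm.injective, Ideal.Quotient.eq_zero_iff_mem]

/-- Two complex points with comparable kernels agree. -/
lemma point_eq_of_ker_le {B : Type} [CommRing B] [Algebra ℂ B] {χ ψ : B →ₐ[ℂ] ℂ}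
    (h : RingHom.ker χ ≤ RingHom.ker ψ) : ψ = χ := by
  ext x
  have h1 : x - algebraMap ℂ B (χ x) ∈ RingHom.ker χ := by
    rw [RingHom.mem_ker, map_sub, AlgHom.commutes]; simp
  have h2 := h h1
  rw [RingHom.mem_ker, map_sub, AlgHom.commutes, sub_eq_zero] at h2
  simpa using h2

/-- A finitely generated complex algebra has enough points: a point killing a given prime and not
killing a given element outside it. -/
lemma exists_point_avoid {A : Type} [CommRing A] [Algebra ℂ A] [Algebra.FiniteType ℂ A]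
    (p : Ideal A) [hp : p.IsPrime] (d : A) (hd : d ∉ p) :
    ∃ χ : A →ₐ[ℂ] ℂ, p ≤ RingHom.ker χ ∧ χ d ≠ 0 := by
  have : IsJacobsonRing A := isJacobsonRing_of_finiteType (A := ℂ)
  have h := (isJacobsonRing_iff_prime_eq.mp ‹IsJacobsonRing A›) p hp
  have h2 : d ∉ p.jacobson := by rw [h]; exact hd
  rw [Ideal.jacobson, Ideal.mem_sInf] at h2
  push Not at h2
  obtain ⟨m, hm, hdm⟩ := h2
  obtain ⟨hpm, hmax⟩ := hm
  have := hmax
  obtain ⟨χ, hχ⟩ := exists_point_of_isMaximal m
  refine ⟨χ, by rw [hχ]; exact hpm, fun h0 => hdm ?_⟩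
  rw [← hχ, RingHom.mem_ker]; exact h0

/-- Pseudo-division. -/
lemma pseudo_div {A : Type} [CommRing A] (F : A[X]) (N : ℕ) (hN : 1 ≤ N) (hF : F.natDegree ≤ N) :
    ∀ (m : ℕ) (g : A[X]), g.natDegree ≤ m →
      ∃ (k : ℕ) (q r : A[X]), C (F.coeff N ^ k) * g = q * F + r ∧ r.natDegree < N := by
  intro m
  induction m with
  | zero =>
    intro g hg
    exact ⟨0, 0, g, by simp, by omega⟩
  | succ m ih =>
    intro g hg
    by_cases hgm : m + 1 < N
    · exact ⟨0, 0, g, by simp, by omega⟩
    · have hgm : N ≤ m + 1 := by omega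
      obtain ⟨k, q, r, h1, h2⟩ := ih
        (C (F.coeff N) * g - C (g.coeff (m + 1)) * X ^ (m + 1 - N) * F) (by
          rw [natDegree_le_iff_coeff_eq_zero]
          intro j hj
          rw [coeff_sub, coeff_C_mul, mul_assoc, coeff_C_mul, coeff_X_pow_mul']
          rw [if_pos (by omega)]
          rcases Nat.lt_or_ge (m + 1) j with hj2 | hj2
          · have e1 : g.coeff j = 0 := coeff_eq_zero_of_natDegree_lt (by omega)
            have e2 : F.coeff (j - (m + 1 - N)) = 0 := coeff_eq_zero_of_natDegree_lt (by omega)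
            rw [e1, e2]; ring
          · have hj3 : j = m + 1 := by omega
            subst hj3
            have : m + 1 - (m + 1 - N) = N := by omega
            rw [this]; ring)
      refine ⟨k + 1, q + C (F.coeff N ^ k) * (C (g.coeff (m + 1)) * X ^ (m + 1 - N)), r, ?_, h2⟩
      have : C (F.coeff N ^ (k + 1)) * g = C (F.coeff N ^ k) *
          (C (F.coeff N) * g - C (g.coeff (m + 1)) * X ^ (m + 1 - N) * F) +
          C (F.coeff N ^ k) * (C (g.coeff (m + 1)) * X ^ (m + 1 - N)) * F := by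
        rw [pow_succ, C_mul]; ring
      rw [this, h1]; ring

/-- Clearing denominators of a polynomial. -/
lemma clear_poly {A K : Type} [CommRing A] [Field K] (α : A →+* K)
    (hα : ∀ x : K, ∃ a s, α s ≠ 0 ∧ x * α s = α a) (g : K[X]) :
    ∃ (s : A) (G : A[X]), α s ≠ 0 ∧ G.map α = C (α s) * g := by
  induction g using Polynomial.induction_on' with
  | add g₁ g₂ h₁ h₂ =>
    obtain ⟨s₁, G₁, hs₁, hG₁⟩ := h₁
    obtain ⟨s₂, G₂, hs₂, hG₂⟩ := h₂
    refine ⟨s₁ * s₂, C s₂ * G₁ + C s₁ * G₂, by rw [map_mul]; exact mul_ne_zero hs₁ hs₂, ?_⟩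
    simp only [Polynomial.map_add, Polynomial.map_mul, map_C, hG₁, hG₂, map_mul]
    ring
  | monomial n x =>
    obtain ⟨a, s, hs, h⟩ := hα x
    refine ⟨s, monomial n a, hs, ?_⟩
    rw [map_monomial, C_mul_monomial, ← h, mul_comm]

/-- A generator of the extension coming from the finite algebra. -/
lemma exists_generator {A B K L : Type} [CommRing A] [CommRing B] [Field K] [Field L]
    [CharZero K] [Algebra A B] [Algebra K L] [FiniteDimensional K L] (α : A →+* K) (β : B →+* L)
    (hcomm : ∀ a, β (algebraMap A B a) = algebraMap K L (α a))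
    (hα : ∀ x : K, ∃ a s, α s ≠ 0 ∧ x * α s = α a)
    (hβ : ∀ x : L, ∃ b s, β s ≠ 0 ∧ x * β s = β b) : ∃ θ : B, K⟮β θ⟯ = ⊤ := by
  have hM : Algebra.adjoin K (Set.range β) = ⊤ := by
    rw [eq_top_iff]
    intro x _
    obtain ⟨b, s, hs, h⟩ := hβ x
    have h1 : β b ∈ Algebra.adjoin K (Set.range β) := Algebra.subset_adjoin ⟨b, rfl⟩
    have h2 : β s ∈ Algebra.adjoin K (Set.range β) := Algebra.subset_adjoin ⟨s, rfl⟩
    have h3 : (β s)⁻¹ ∈ Algebra.adjoin K (Set.range β) :=
      Subalgebra.inv_mem_of_algebraic (Algebra.adjoin K (Set.range β)) (x := ⟨β s, h2⟩)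
        (Algebra.IsAlgebraic.isAlgebraic _)
    have h4 : x = β b * (β s)⁻¹ := by rw [← h]; field_simp
    rw [h4]
    exact Subalgebra.mul_mem _ h1 h3
  have hcl : ∀ x : L, ∃ (a : A) (b : B), α a ≠ 0 ∧ x * algebraMap K L (α a) = β b := by
    intro x
    have hx : x ∈ Algebra.adjoin K (Set.range β) := by rw [hM]; trivial
    induction hx using Algebra.adjoin_induction with
    | mem x hx =>
      obtain ⟨b, rfl⟩ := hx
      exact ⟨1, b, by simp, by simp⟩
    | algebraMap r =>
      obtain ⟨a, s, hs, h⟩ := hα r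
      exact ⟨s, algebraMap A B a, hs, by rw [hcomm, ← h, map_mul]⟩
    | add x y _ _ hx hy =>
      obtain ⟨a, b, ha, h⟩ := hx
      obtain ⟨a', b', ha', h'⟩ := hy
      refine ⟨a * a', b * algebraMap A B a' + b' * algebraMap A B a,
        by rw [map_mul]; exact mul_ne_zero ha ha', ?_⟩
      simp only [map_add, map_mul, hcomm, ← h, ← h']
      ring
    | mul x y _ _ hx hy =>
      obtain ⟨a, b, ha, h⟩ := hx
      obtain ⟨a', b', ha', h'⟩ := hy
      refine ⟨a * a', b * b', by rw [map_mul]; exact mul_ne_zero ha ha', ?_⟩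
      simp only [map_mul, ← h, ← h']
      ring
  obtain ⟨θ₀, hθ₀⟩ := Field.exists_primitive_element K L
  obtain ⟨a, θ, ha, h⟩ := hcl θ₀
  refine ⟨θ, ?_⟩
  rw [eq_top_iff, ← hθ₀, adjoin_simple_le_iff]
  have h1 : β θ ∈ K⟮β θ⟯ := mem_adjoin_simple_self K _
  have h2 : (algebraMap K L (α a))⁻¹ ∈ K⟮β θ⟯ := inv_mem (IntermediateField.algebraMap_mem _ _)
  have h3 : θ₀ = β θ * (algebraMap K L (α a))⁻¹ := by
    rw [← h]
    have : algebraMap K L (α a) ≠ 0 := by
      rw [Ne, map_eq_zero_iff _ (algebraMap K L).injective]; exact ha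
    field_simp
  rw [h3]
  exact mul_mem h1 h2

/-- Extension of a point along the finite algebra, with a prescribed value of `θ`. -/
lemma exists_point_above {A B K L : Type} [CommRing A] [CommRing B] [Field K] [Field L]
    [Algebra ℂ A] [Algebra ℂ B] [Algebra A B] [IsScalarTower ℂ A B] [Algebra.FiniteType ℂ A]
    [Module.Finite A B] [Algebra K L] (α : A →+* K) (β : B →+* L)
    (hcomm : ∀ a, β (algebraMap A B a) = algebraMap K L (α a))
    (θ : B) (χ₀ : A →ₐ[ℂ] ℂ) (hχ₀ : RingHom.ker α ≤ RingHom.ker χ₀)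
    (F : A[X]) (f : K[X]) (n : ℕ) (hn : 1 ≤ n) (hf : f = minpoly K (β θ)) (hfn : f.natDegree = n)
    (hF : F.map α = C (α (F.coeff n)) * f) (hFn : F.natDegree ≤ n)
    (hs : χ₀ (F.coeff n) ≠ 0) (c : ℂ)
    (hc : (F.map (χ₀ : A →+* ℂ)).IsRoot c) :
    ∃ χ : B →ₐ[ℂ] ℂ, RingHom.ker β ≤ RingHom.ker χ ∧ (∀ a, χ (algebraMap A B a) = χ₀ a) ∧
      χ θ = c := by
  have : Algebra.FiniteType ℂ B := Algebra.FiniteType.trans (S := A) inferInstance inferInstance
  -- the evaluation `A[X] → ℂ`
  let ev : A[X] →ₐ[ℂ] ℂ := 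
    { (eval₂RingHom (χ₀ : A →+* ℂ) c) with
      commutes' := by
        intro r
        show eval₂ (χ₀ : A →+* ℂ) c (algebraMap ℂ A[X] r) = _
        rw [Polynomial.algebraMap_apply, eval₂_C]
        simp }
  have hev : ∀ g : A[X], ev g = eval₂ (χ₀ : A →+* ℂ) c g := fun g => rfl
  have hsurj : Function.Surjective ev := fun z => ⟨algebraMap ℂ A[X] z, ev.commutes z⟩
  have hmax : (RingHom.ker ev).IsMaximal := RingHom.ker_isMaximal_of_surjective ev hsurj
  letI : Algebra A[X] B := (aeval θ : A[X] →ₐ[A] B).toRingHom.toAlgebra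
  have halg : ∀ g : A[X], algebraMap A[X] B g = aeval θ g := fun g => rfl
  have : IsScalarTower A A[X] B := IsScalarTower.of_algebraMap_eq (by
    intro a
    rw [halg, Polynomial.algebraMap_apply]; simp)
  have : Algebra.IsIntegral A B := inferInstance
  have : Algebra.IsIntegral A[X] B := Algebra.IsIntegral.tower_top A
  have : (RingHom.ker β).IsPrime := RingHom.ker_isPrime β
  have hle : (RingHom.ker β).comap (algebraMap A[X] B) ≤ RingHom.ker ev := by
    intro g hg
    rw [Ideal.mem_comap, RingHom.mem_ker, halg] at hg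
    rw [RingHom.mem_ker, hev]
    obtain ⟨k, q, r, h1, h2⟩ := pseudo_div F n hn hFn g.natDegree g le_rfl
    -- evaluation in L
    have hL : ∀ g : A[X], β (aeval θ g) = aeval (β θ) (g.map α) := by
      intro g
      rw [aeval_def, hom_eval₂, aeval_def, eval₂_map]
      congr 1
      ext a
      simp [hcomm]
    have hgL : f ∣ g.map α := by
      rw [hf]
      apply minpoly.dvd
      rw [← hL, hg]
    have hr : f ∣ r.map α := by
      have h3 := congrArg (Polynomial.map α) h1
      simp only [Polynomial.map_mul, Polynomial.map_add, map_C] at h3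
      have h4 : r.map α = C (α (F.coeff n ^ k)) * g.map α - q.map α * F.map α := by
        rw [h3]; ring
      rw [h4, hF]
      exact dvd_sub (Dvd.dvd.mul_left hgL _) (Dvd.dvd.mul_left (Dvd.intro_left _ rfl) _)
    have hr0 : r.map α = 0 := by
      by_contra hne
      have := natDegree_le_of_dvd hr hne
      have h5 := natDegree_map_le (f := α) (p := r)
      omega
    have hrc : eval₂ (χ₀ : A →+* ℂ) c r = 0 := by
      rw [eval₂_eq_sum_range]
      apply Finset.sum_eq_zero
      intro i _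
      have h6 : r.coeff i ∈ RingHom.ker α := by
        rw [RingHom.mem_ker, ← coeff_map, hr0, coeff_zero]
      have h7 := hχ₀ h6
      rw [RingHom.mem_ker] at h7
      show χ₀ (r.coeff i) * c ^ i = 0
      rw [h7, zero_mul]
    have hFc : eval₂ (χ₀ : A →+* ℂ) c F = 0 := by
      rw [IsRoot, eval_map] at hc; exact hc
    have h8 := congrArg (eval₂ (χ₀ : A →+* ℂ) c) h1
    rw [eval₂_mul, eval₂_add, eval₂_mul, hrc, hFc, eval₂_C] at h8
    simp only [mul_zero, add_zero, RingHom.coe_coe, map_pow] at h8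
    exact (mul_eq_zero.mp h8).resolve_left (pow_ne_zero _ hs)
  obtain ⟨Q, hQβ, hQp, hQ⟩ := Ideal.exists_ideal_over_prime_of_isIntegral_of_isPrime
    (RingHom.ker ev) (RingHom.ker β) hle
  have : Q.IsMaximal := by
    apply Ideal.isMaximal_of_isIntegral_of_isMaximal_comap (R := A[X]) Q
    rw [hQ]; exact hmax
  obtain ⟨χ, hχ⟩ := exists_point_of_isMaximal Q
  -- compare on A[X]
  let ψ : A[X] →ₐ[ℂ] ℂ := χ.comp ((aeval θ : A[X] →ₐ[A] B).restrictScalars ℂ)
  have hψ : ∀ g, ψ g = χ (aeval θ g) := fun g => rfl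
  have hker : RingHom.ker ev ≤ RingHom.ker ψ := by
    intro g hg
    rw [← hQ, Ideal.mem_comap, halg] at hg
    rw [RingHom.mem_ker, hψ, ← RingHom.mem_ker, hχ]
    exact hg
  have heq := point_eq_of_ker_le hker
  refine ⟨χ, by rw [hχ]; exact hQβ, fun a => ?_, ?_⟩
  · have := DFunLike.congr_fun heq (C a)
    rw [hψ, hev, aeval_C, eval₂_C] at this
    exact this
  · have := DFunLike.congr_fun heq X
    rw [hψ, hev, aeval_X, eval₂_X] at this
    exact this

theorem exists_many_points {A B K L : Type} [CommRing A] [CommRing B] [Field K] [Field L] [Algebra ℂ A] [Algebra ℂ B] [Algebra A B] [IsScalarTower ℂ A B] [Algebra.FiniteType ℂ A] [Module.Finite A B] [Algebra K L] (α : A →+* K) (β : B →+* L) (hcomm : ∀ a, β (algebraMap A B a) = algebraMap K L (α a)) (hα : ∀ x : K, ∃ a s, α s ≠ 0 ∧ x * α s = α a) (hβ : ∀ x : L, ∃ b s, β s ≠ 0 ∧ x * β s = β b) (Q : ℕ) (hQ : Q ≤ Module.finrank K L) : ∃ χ : Fin Q → (B →ₐ[ℂ] ℂ), Function.Injective χ ∧ (∀ s, RingHom.ker β ≤ RingHom.ker (χ s))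 ∧ ∀ s s' (a : A), χ s (algebraMap A B a) = χ s' (algebraMap A B a) := by
  rcases Nat.eq_zero_or_pos Q with rfl | hQ0
  · exact ⟨fun i => i.elim0, fun i => i.elim0, fun i => i.elim0, fun i => i.elim0⟩
  have : FiniteDimensional K L := Module.finite_of_finrank_pos (by omega)
  have : CharZero K := by
    have : Function.Injective (α.comp (algebraMap ℂ A)) := RingHom.injective _
    exact (RingHom.charZero_iff this).mp inferInstance
  obtain ⟨θ, hθ⟩ := exists_generator α β hcomm hα hβ
  have hn : (minpoly K (β θ)).natDegree = Module.finrank K L :=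
    (Field.primitive_element_iff_minpoly_natDegree_eq K (β θ)).mp hθ
  obtain ⟨n, hndef⟩ : ∃ n, n = Module.finrank K L := ⟨_, rfl⟩
  rw [← hndef] at hn hQ
  obtain ⟨f, hf⟩ : ∃ f, f = minpoly K (β θ) := ⟨_, rfl⟩
  rw [← hf] at hn
  have hmonic : f.Monic := by rw [hf]; exact minpoly.monic (Algebra.IsIntegral.isIntegral _)
  have hsep : f.Separable := by
    rw [hf]; exact (Algebra.IsSeparable.isSeparable K (β θ))
  -- a lift of `f`
  obtain ⟨s, F₀, hs, hF₀⟩ := clear_poly α hα f
  obtain ⟨F, hFn, hFs, hF⟩ : ∃ F : A[X], F.natDegree ≤ n ∧ F.coeff n = s ∧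
      F.map α = C (α s) * f := by
    refine ⟨(∑ i ∈ Finset.range n, monomial i (F₀.coeff i)) + monomial n s, ?_, ?_, ?_⟩
    · apply natDegree_add_le_of_degree_le
      · apply natDegree_sum_le_of_forall_le
        intro i hi
        exact (natDegree_monomial_le _).trans (Finset.mem_range.mp hi).le
      · exact natDegree_monomial_le _
    · rw [coeff_add, finsetSum_coeff, coeff_monomial, if_pos rfl, Finset.sum_eq_zero, zero_add]
      intro i hi
      rw [coeff_monomial, if_neg]
      have := Finset.mem_range.mp hi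
      omega
    · rw [← hF₀]
      ext j
      rw [coeff_map, coeff_map, coeff_add, finsetSum_coeff]
      simp only [coeff_monomial]
      rcases lt_trichotomy j n with h | h | h
      · rw [Finset.sum_eq_single j]
        · simp [h.ne']
        · intro i _ hij; rw [if_neg hij]
        · intro hj; exact absurd (Finset.mem_range.mpr h) hj
      · subst h
        rw [Finset.sum_eq_zero, zero_add, if_pos rfl, ← coeff_map, hF₀, coeff_C_mul]
        · have : f.coeff j = 1 := by rw [← hn]; exact hmonic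
          rw [this, mul_one]
        · intro i hi
          have := Finset.mem_range.mp hi
          rw [if_neg (by omega)]
      · rw [Finset.sum_eq_zero, zero_add, if_neg (by omega), map_zero, ← coeff_map, hF₀,
          coeff_C_mul, coeff_eq_zero_of_natDegree_lt (by omega), mul_zero]
        intro i hi
        have := Finset.mem_range.mp hi
        rw [if_neg (by omega)]
  -- Bezout
  obtain ⟨u, v, huv⟩ := hsep
  obtain ⟨su, U, hsu, hU⟩ := clear_poly α hα u
  obtain ⟨sv, V, hsv, hV⟩ := clear_poly α hα v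
  have hbez : (C sv * U * F + C su * V * derivative F - C (su * sv * s)).map α = 0 := by
    simp only [Polynomial.map_sub, Polynomial.map_add, Polynomial.map_mul, map_C, hU, hV, hF,
      ← derivative_map, derivative_mul, derivative_C, map_mul]
    linear_combination (C (α su) * C (α sv) * C (α s)) * huv
  have : (RingHom.ker α).IsPrime := RingHom.ker_isPrime α
  obtain ⟨χ₀, hχ₀, hd⟩ := exists_point_avoid (RingHom.ker α) (su * sv * s) (by
    rw [RingHom.mem_ker, map_mul, map_mul]
    exact mul_ne_zero (mul_ne_zero hsu hsv) hs)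
  have hd' : χ₀ su ≠ 0 ∧ χ₀ sv ≠ 0 ∧ χ₀ s ≠ 0 := by
    rw [map_mul, map_mul] at hd
    refine ⟨fun h => hd (by rw [h]; ring), fun h => hd (by rw [h]; ring), fun h => hd (by rw [h]; ring)⟩
  have hbez2 : (C sv * U * F + C su * V * derivative F - C (su * sv * s)).map (χ₀ : A →+* ℂ) = 0 := by
    ext i
    rw [coeff_map, coeff_zero]
    have h1 : (C sv * U * F + C su * V * derivative F - C (su * sv * s)).coeff i ∈ RingHom.ker α := by
      rw [RingHom.mem_ker, ← coeff_map, hbez, coeff_zero]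
    exact (RingHom.mem_ker (f := χ₀)).mp (hχ₀ h1)
  set F' : ℂ[X] := F.map (χ₀ : A →+* ℂ) with hF'
  have hsep' : F'.Separable := by
    refine ⟨C (χ₀ (su * sv * s))⁻¹ * (C sv * U).map (χ₀ : A →+* ℂ),
      C (χ₀ (su * sv * s))⁻¹ * (C su * V).map (χ₀ : A →+* ℂ), ?_⟩
    rw [Polynomial.map_sub, Polynomial.map_add, Polynomial.map_mul (p := C sv * U),
      Polynomial.map_mul (p := C su * V), ← derivative_map, ← hF', sub_eq_zero, map_C] at hbez2
    have h2 : C (χ₀ (su * sv * s))⁻¹ * (C sv * U).map (χ₀ : A →+* ℂ) * F' +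
        C (χ₀ (su * sv * s))⁻¹ * (C su * V).map (χ₀ : A →+* ℂ) * derivative F' =
        C (χ₀ (su * sv * s))⁻¹ * ((C sv * U).map (χ₀ : A →+* ℂ) * F' +
          (C su * V).map (χ₀ : A →+* ℂ) * derivative F') := by ring
    rw [h2, hbez2, ← C_mul]
    have : (χ₀ (su * sv * s))⁻¹ * (χ₀ : A →+* ℂ) (su * sv * s) = 1 := inv_mul_cancel₀ hd
    rw [this, C_1]
  have hdeg' : F'.natDegree = n := by
    apply le_antisymm ((natDegree_map_le).trans hFn)
    apply le_natDegree_of_ne_zero
    rw [coeff_map, hFs]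
    exact hd'.2.2
  have hroots : F'.roots.toFinset.card = n := by
    rw [Multiset.toFinset_card_of_nodup (nodup_roots hsep'), ← hdeg']
    exact (IsAlgClosed.splits F').natDegree_eq_card_roots.symm
  -- choose Q distinct roots
  have hemb : Nonempty (Fin Q ↪ F'.roots.toFinset) := by
    apply Function.Embedding.nonempty_of_card_le
    rw [Fintype.card_fin, Fintype.card_coe, hroots]; exact hQ
  obtain ⟨e⟩ := hemb
  have hex : ∀ i : Fin Q, ∃ χ : B →ₐ[ℂ] ℂ, RingHom.ker β ≤ RingHom.ker χ ∧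
      (∀ a, χ (algebraMap A B a) = χ₀ a) ∧ χ θ = (e i : ℂ) := by
    intro i
    have hroot : F'.IsRoot (e i : ℂ) := by
      have := (e i).2
      rw [Multiset.mem_toFinset] at this
      exact isRoot_of_mem_roots this
    exact exists_point_above α β hcomm θ χ₀ hχ₀ F f n (by omega) hf hn (by rw [hFs]; exact hF) hFn
      (by rw [hFs]; exact hd'.2.2) (e i) hroot
  choose χ h1 h2 h3 using hex
  refine ⟨χ, ?_, h1, fun s s' a => by rw [h2, h2]⟩
  intro i j hij
  apply e.injective
  apply Subtype.ext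
  rw [← h3 i, ← h3 j, hij]

end Pool.Agent.Work.MP_eb613f_ag
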