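import Mathlib
import Pool.Agent.Work.MP_eb613f_ag.Basic

open AlgebraicGeometry CategoryTheory Limits MvPolynomial TopologicalSpace

namespace Pool.Agent.Work.MP_eb613f_ag

noncomputable section

variable {r : ℕ} {Y Y' : Scheme.{0}}

theorem ev_zero_iff {U : Y.Opens} {y : Y} (hy : y ∈ U) (s : Γ(Y, U)) :
    Y.evaluation U y hy s = 0 ↔ y ∉ Y.basicOpen s :=
  Y.evaluation_eq_zero_iff_notMem_basicOpen y hy s

theorem ev_cst (f : Y ⟶ PP r) {U : Y.Opens} {y : Y} (hy : y ∈ U) (z : ℂ) :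
    Y.evaluation U y hy (cst f U z) = constants f y z := by
  simp only [cst, constants, RingHom.comp_apply]
  exact evaluation_res le_top y hy _

theorem constants_injective (f : Y ⟶ PP r) (y : Y) : Function.Injective (constants f y) :=
  (constants f y).injective

theorem Rep.ev {f : Y ⟶ PP r} {a : Fin (r + 1)} {χ : Γ(Y, chart f a) →+* ℂ} {y : Y}
    (h : Rep f a χ y) (s : Γ(Y, chart f a)) :
    Y.evaluation (chart f a) y h.mem s = constants f y (χ s) := by
  have h1 : χ (s - Pool.Agent.Work.MP_eb613f_ag.cst f (chart f a) (χ s)) = 0 := by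
    rw [map_sub, h.cst, sub_self]
  rw [h.iff, ← ev_zero_iff h.mem, map_sub, ev_cst, sub_eq_zero] at h1
  exact h1

theorem Rep.evaluation {f : Y ⟶ PP r} {a : Fin (r + 1)} {χ : Γ(Y, chart f a) →+* ℂ} {y : Y}
    (h : Rep f a χ y) (s : Γ(Y, chart f a)) :
    Y.evaluation (chart f a) y h.mem s = constants f y (χ s) := h.ev s

theorem Rep.unique' {f : Y ⟶ PP r} {a : Fin (r + 1)} {χ χ' : Γ(Y, chart f a) →+* ℂ} {y : Y}
    (h : Rep f a χ y) (h' : Rep f a χ' y) : χ = χ' := by
  ext s
  apply constants_injective f y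
  rw [← h.evaluation, ← h'.evaluation]

theorem Rep.push {f : Y ⟶ PP r} {f' : Y' ⟶ PP r} (π : Y' ⟶ Y) (hπ : π ≫ f = f')
    {a : Fin (r + 1)} {χ : Γ(Y', chart f' a) →+* ℂ} {y : Y'} (h : Rep f' a χ y) :
    Rep f a (χ.comp (pbk π hπ a)) (π y) := by
  refine ⟨?_, ?_, ?_⟩
  · have := h.mem
    subst hπ
    exact this
  · intro z
    rw [RingHom.comp_apply, pbk_cst, h.cst]
  · intro s
    rw [RingHom.comp_apply, h.iff, basicOpen_pbk]
    rfl

theorem Rep.change {f : Y ⟶ PP r} {a b : Fin (r + 1)} {χ : Γ(Y, chart f a) →+* ℂ}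
    {ψ : Γ(Y, chart f b) →+* ℂ} {y : Y} (h : Rep f a χ y) (h' : Rep f b ψ y) {j : ℕ} {s : Fam f}
    (hs : IsSec f j s) : χ (s a) = χ (crd f a b) ^ j * ψ (s b) := by
  apply constants_injective f y
  rw [map_mul, map_pow, ← h.evaluation, ← h.evaluation, ← h'.evaluation]
  have hab : y ∈ chart f a ⊓ chart f b := ⟨h.mem, h'.mem⟩
  have h1 := congrArg (Y.evaluation (chart f a ⊓ chart f b) y hab) (hs a b)
  rw [map_mul, map_pow, evaluation_res, evaluation_res, evaluation_res] at h1
  exact h1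

/-- Two points of an affine open subset which lie in the same basic open subsets are equal. -/
theorem eq_of_basicOpen {U : Y.Opens} (hU : IsAffineOpen U) {y y' : Y} (hy : y ∈ U) (hy' : y' ∈ U)
    (h : ∀ s : Γ(Y, U), y ∈ Y.basicOpen s ↔ y' ∈ Y.basicOpen s) : y = y' := by
  have key : ∀ y y' : Y, y ∈ U → y' ∈ U → (∀ s : Γ(Y, U), y ∈ Y.basicOpen s ↔ y' ∈ Y.basicOpen s) →
      y' ⤳ y := by
    intro y y' hy hy' h
    rw [specializes_iff_forall_open]
    intro V hV hyV
    obtain ⟨g, hg, hg'⟩ := hU.exists_basicOpen_le (V := ⟨V, hV⟩) ⟨y, hyV⟩ hy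
    exact hg ((h g).mp hg')
  exact (key y' y hy' hy fun s => (h s).symm).antisymm (key y y' hy hy' h) |>.eq

theorem Rep.unique {f : Y ⟶ PP r} [IsAffineHom f] {a : Fin (r + 1)}
    {χ : Γ(Y, chart f a) →+* ℂ} {y y' : Y} (h : Rep f a χ y) (h' : Rep f a χ y') : y = y' := by
  apply eq_of_basicOpen (isAffineOpen_chart' f a) h.mem h'.mem
  intro s
  rw [← not_iff_not, ← h.iff, ← h'.iff]

theorem exists_point (f : Y ⟶ PP r) [IsAffineHom f] (a : Fin (r + 1))
    (χ : Γ(Y, chart f a) →+* ℂ) (hχ : ∀ z, χ (cst f (chart f a) z) = z) :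
    ∃ y, Rep f a χ y := by
  have hU := isAffineOpen_chart' f a
  let p : PrimeSpectrum Γ(Y, chart f a) := ⟨RingHom.ker χ, RingHom.ker_isPrime χ⟩
  refine ⟨hU.fromSpec p, ?_, hχ, ?_⟩
  · have h1 : hU.fromSpec p ∈ Set.range hU.fromSpec := ⟨p, rfl⟩
    rw [hU.range_fromSpec] at h1
    exact h1
  · intro s
    have h2 := hU.fromSpec_preimage_basicOpen s
    have h3 : hU.fromSpec p ∈ Y.basicOpen s ↔ p ∈ PrimeSpectrum.basicOpen s := by
      rw [← h2]
      rfl
    rw [h3, PrimeSpectrum.mem_basicOpen, not_not]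
    exact RingHom.mem_ker.symm

/-- The value at a point of an affine open subset of the residue field. -/
theorem exists_quotient {U : Y.Opens} (hU : IsAffineOpen U) {y : Y} (hy : y ∈ U)
    (x : Y.residueField y) : ∃ s t : Γ(Y, U), Y.evaluation U y hy t ≠ 0 ∧
      x * Y.evaluation U y hy t = Y.evaluation U y hy s := by
  obtain ⟨g, rfl⟩ := Y.residue_surjective y x
  let _ := Y.presheaf.algebra_section_stalk ⟨y, hy⟩
  have hloc := hU.isLocalization_stalk ⟨y, hy⟩
  obtain ⟨⟨s, t⟩, hst⟩ := IsLocalization.surj (hU.primeIdealOf ⟨y, hy⟩).asIdeal.primeCompl g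
  have hev : ∀ u : Γ(Y, U), Y.evaluation U y hy u =
      (Y.residue y).hom (algebraMap Γ(Y, U) (Y.presheaf.stalk y) u) := fun u => rfl
  refine ⟨s, t, ?_, ?_⟩
  · have h1 := IsLocalization.map_units (Y.presheaf.stalk y) t
    rw [hev]
    exact (h1.map (Y.residue y).hom).ne_zero
  · rw [hev, hev, ← map_mul]
    exact congrArg _ hst

theorem Rep.constants_surjective {f : Y ⟶ PP r} [IsAffineHom f] {a : Fin (r + 1)}
    {χ : Γ(Y, chart f a) →+* ℂ} {y : Y} (h : Rep f a χ y) :
    Function.Surjective (constants f y) := by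
  intro x
  obtain ⟨s, t, ht, hst⟩ := exists_quotient (isAffineOpen_chart' f a) h.mem x
  rw [h.ev] at ht hst
  rw [h.ev] at hst
  refine ⟨χ s / χ t, ?_⟩
  rw [map_div₀, ← hst]
  exact mul_div_cancel_right₀ _ ht

theorem Rep.isClosed {f : Y ⟶ PP r} [IsAffineHom f] {a : Fin (r + 1)}
    {χ : Γ(Y, chart f a) →+* ℂ} {y : Y} (h : Rep f a χ y) : IsClosed {y} := by
  rw [← closure_subset_iff_isClosed]
  intro y' hy'
  have hs : y ⤳ y' := specializes_iff_mem_closure.mpr hy'
  obtain ⟨b, hb⟩ := exists_mem_chart f y'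
  have hyb : y ∈ chart f b := hs.mem_open (chart f b).isOpen hb
  rw [Set.mem_singleton_iff]
  apply eq_of_basicOpen (isAffineOpen_chart' f b) hb hyb
  intro s
  constructor
  · intro h1
    exact hs.mem_open (Y.basicOpen s).isOpen h1
  · intro h1
    obtain ⟨z, hz⟩ := h.constants_surjective (Y.evaluation (chart f b) y hyb s)
    have h2 : y ∉ Y.basicOpen (s - Pool.Agent.Work.MP_eb613f_ag.cst f (chart f b) z) := by
      rw [← ev_zero_iff hyb, map_sub, ev_cst, hz, sub_self]
    have h3 : y' ∉ Y.basicOpen (s - Pool.Agent.Work.MP_eb613f_ag.cst f (chart f b) z) :=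
      fun h' => h2 (hs.mem_open (Y.basicOpen _).isOpen h')
    rw [← ev_zero_iff hb, map_sub, ev_cst, sub_eq_zero] at h3
    have h4 : Y.evaluation (chart f b) y hyb s ≠ 0 := by
      rw [Ne, ev_zero_iff hyb, not_not]
      exact h1
    by_contra h5
    rw [← ev_zero_iff hb, h3] at h5
    have h6 : z = 0 := (map_eq_zero _).mp h5
    rw [h6, map_zero] at hz
    exact h4 hz.symm

theorem algebraMap_grad_surjective (r : ℕ) : Function.Surjective (algebraMap ℂ (grad r 0)) := by
  intro x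
  have hx : (x : MvPolynomial (Fin (r + 1)) ℂ).IsHomogeneous 0 := x.2
  rw [← totalDegree_zero_iff_isHomogeneous, totalDegree_eq_zero_iff_eq_C] at hx
  refine ⟨coeff 0 (x : MvPolynomial (Fin (r + 1)) ℂ), ?_⟩
  apply Subtype.ext
  exact hx.symm

instance finiteType_grad (r : ℕ) :
    Algebra.FiniteType (grad r 0) (MvPolynomial (Fin (r + 1)) ℂ) := by
  classical
  refine ⟨⟨Finset.univ.image X, ?_⟩⟩
  rw [Finset.coe_image, Finset.coe_univ, Set.image_univ]
  exact adjoin_X r

instance spec_lft (r : ℕ) :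
    LocallyOfFiniteType (Spec.map (CommRingCat.ofHom (algebraMap ℂ (grad r 0)))) := by
  rw [HasRingHomProperty.Spec_iff (P := @LocallyOfFiniteType)]
  exact RingHom.FiniteType.of_surjective _ (algebraMap_grad_surjective r)

/-- The structure morphism of `P^r` is locally of finite type. -/
instance toSpec_lft (r : ℕ) : LocallyOfFiniteType (PP.toSpec r) := by
  have h3 : LocallyOfFiniteType (Proj.toSpecZero (grad r) ≫
    Spec.map (CommRingCat.ofHom (algebraMap ℂ (grad r 0)))) := inferInstance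
  exact h3

theorem fromSpecResidueField_comp (R : CommRingCat.{0}) (g : Y ⟶ Spec R) (y : Y) :
    Y.fromSpecResidueField y ≫ g =
      Spec.map ((Scheme.ΓSpecIso R).inv ≫ g.appTop ≫ Y.evaluation ⊤ y trivial) := by
  have h1 : g = Y.toSpecΓ ≫ Spec.map ((Scheme.ΓSpecIso R).inv ≫ g.appTop) := by
    rw [Spec.map_comp, ← Scheme.toSpecΓ_naturality_assoc, toSpecΓ_SpecMap_ΓSpecIso_inv,
      Category.comp_id]
  conv_lhs => rw [h1]
  rw [Scheme.fromSpecResidueField, Category.assoc, Scheme.fromSpecStalk_toSpecΓ_assoc,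
    ← Spec.map_comp, ← Spec.map_comp]
  congr 1

theorem constants_bijective (f : Y ⟶ PP r) [LocallyOfFiniteType f] {y : Y} (hy : IsClosed {y}) :
    Function.Bijective (constants f y) := by
  have h := SpecMap_residueFieldIsoBase_inv (f ≫ PP.toSpec r) y hy
  rw [fromSpecResidueField_comp] at h
  have h2 := Spec.map_injective h
  have h3 : constants f y = (residueFieldIsoBase (f ≫ PP.toSpec r) y hy).inv.hom := by
    rw [h2]
    rfl
  rw [h3]
  exact ConcreteCategory.bijective_of_isIso (residueFieldIsoBase (f ≫ PP.toSpec r) y hy).inv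

theorem exists_rep (f : Y ⟶ PP r) [LocallyOfFiniteType f] {y : Y} (hy : IsClosed {y})
    {a : Fin (r + 1)} (ha : y ∈ chart f a) : ∃ χ, Rep f a χ y := by
  let e : ℂ ≃+* Y.residueField y := RingEquiv.ofBijective (constants f y) (constants_bijective f hy)
  refine ⟨e.symm.toRingHom.comp (Y.evaluation (chart f a) y ha).hom, ha, ?_, ?_⟩
  · intro z
    show e.symm (Y.evaluation (chart f a) y ha _) = z
    rw [ev_cst]
    exact e.symm_apply_apply z
  · intro s
    rw [← ev_zero_iff ha]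
    exact e.symm.map_eq_zero_iff

end

end Pool.Agent.Work.MP_eb613f_ag
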