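import Mathlib

open TensorProduct KaehlerDifferential

namespace Pool.Agent.Work.MP_eb613f_ag

section fibre

variable {A : Type} [CommRing A] [Algebra ℂ A]

theorem SA.exists_mem_cover {n : ℕ}
    (hA : RingHom.Locally (RingHom.IsStandardSmoothOfRelativeDimension n) (algebraMap ℂ A))
    (χ : A →ₐ[ℂ] ℂ) : ∃ t : A, χ t ≠ 0 ∧
      Algebra.IsStandardSmoothOfRelativeDimension n ℂ (Localization.Away t) := by
  obtain ⟨s, hs, h⟩ := hA
  by_contra hcon
  push Not at hcon
  have h1 : Ideal.span s ≤ RingHom.ker χ := by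
    rw [Ideal.span_le]
    intro t ht
    by_contra h2
    refine hcon t h2 ?_
    have h3 := h t ht
    rw [← IsScalarTower.algebraMap_eq] at h3
    exact (RingHom.isStandardSmoothOfRelativeDimension_algebraMap _).1 h3
  rw [hs, top_le_iff] at h1
  have h2 : (1 : A) ∈ RingHom.ker χ := by rw [h1]; trivial
  simp [RingHom.mem_ker] at h2

/-- the fibre of the module of differentials at a point has dimension `n` -/
theorem SA.rank_fibre {n : ℕ}
    (hA : RingHom.Locally (RingHom.IsStandardSmoothOfRelativeDimension n) (algebraMap ℂ A))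
    [Algebra A ℂ] [IsScalarTower ℂ A ℂ] :
    Module.rank ℂ (ℂ ⊗[A] Ω[A⁄ℂ]) = n := by
  obtain ⟨t, ht, hst⟩ := SA.exists_mem_cover hA (IsScalarTower.toAlgHom ℂ A ℂ)
  have hu : IsUnit (algebraMap A ℂ t) := by
    rw [isUnit_iff_ne_zero]
    simpa using ht
  let : Algebra (Localization.Away t) ℂ := (IsLocalization.Away.lift t hu).toAlgebra
  have : IsScalarTower A (Localization.Away t) ℂ := by
    apply IsScalarTower.of_algebraMap_eq
    intro x
    rw [RingHom.algebraMap_toAlgebra]
    simp
  have : Nontrivial (Localization.Away t) := by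
    exact (algebraMap (Localization.Away t) ℂ).domain_nontrivial
  have : Algebra.FormallyEtale A (Localization.Away t) :=
    Algebra.FormallyEtale.of_isLocalization (Submonoid.powers t)
  have : Algebra.IsStandardSmooth ℂ (Localization.Away t) :=
    Algebra.IsStandardSmoothOfRelativeDimension.isStandardSmooth n
  have e1 := (TensorProduct.AlgebraTensorModule.cancelBaseChange A (Localization.Away t) ℂ ℂ
    (Ω[A⁄ℂ]))
  have e2 := tensorKaehlerEquivOfFormallyEtale ℂ A (Localization.Away t)
  have e3 := TensorProduct.AlgebraTensorModule.congr (LinearEquiv.refl ℂ ℂ) e2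
  have e4 := e1.symm.trans e3
  rw [e4.rank_eq, Module.rank_baseChange,
    Algebra.IsStandardSmoothOfRelativeDimension.rank_kaehlerDifferential n]
  simp

theorem SA.exists_basis_sel {ι : Type} {V : Type} [AddCommGroup V] [Module ℂ V] (n : ℕ)
    (hr : Module.rank ℂ V = n) (v : ι → V) (hv : Submodule.span ℂ (Set.range v) = ⊤) :
    ∃ (b : Fin n → ι) (e : Module.Basis (Fin n) ℂ V), ∀ k, e k = v (b k) := by
  obtain ⟨κ, a, -, hs, hl⟩ := exists_linearIndependent' ℂ v
  let B : Module.Basis κ ℂ V := Module.Basis.mk hl (by rw [hs, hv])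
  have h1 : Cardinal.mk κ = n := by
    rw [← hr]
    exact B.mk_eq_rank''
  have h2 : Cardinal.mk κ = Cardinal.mk (Fin n) := by simpa using h1
  obtain ⟨e0⟩ := Cardinal.eq.1 h2
  refine ⟨fun k => a (e0.symm k), B.reindex e0, fun k => ?_⟩
  simp [B]

theorem SA.span_tmul_D {ι : Type} (u : ι → A) (hu : Algebra.adjoin ℂ (Set.range u) = ⊤)
    [Algebra A ℂ] [IsScalarTower ℂ A ℂ] :
    Submodule.span ℂ (Set.range fun b => (1 : ℂ) ⊗ₜ[A] (D ℂ A (u b))) = ⊤ := by
  have h1 : ∀ a : A, (1 : ℂ) ⊗ₜ[A] (D ℂ A a) ∈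
      Submodule.span ℂ (Set.range fun b => (1 : ℂ) ⊗ₜ[A] (D ℂ A (u b))) := by
    intro a
    have ha : a ∈ Algebra.adjoin ℂ (Set.range u) := by rw [hu]; trivial
    induction ha using Algebra.adjoin_induction with
    | mem x hx =>
      obtain ⟨b, rfl⟩ := hx
      exact Submodule.subset_span ⟨b, rfl⟩
    | algebraMap r => simp
    | add x y _ _ hx hy =>
      rw [map_add, tmul_add]
      exact Submodule.add_mem _ hx hy
    | mul x y _ _ hx hy =>
      rw [Derivation.leibniz, tmul_add, tmul_smul, tmul_smul, ← algebraMap_smul ℂ x,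
        ← algebraMap_smul ℂ y]
      exact Submodule.add_mem _ (Submodule.smul_mem _ _ hy) (Submodule.smul_mem _ _ hx)
  rw [eq_top_iff]
  rintro z -
  induction z using TensorProduct.induction_on with
  | zero => exact Submodule.zero_mem _
  | add x y hx hy => exact Submodule.add_mem _ hx hy
  | tmul c w =>
    have hw : w ∈ Submodule.span A (Set.range (D ℂ A)) := by
      rw [span_range_derivation]; trivial
    induction hw using Submodule.span_induction with
    | mem x hx =>
      obtain ⟨a, rfl⟩ := hx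
      have := Submodule.smul_mem _ c (h1 a)
      rwa [smul_tmul', smul_eq_mul, mul_one] at this
    | zero => simp
    | add x y _ _ hx hy =>
      rw [tmul_add]
      exact Submodule.add_mem _ hx hy
    | smul a x _ hx =>
      rw [tmul_smul, ← algebraMap_smul ℂ a]
      exact Submodule.smul_mem _ _ hx

end fibre

theorem exists_local_parameters {B : Type} [CommRing B] [Algebra ℂ B] (n : ℕ)
    (hB : RingHom.Locally (RingHom.IsStandardSmoothOfRelativeDimension n) (algebraMap ℂ B))
    (χ : B →ₐ[ℂ] ℂ) :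
    ∃ t : Fin n → B, RingHom.ker χ = Ideal.span (Set.range t) ⊔ RingHom.ker χ ^ 2 := by
  classical
  let : Algebra B ℂ := χ.toRingHom.toAlgebra
  have hmap : ∀ x : B, algebraMap B ℂ x = χ x := fun x => rfl
  have : IsScalarTower ℂ B ℂ := by
    apply IsScalarTower.of_algebraMap_eq
    intro x
    rw [hmap]
    simp
  set I : Ideal B := RingHom.ker χ with hI
  have hsub : ∀ b : B, b - algebraMap ℂ B (χ b) ∈ I := by
    intro b
    rw [hI, RingHom.mem_ker]
    simp
  have hkill : ∀ (b : B) (_ : b ∈ I) (z : I.Cotangent), b • z = 0 := by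
    intro b hb z
    obtain ⟨z, rfl⟩ := I.toCotangent_surjective z
    rw [← map_smul, Ideal.toCotangent_eq_zero, pow_two]
    exact Ideal.mul_mem_mul hb z.2
  have hsm : ∀ (b : B) (z : I.Cotangent), b • z = χ b • z := by
    intro b z
    have h := hkill _ (hsub b) z
    rw [sub_smul, sub_eq_zero] at h
    rw [h, algebraMap_smul]
  have : IsScalarTower B ℂ I.Cotangent := by
    refine ⟨fun x y z => ?_⟩
    rw [hsm, Algebra.smul_def, hmap, mul_smul]
  let δ : Derivation ℂ B I.Cotangent := Derivation.mk'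
    { toFun := fun b => I.toCotangent ⟨b - algebraMap ℂ B (χ b), hsub b⟩
      map_add' := by
        intro x y
        rw [← map_add]
        congr 1
        ext
        simp only [map_add, AddMemClass.mk_add_mk]
        ring
      map_smul' := by
        intro c x
        rw [RingHom.id_apply, ← LinearMap.map_smul_of_tower]
        congr 1
        ext
        simp [Algebra.smul_def]
        ring }
    (by
      intro a b
      simp only [LinearMap.coe_mk, AddHom.coe_mk]
      rw [← map_smul, ← map_smul, ← map_add, Ideal.toCotangent_eq]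
      have h1 := Ideal.mul_mem_mul (hsub a) (hsub b)
      rw [← pow_two] at h1
      have h2 := (I ^ 2).neg_mem h1
      convert h2 using 1
      simp
      ring)
  have hδ : ∀ b, δ b = I.toCotangent ⟨b - algebraMap ℂ B (χ b), hsub b⟩ := fun b => rfl
  obtain ⟨b, e, he⟩ := SA.exists_basis_sel n (SA.rank_fibre hB) _
    (SA.span_tmul_D (id : B → B) (by simp))
  let L : ℂ ⊗[B] Ω[B⁄ℂ] →ₗ[ℂ] I.Cotangent := δ.liftKaehlerDifferential.liftBaseChange ℂ
  have hL : ∀ a : B, L (1 ⊗ₜ D ℂ B a) = δ a := by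
    intro a
    simp [L]
  refine ⟨fun k => b k - algebraMap ℂ B (χ (b k)), le_antisymm ?_ ?_⟩
  · intro x hx
    have h1 := e.sum_repr (1 ⊗ₜ D ℂ B x)
    have h2 := congrArg L h1
    rw [hL, map_sum] at h2
    simp only [map_smul, he, hL, id] at h2
    simp only [hδ] at h2
    have hx0 : χ x = 0 := hx
    have h3 : I.toCotangent (∑ k, (e.repr (1 ⊗ₜ D ℂ B x)) k •
        (⟨b k - algebraMap ℂ B (χ (b k)), hsub (b k)⟩ : I)) = I.toCotangent ⟨x, hx⟩ := by
      rw [map_sum]
      simp only [LinearMap.map_smul_of_tower]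
      rw [h2]
      congr 1
      ext
      simp [hx0]
    rw [eq_comm, Ideal.toCotangent_eq] at h3
    rw [Submodule.mem_sup']
    refine ⟨⟨_, ?_⟩, ⟨_, h3⟩, add_sub_cancel _ _⟩
    have h5 : (∑ k, (e.repr (1 ⊗ₜ D ℂ B x)) k •
        (⟨b k - algebraMap ℂ B (χ (b k)), hsub (b k)⟩ : I)).1 =
        ∑ k, (e.repr (1 ⊗ₜ D ℂ B x)) k • (b k - algebraMap ℂ B (χ (b k))) := by
      rw [← Submodule.subtype_apply, map_sum]
      rfl
    have h6 : ∑ k, (e.repr (1 ⊗ₜ D ℂ B x)) k • (b k - algebraMap ℂ B (χ (b k))) ∈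
        Ideal.span (Set.range fun k => b k - algebraMap ℂ B (χ (b k))) := by
      refine Submodule.sum_mem _ fun k _ => ?_
      rw [Algebra.smul_def]
      exact Ideal.mul_mem_left _ _ (Ideal.subset_span ⟨k, rfl⟩)
    rw [← h5] at h6
    exact h6
  · refine sup_le ?_ (Ideal.pow_le_self two_ne_zero)
    rw [Ideal.span_le]
    rintro _ ⟨k, rfl⟩
    exact hsub _

theorem exists_derivations {A ι : Type} [CommRing A] [Algebra ℂ A] (n : ℕ)
    (hA : RingHom.Locally (RingHom.IsStandardSmoothOfRelativeDimension n) (algebraMap ℂ A))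
    (u : ι → A) (hu : Algebra.adjoin ℂ (Set.range u) = ⊤) :
    ∃ (m : ℕ) (η : Fin m → Derivation ℂ A A), ∀ χ : A →ₐ[ℂ] ℂ,
      ∃ (b : Fin n → ι) (lam : Fin n → Fin m → ℂ),
        ∀ i k, χ (∑ j, lam i j • η j (u (b k))) = if i = k then 1 else 0 := by
  classical
  have hsm : Algebra.Smooth ℂ A := by
    rw [← RingHom.smooth_algebraMap, RingHom.smooth_iff_locally_isStandardSmooth]
    obtain ⟨s, hs, h⟩ := hA
    exact ⟨s, hs, fun t ht => (h t ht).isStandardSmooth⟩
  have hproj : Module.Projective A Ω[A⁄ℂ] := inferInstance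
  have hfin : Module.Finite A Ω[A⁄ℂ] := inferInstance
  obtain ⟨m, f, s, hf, -, hfs⟩ := Module.Finite.exists_comp_eq_id_of_projective A Ω[A⁄ℂ]
  refine ⟨m, fun j => ((LinearMap.proj j).comp s).compDer (D ℂ A), fun χ => ?_⟩
  let : Algebra A ℂ := χ.toRingHom.toAlgebra
  have hmap : ∀ x : A, algebraMap A ℂ x = χ x := fun x => rfl
  have : IsScalarTower ℂ A ℂ := by
    apply IsScalarTower.of_algebraMap_eq
    intro x
    rw [hmap]
    simp
  obtain ⟨b, e, he⟩ := SA.exists_basis_sel n (SA.rank_fibre hA) _ (SA.span_tmul_D u hu)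
  refine ⟨b, fun i j => e.coord i ((1 : ℂ) ⊗ₜ[A] f (Pi.single j 1)), fun i k => ?_⟩
  have h1 : D ℂ A (u (b k)) = ∑ j, s (D ℂ A (u (b k))) j • f (Pi.single j 1) := by
    have h2 : f (s (D ℂ A (u (b k)))) = D ℂ A (u (b k)) := by
      have := LinearMap.congr_fun hfs (D ℂ A (u (b k)))
      simpa using this
    conv_lhs => rw [← h2, LinearMap.pi_apply_eq_sum_univ]
    refine Finset.sum_congr rfl fun j _ => ?_
    congr 2
    ext l
    simp [Pi.single_apply, eq_comm]
  have h3 := congrArg (fun w => e.coord i ((1 : ℂ) ⊗ₜ[A] w)) h1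
  simp only [tmul_sum, tmul_smul, map_sum] at h3
  rw [← he k] at h3
  have h4 : e.coord i (e k) = if i = k then 1 else 0 := by
    rw [Module.Basis.coord_apply, e.repr_self, Finsupp.single_apply]
    simp [eq_comm]
  rw [← h4, h3, map_sum]
  refine Finset.sum_congr rfl fun j _ => ?_
  rw [← algebraMap_smul ℂ (s ((D ℂ A) (u (b k))) j) ((1 : ℂ) ⊗ₜ[A] f (Pi.single j 1)), map_smul,
    hmap, map_smul, smul_eq_mul, smul_eq_mul, mul_comm]
  rfl

end Pool.Agent.Work.MP_eb613f_ag
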