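import Mathlib

namespace Pool.Agent.Work.MP_eb613f_ag

open KaehlerDifferential

/-- Derivations extend along formally etale ring homomorphisms. -/
theorem exists_derivation_ext {A B : Type*} [CommRing A] [CommRing B] (φ : A →+* B)
    (hφ : φ.FormallyEtale) (δ : Derivation ℤ A A) :
    ∃ δ' : Derivation ℤ B B, ∀ a, δ' (φ a) = φ (δ a) := by
  let _ : Algebra A B := φ.toAlgebra
  have : Algebra.FormallyEtale A B := hφ
  have hbc := KaehlerDifferential.isBaseChange_of_formallyEtale ℤ A B
  let g : Ω[A⁄ℤ] →ₗ[A] B := (Algebra.linearMap A B).comp δ.liftKaehlerDifferential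
  refine ⟨(hbc.lift g).compDer (D ℤ B), fun a => ?_⟩
  have h1 : φ a = algebraMap A B a := rfl
  have h2 : D ℤ B (algebraMap A B a) = map ℤ ℤ A B (D ℤ A a) := (map_D ℤ ℤ A B a).symm
  show hbc.lift g (D ℤ B (φ a)) = _
  rw [h1, h2, hbc.lift_eq]
  simp only [g, LinearMap.comp_apply, Derivation.liftKaehlerDifferential_comp_D]
  rfl

/-- Two derivations which agree on the source of a formally unramified homomorphism agree. -/
theorem derivation_eq {A B M : Type*} [CommRing A] [CommRing B] (φ : A →+* B)
    (hφ : φ.FormallyUnramified) [AddCommGroup M] [Module B M]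
    (δ δ' : Derivation ℤ B M) (h : ∀ a, δ (φ a) = δ' (φ a)) : δ = δ' := by
  let _ : Algebra A B := φ.toAlgebra
  have : Algebra.FormallyUnramified A B := hφ
  let : Module A M := Module.compHom M φ
  have : IsScalarTower A B M := ⟨fun a b m => by
    show (φ a * b) • m = φ a • (b • m)
    rw [mul_smul]⟩
  let ε : Derivation ℤ B M := δ - δ'
  have hε : ∀ a, ε (algebraMap A B a) = 0 := fun a => by
    show δ (φ a) - δ' (φ a) = 0
    rw [h a, sub_self]
  let ε' : Derivation A B M :=
    { toFun := ε
      map_add' := fun x y => map_add ε x y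
      map_smul' := fun a x => by
        show ε (a • x) = a • ε x
        rw [Algebra.smul_def, Derivation.leibniz, hε, smul_zero, add_zero]
        rfl
      map_one_eq_zero' := by
        show ε 1 = 0
        exact Derivation.map_one_eq_zero ε
      leibniz' := fun x y => by
        show ε (x * y) = x • ε y + y • ε x
        exact Derivation.leibniz ε x y }
  have h0 : ε' = 0 := by
    have : Subsingleton (Ω[B⁄A]) := inferInstance
    have h1 := ε'.liftKaehlerDifferential_comp
    have h2 : ε'.liftKaehlerDifferential = 0 := by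
      refine LinearMap.ext fun x => ?_
      rw [Subsingleton.elim x 0, map_zero, map_zero]
    rw [← h1, h2]
    ext; simp
  ext x
  have h3 : ε' x = 0 := by rw [h0]; rfl
  have h4 : δ x - δ' x = 0 := h3
  exact sub_eq_zero.1 h4

/-- a derivation of an overring preserving a subring -/
theorem exists_derivation_restrict {R K : Type*} [CommRing R] [CommRing K] (i : R →+* K)
    (hi : Function.Injective i) (θ : Derivation ℤ K K) (h : ∀ x, ∃ y, θ (i x) = i y) :
    ∃ θ' : Derivation ℤ R R, ∀ x, i (θ' x) = θ (i x) := by
  choose g hg using h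
  refine ⟨Derivation.mk'
    { toFun := g
      map_add' := fun x y => hi (by rw [map_add, ← hg, ← hg, ← hg, map_add, map_add])
      map_smul' := fun n x => hi (by
        rw [← hg]
        simp only [zsmul_eq_mul, map_mul, map_intCast, RingHom.id_apply, ← hg]
        rw [← zsmul_eq_mul, map_zsmul, zsmul_eq_mul]) }
    (fun x y => hi (by
      show i (g (x * y)) = i (x • g y + y • g x)
      rw [← hg, map_mul, Derivation.leibniz, smul_eq_mul, smul_eq_mul, smul_eq_mul, smul_eq_mul,
        map_add, map_mul, map_mul, hg, hg])), fun x => (hg x).symm⟩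

/-- derivations lower the powers of an ideal at most by one -/
theorem derivation_mem_pow {R : Type*} [CommRing R] (θ : Derivation ℤ R R) (I : Ideal R) (k : ℕ)
    {x : R} (hx : x ∈ I ^ (k + 1)) : θ x ∈ I ^ k := by
  induction k generalizing x with
  | zero => simp
  | succ k ih =>
    rw [pow_succ] at hx
    refine Submodule.mul_induction_on hx ?_ ?_
    · intro m hm n hn
      rw [Derivation.leibniz, smul_eq_mul, smul_eq_mul]
      refine Ideal.add_mem _ (Ideal.mul_mem_right _ _ hm) ?_
      rw [mul_comm, pow_succ]
      exact Ideal.mul_mem_mul (ih hm) hn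
    · intro x y hx hy
      rw [map_add]
      exact Ideal.add_mem _ hx hy

end Pool.Agent.Work.MP_eb613f_ag
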