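import Mathlib
import Pool.Agent.Work.MP_eb613f_ag.Basic

open AlgebraicGeometry CategoryTheory Limits MvPolynomial TopologicalSpace

namespace Pool.Agent.Work.MP_eb613f_ag

noncomputable section

variable {r : ℕ} {Y : Scheme.{0}}

theorem ext_pow_mul {U V : Y.Opens} (hU : IsAffineOpen U) (s : Γ(Y, U)) (hV : V = Y.basicOpen s)
    (h : V ≤ U) (t : Γ(Y, V)) : ∃ (n : ℕ) (x : Γ(Y, U)), res h x = res h s ^ n * t := by
  letI : Algebra Γ(Y, U) Γ(Y, V) := (Y.presheaf.map (homOfLE h).op).hom.toAlgebra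
  haveI : IsLocalization.Away s Γ(Y, V) := hU.isLocalization_of_eq_basicOpen s (homOfLE h) hV
  obtain ⟨⟨x, ⟨_, n, rfl⟩⟩, hx⟩ := IsLocalization.surj (Submonoid.powers s) t
  refine ⟨n, x, ?_⟩
  have hx' : t * res h (s ^ n) = res h x := hx
  rw [← hx', map_pow, mul_comm]

theorem ext_eq_of {U V : Y.Opens} (hU : IsAffineOpen U) (s : Γ(Y, U)) (hV : V = Y.basicOpen s)
    (h : V ≤ U) (x y : Γ(Y, U)) (hxy : res h x = res h y) : ∃ n : ℕ, s ^ n * x = s ^ n * y := by
  letI : Algebra Γ(Y, U) Γ(Y, V) := (Y.presheaf.map (homOfLE h).op).hom.toAlgebra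
  haveI : IsLocalization.Away s Γ(Y, V) := hU.isLocalization_of_eq_basicOpen s (homOfLE h) hV
  have h1 : algebraMap Γ(Y, U) Γ(Y, V) x = algebraMap Γ(Y, U) Γ(Y, V) y := hxy
  obtain ⟨⟨_, n, rfl⟩, hc⟩ := (IsLocalization.eq_iff_exists (Submonoid.powers s) Γ(Y, V)).1 h1
  exact ⟨n, hc⟩

theorem eq_of_res_inf_self {U : Y.Opens} (x y : Γ(Y, U))
    (h : res (inf_le_left : U ⊓ U ≤ U) x = res (inf_le_left : U ⊓ U ≤ U) y) : x = y := by
  have h1 := congrArg (res (show U ≤ U ⊓ U from le_inf le_rfl le_rfl)) h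
  rwa [res_res, res_res, res_self, res_self] at h1

/-- the cocycle relation on a smaller open set -/
theorem crd_cocycle' (f : Y ⟶ PP r) (a b c : Fin (r + 1)) {W : Y.Opens}
    (h1 : W ≤ chart f a) (h2 : W ≤ chart f b) :
    res h1 (crd f a b) * res h2 (crd f b c) = res h1 (crd f a c) := by
  have h := congrArg (res (le_inf h1 h2)) (crd_cocycle f a b c)
  rwa [map_mul, res_res, res_res, res_res] at h

theorem exists_sec_one (f : Y ⟶ PP r) [IsAffineHom f] (a : Fin (r + 1)) (g : Γ(Y, chart f a)) :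
    ∃ (d : ℕ) (e : Fam f), IsSec f d e ∧ e a = g := by
  classical
  -- step 1
  have h1 : ∀ b : Fin (r + 1), ∃ (n : ℕ) (x : Γ(Y, chart f b)),
      res (inf_le_left : chart f b ⊓ chart f a ≤ chart f b) x =
      res (inf_le_left : chart f b ⊓ chart f a ≤ chart f b) (crd f b a) ^ n *
        res (inf_le_right : chart f b ⊓ chart f a ≤ chart f a) g := fun b =>
    ext_pow_mul (isAffineOpen_chart' f b) (crd f b a) (basicOpen_crd f b a).symm inf_le_left _
  choose n x hx using h1
  let N := ∑ b, n b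
  have hN : ∀ b, n b ≤ N := fun b => Finset.single_le_sum (f := n) (fun _ _ => Nat.zero_le _)
    (Finset.mem_univ b)
  let e0 : Fam f := fun b => crd f b a ^ (N - n b) * x b
  have he0 : ∀ b, res (inf_le_left : chart f b ⊓ chart f a ≤ chart f b) (e0 b) =
      res (inf_le_left : chart f b ⊓ chart f a ≤ chart f b) (crd f b a) ^ N *
        res (inf_le_right : chart f b ⊓ chart f a ≤ chart f a) g := by
    intro b
    simp only [e0, map_mul, map_pow, hx b]
    rw [← mul_assoc, ← pow_add, Nat.sub_add_cancel (hN b)]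
  -- step 2
  have h2 : ∀ b c : Fin (r + 1), ∃ k : ℕ,
      res (inf_le_left : chart f b ⊓ chart f c ≤ chart f b) (crd f b a) ^ k *
        res (inf_le_left : chart f b ⊓ chart f c ≤ chart f b) (e0 b) =
      res (inf_le_left : chart f b ⊓ chart f c ≤ chart f b) (crd f b a) ^ k *
        (res (inf_le_left : chart f b ⊓ chart f c ≤ chart f b) (crd f b c) ^ N *
          res (inf_le_right : chart f b ⊓ chart f c ≤ chart f c) (e0 c)) := by
    intro b c
    have hbo : (chart f b ⊓ chart f c) ⊓ chart f a =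
        Y.basicOpen (res (inf_le_left : chart f b ⊓ chart f c ≤ chart f b) (crd f b a)) := by
      rw [basicOpen_res, basicOpen_crd]
      ext y
      simp only [Opens.coe_inf, Set.mem_inter_iff]
      tauto
    refine ext_eq_of (isAffineOpen_inf f b c) _ hbo inf_le_left _ _ ?_
    have hb := congrArg (res (show (chart f b ⊓ chart f c) ⊓ chart f a ≤ chart f b ⊓ chart f a from
      le_inf (inf_le_left.trans inf_le_left) inf_le_right)) (he0 b)
    have hc := congrArg (res (show (chart f b ⊓ chart f c) ⊓ chart f a ≤ chart f c ⊓ chart f a from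
      le_inf (inf_le_left.trans inf_le_right) inf_le_right)) (he0 c)
    simp only [map_mul, map_pow, res_res] at hb hc ⊢
    rw [hb, hc, ← mul_assoc, ← mul_pow, crd_cocycle' f b c a]
  choose k hk using h2
  let M := ∑ p : Fin (r + 1) × Fin (r + 1), k p.1 p.2
  have hM : ∀ b c, k b c ≤ M := fun b c =>
    Finset.single_le_sum (f := fun p : Fin (r + 1) × Fin (r + 1) => k p.1 p.2)
      (fun _ _ => Nat.zero_le _) (Finset.mem_univ (b, c))
  refine ⟨N + M, fun b => crd f b a ^ M * e0 b, ?_, ?_⟩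
  · intro b c
    simp only [map_mul, map_pow]
    have h3 := hk b c
    have h4 : res (inf_le_left : chart f b ⊓ chart f c ≤ chart f b) (crd f b a) ^ M *
        res (inf_le_left : chart f b ⊓ chart f c ≤ chart f b) (e0 b) =
      res (inf_le_left : chart f b ⊓ chart f c ≤ chart f b) (crd f b a) ^ M *
        (res (inf_le_left : chart f b ⊓ chart f c ≤ chart f b) (crd f b c) ^ N *
          res (inf_le_right : chart f b ⊓ chart f c ≤ chart f c) (e0 c)) := by
      rw [← Nat.sub_add_cancel (hM b c), pow_add, mul_assoc, h3]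
      ring
    rw [h4, ← crd_cocycle' f b c a (inf_le_left : chart f b ⊓ chart f c ≤ chart f b) inf_le_right,
      mul_pow, pow_add]
    ring
  · have h5 : e0 a = g := by
      apply eq_of_res_inf_self
      rw [he0 a, crd_self, map_one, one_pow, one_mul]
    simp only [crd_self, one_pow, one_mul, h5]

theorem exists_sec (f : Y ⟶ PP r) [IsAffineHom f] (a : Fin (r + 1)) {Q : ℕ}
    (g : Fin Q → Γ(Y, chart f a)) :
    ∃ d : ℕ, 0 < d ∧ ∃ e : Fin Q → Fam f, (∀ s, IsSec f d (e s)) ∧ ∀ s, e s a = g s := by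
  classical
  choose d e he hea using fun s => exists_sec_one f a (g s)
  have hd : ∀ s, d s ≤ ∑ s, d s + 1 := fun s =>
    (Finset.single_le_sum (f := d) (fun _ _ => Nat.zero_le _) (Finset.mem_univ s)).trans
      (Nat.le_succ _)
  refine ⟨∑ s, d s + 1, Nat.succ_pos _, fun s => lin f a ^ (∑ s, d s + 1 - d s) * e s, ?_, ?_⟩
  · intro s
    have h := ((isSec_lin f a).pow (∑ s, d s + 1 - d s)).mul (he s)
    rwa [mul_one, Nat.sub_add_cancel (hd s)] at h
  · intro s
    simp only [Pi.mul_apply, Pi.pow_apply, lin, crd_self, one_pow, one_mul, hea]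

end

end Pool.Agent.Work.MP_eb613f_ag
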