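import Mathlib
import Pool.Agent.Work.MP_eb613f_ag.Basic
import Pool.Agent.Work.MP_eb613f_ag.DerAlg

open AlgebraicGeometry CategoryTheory Limits MvPolynomial TopologicalSpace

namespace Pool.Agent.Work.MP_eb613f_ag

noncomputable section

variable {r : ℕ} {Y Y' : Scheme.{0}}

theorem formallyEtale_pull (π : Y' ⟶ Y) [Etale π] {U : Y.Opens} {V : Y'.Opens}
    (hU : IsAffineOpen U) (hV : IsAffineOpen V) (e : V ≤ π ⁻¹ᵁ U) : (pull π e).FormallyEtale := by
  have h : (pull π e).Etale := Etale.etale_appLE π hU hV e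
  have h2 : (@Algebra.Etale _ _ _ _ (pull π e).toAlgebra) := h
  exact h2.formallyEtale

theorem formallyEtale_res {U V : Y.Opens} (hU : IsAffineOpen U) (hV : IsAffineOpen V)
    (h : V ≤ U) : (res h).FormallyEtale := by
  have h1 := formallyEtale_pull (𝟙 Y) hU hV h
  have h2 : pull (𝟙 Y) (show V ≤ (𝟙 Y) ⁻¹ᵁ U from h) = res h := by
    ext s
    rw [pull_eq]
    simp only [Scheme.Hom.id_app]
    rfl
  rwa [h2] at h1

theorem FormallyEtale.unr {A B : Type*} [CommRing A] [CommRing B] {φ : A →+* B}
    (h : φ.FormallyEtale) : φ.FormallyUnramified := by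
  let _ := φ.toAlgebra
  have h2 : Algebra.FormallyEtale A B := h
  exact (inferInstance : Algebra.FormallyUnramified A B)

/-- A vector field with values in `O(c)`: derivations `θ_b` of the rings of functions on the
charts, with `θ_b = (x_{b'}/x_b)^c θ_{b'}` on the overlaps. -/
structure TDer (f : Y ⟶ PP r) (c : ℕ) where
  θ : ∀ b, Derivation ℤ Γ(Y, chart f b) Γ(Y, chart f b)
  θ2 : ∀ b b', Derivation ℤ Γ(Y, chart f b ⊓ chart f b') Γ(Y, chart f b ⊓ chart f b')
  h1 : ∀ b b' s, θ2 b b' (res (inf_le_left : chart f b ⊓ chart f b' ≤ chart f b) s) =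
    res (inf_le_left : chart f b ⊓ chart f b' ≤ chart f b) (θ b s)
  h2 : ∀ b b' s, θ2 b b' (res (inf_le_right : chart f b ⊓ chart f b' ≤ chart f b') s) =
    res (inf_le_left : chart f b ⊓ chart f b' ≤ chart f b) (crd f b b') ^ c *
      res (inf_le_right : chart f b ⊓ chart f b' ≤ chart f b') (θ b' s)
  hc : ∀ b z, θ b (cst f (chart f b) z) = 0

namespace TDer

variable {f : Y ⟶ PP r} {c : ℕ}

/-- the differential operator of order one on the sections of `O(j)` -/
def op (D : TDer f c) (a : Fin (r + 1)) (j : ℕ) (s : Fam f) : Fam f := fun b =>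
  crd f b a * D.θ b (s b) - j * s b * D.θ b (crd f b a)

theorem isSec_op (D : TDer f c) (a : Fin (r + 1)) {j : ℕ} {s : Fam f} (hs : IsSec f j s) :
    IsSec f (j + (c + 1)) (D.op a j s) := by
  intro b b'
  simp only [op]
  set v := res (inf_le_left : chart f b ⊓ chart f b' ≤ chart f b) (crd f b b') with hv
  set s' := res (inf_le_right : chart f b ⊓ chart f b' ≤ chart f b') (s b') with hs'
  set u' := res (inf_le_right : chart f b ⊓ chart f b' ≤ chart f b') (crd f b' a) with hu'
  have e1 : res (inf_le_left : chart f b ⊓ chart f b' ≤ chart f b) (s b) = v ^ j * s' := hs b b'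
  have e2 : res (inf_le_left : chart f b ⊓ chart f b' ≤ chart f b) (crd f b a) = v * u' :=
    (crd_cocycle f b b' a).symm
  have e3 := D.h1 b b' (s b)
  have e4 := D.h1 b b' (crd f b a)
  have e5 := D.h2 b b' (s b')
  have e6 := D.h2 b b' (crd f b' a)
  rw [e1] at e3
  rw [e2] at e4
  rw [← hs'] at e5
  rw [← hu'] at e6
  rw [map_sub, map_mul, map_mul, map_mul, map_natCast, ← e3, ← e4, e1, e2, map_sub,
    RingHom.map_mul, RingHom.map_mul, RingHom.map_mul, map_natCast, ← hu', ← hs']
  simp only [Derivation.leibniz, Derivation.leibniz_pow, smul_eq_mul, nsmul_eq_mul, e5, e6]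
  rcases j with _ | j
  · simp; ring
  · simp only [Nat.add_sub_cancel]
    push_cast
    ring

theorem op_self (D : TDer f c) (a : Fin (r + 1)) (j : ℕ) (s : Fam f) :
    D.op a j s a = D.θ a (s a) := by
  simp [op, crd_self]

theorem θ_cst_mul (D : TDer f c) (b : Fin (r + 1)) (z : ℂ) (s : Γ(Y, chart f b)) :
    D.θ b (cst f (chart f b) z * s) = cst f (chart f b) z * D.θ b s := by
  rw [Derivation.leibniz, D.hc, smul_zero, add_zero, smul_eq_mul]

theorem op_sum (D : TDer f c) (a : Fin (r + 1)) (j : ℕ) {I : Type*} (S : Finset I) (lam : I → ℂ)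
    (s : I → Fam f) :
    D.op a j (∑ i ∈ S, cstF f (lam i) * s i) = ∑ i ∈ S, cstF f (lam i) * D.op a j (s i) := by
  ext b
  simp only [op, Finset.sum_apply, Pi.mul_apply, cstF_apply, map_sum, θ_cst_mul]
  rw [Finset.mul_sum, Finset.mul_sum, Finset.sum_mul, ← Finset.sum_sub_distrib]
  refine Finset.sum_congr rfl fun i _ => ?_
  ring

/-- the operator lowers the order of vanishing at most by one -/
theorem op_mem_pow (D : TDer f c) (a : Fin (r + 1)) (j : ℕ) {s : Fam f} {b : Fin (r + 1)}
    (I : Ideal Γ(Y, chart f b)) {k : ℕ} (h : s b ∈ I ^ (k + 1)) : D.op a j s b ∈ I ^ k := by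
  simp only [op]
  refine Ideal.sub_mem _ (Ideal.mul_mem_left _ _ (derivation_mem_pow _ _ _ h)) ?_
  exact Ideal.mul_mem_right _ _ (Ideal.mul_mem_left _ _ (Ideal.pow_le_pow_right (by omega) h))

/-- iterated operators -/
def opw {n : ℕ} (D : Fin n → TDer f c) (a : Fin (r + 1)) (j : ℕ) : List (Fin n) → Fam f → Fam f
  | [], s => s
  | i :: w, s => (D i).op a (j + w.length * (c + 1)) (opw D a j w s)

theorem isSec_opw {n : ℕ} (D : Fin n → TDer f c) (a : Fin (r + 1)) {j : ℕ} (w : List (Fin n))
    {s : Fam f} (hs : IsSec f j s) : IsSec f (j + w.length * (c + 1)) (opw D a j w s) := by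
  induction w with
  | nil => simpa [opw] using hs
  | cons i w ih =>
    have := (D i).isSec_op a ih
    simp only [opw, List.length_cons]
    convert this using 1
    ring

theorem opw_self {n : ℕ} (D : Fin n → TDer f c) (a : Fin (r + 1)) (j : ℕ) (w : List (Fin n))
    (s : Fam f) : opw D a j w s a = w.foldr (fun i x => (D i).θ a x) (s a) := by
  induction w with
  | nil => rfl
  | cons i w ih => simp [opw, op_self, ih]

theorem opw_sum {n : ℕ} (D : Fin n → TDer f c) (a : Fin (r + 1)) (j : ℕ) (w : List (Fin n))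
    {I : Type*} (S : Finset I) (lam : I → ℂ) (s : I → Fam f) :
    opw D a j w (∑ i ∈ S, cstF f (lam i) * s i) = ∑ i ∈ S, cstF f (lam i) * opw D a j w (s i) := by
  induction w with
  | nil => rfl
  | cons i w ih => simp only [opw, ih, op_sum]

theorem opw_mem_pow {n : ℕ} (D : Fin n → TDer f c) (a : Fin (r + 1)) (j : ℕ) (w : List (Fin n))
    {s : Fam f} {b : Fin (r + 1)} (I : Ideal Γ(Y, chart f b)) {k : ℕ}
    (h : s b ∈ I ^ (k + w.length)) : opw D a j w s b ∈ I ^ k := by
  induction w generalizing k with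
  | nil => simpa [opw] using h
  | cons i w ih =>
    simp only [opw]
    apply op_mem_pow
    apply ih
    convert h using 2
    simp only [List.length_cons]
    ring

/-! linear combinations -/

/-- zero -/
def zero : TDer f c where
  θ := fun _ => 0
  θ2 := fun _ _ => 0
  h1 := fun _ _ _ => by simp
  h2 := fun _ _ _ => by simp
  hc := fun _ _ => by simp

/-- the sum -/
def add (D D' : TDer f c) : TDer f c where
  θ := fun b => D.θ b + D'.θ b
  θ2 := fun b b' => D.θ2 b b' + D'.θ2 b b'
  h1 := fun b b' s => by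
    rw [Derivation.add_apply, Derivation.add_apply, D.h1, D'.h1, map_add]
  h2 := fun b b' s => by
    rw [Derivation.add_apply, Derivation.add_apply, D.h2, D'.h2, map_add, mul_add]
  hc := fun b z => by
    rw [Derivation.add_apply, D.hc, D'.hc, add_zero]

/-- multiplication by a constant -/
def smul (z : ℂ) (D : TDer f c) : TDer f c where
  θ := fun b => cst f _ z • D.θ b
  θ2 := fun b b' => cst f _ z • D.θ2 b b'
  h1 := fun b b' s => by
    rw [Derivation.smul_apply, Derivation.smul_apply, D.h1, smul_eq_mul, smul_eq_mul, map_mul,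
      res_cst]
  h2 := fun b b' s => by
    rw [Derivation.smul_apply, Derivation.smul_apply, D.h2, smul_eq_mul, smul_eq_mul, map_mul,
      res_cst]
    ring
  hc := fun b z => by
    rw [Derivation.smul_apply, D.hc, smul_zero]

/-! pullback -/

theorem exists_pullback {f' : Y' ⟶ PP r} (π : Y' ⟶ Y) (h : π ≫ f = f') [Etale π] [IsAffineHom f]
    [IsAffineHom f'] (D : TDer f c) :
    ∃ D' : TDer f' c, ∀ b s, D'.θ b (pbk π h b s) = pbk π h b (D.θ b s) := by
  have hE : ∀ b, (pbk π h b).FormallyEtale := fun b =>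
    formallyEtale_pull π (isAffineOpen_chart' f b) (isAffineOpen_chart' f' b) _
  have hle : ∀ b b', chart f' b ⊓ chart f' b' ≤ π ⁻¹ᵁ (chart f b ⊓ chart f b') := fun b b' => by
    rw [← h]; exact le_rfl
  have hE2 : ∀ b b', (pull π (hle b b')).FormallyEtale := fun b b' =>
    formallyEtale_pull π (isAffineOpen_inf f b b') (isAffineOpen_inf f' b b') _
  choose θ hθ using fun b => exists_derivation_ext (pbk π h b) (hE b) (D.θ b)
  choose θ2 hθ2 using fun b b' => exists_derivation_ext (pull π (hle b b')) (hE2 b b') (D.θ2 b b')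
  have key1 : ∀ b b' (s : Γ(Y, chart f b)),
      res (inf_le_left : chart f' b ⊓ chart f' b' ≤ chart f' b) (pbk π h b s) =
      pull π (hle b b') (res (inf_le_left : chart f b ⊓ chart f b' ≤ chart f b) s) := by
    intro b b' s
    rw [pull_res]; simp only [pbk]; rw [res_pull]
  have key2 : ∀ b b' (s : Γ(Y, chart f b')),
      res (inf_le_right : chart f' b ⊓ chart f' b' ≤ chart f' b') (pbk π h b' s) =
      pull π (hle b b') (res (inf_le_right : chart f b ⊓ chart f b' ≤ chart f b') s) := by
    intro b b' s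
    rw [pull_res]; simp only [pbk]; rw [res_pull]
  refine ⟨⟨θ, θ2, ?_, ?_, ?_⟩, hθ⟩
  · intro b b' s
    let R := Γ(Y', chart f' b ⊓ chart f' b')
    let ρ : Γ(Y', chart f' b) →+* R := res inf_le_left
    let _ : Module Γ(Y', chart f' b) R := Module.compHom R ρ
    have hsm : ∀ (x : Γ(Y', chart f' b)) (m : R), x • m = ρ x * m := fun _ _ => rfl
    let d1 : Derivation ℤ Γ(Y', chart f' b) R :=
      Derivation.mk' ((θ2 b b').toLinearMap.comp ρ.toAddMonoidHom.toIntLinearMap) (fun x y => by
        show θ2 b b' (ρ (x * y)) = ρ x * θ2 b b' (ρ y) + ρ y * θ2 b b' (ρ x)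
        rw [map_mul, Derivation.leibniz]; rfl)
    let d2 : Derivation ℤ Γ(Y', chart f' b) R :=
      Derivation.mk' (ρ.toAddMonoidHom.toIntLinearMap.comp (θ b).toLinearMap) (fun x y => by
        show ρ (θ b (x * y)) = ρ x * ρ (θ b y) + ρ y * ρ (θ b x)
        rw [Derivation.leibniz, map_add, smul_eq_mul, smul_eq_mul, map_mul, map_mul])
    have h12 : d1 = d2 := derivation_eq (pbk π h b) (FormallyEtale.unr (hE b)) d1 d2 (fun s => by
      show θ2 b b' (ρ (pbk π h b s)) = ρ (θ b (pbk π h b s))
      rw [hθ]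
      simp only [ρ]
      rw [key1, hθ2, D.h1, key1])
    exact congrArg (fun d => d s) h12
  · intro b b' s
    let R := Γ(Y', chart f' b ⊓ chart f' b')
    let ρ : Γ(Y', chart f' b') →+* R := res inf_le_right
    let v : R := res (inf_le_left : chart f' b ⊓ chart f' b' ≤ chart f' b) (crd f' b b') ^ c
    let _ : Module Γ(Y', chart f' b') R := Module.compHom R ρ
    let d1 : Derivation ℤ Γ(Y', chart f' b') R :=
      Derivation.mk' ((θ2 b b').toLinearMap.comp ρ.toAddMonoidHom.toIntLinearMap) (fun x y => by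
        show θ2 b b' (ρ (x * y)) = ρ x * θ2 b b' (ρ y) + ρ y * θ2 b b' (ρ x)
        rw [map_mul, Derivation.leibniz]; rfl)
    let d2 : Derivation ℤ Γ(Y', chart f' b') R :=
      Derivation.mk' ((LinearMap.mulLeft ℤ v).comp
        (ρ.toAddMonoidHom.toIntLinearMap.comp (θ b').toLinearMap)) (fun x y => by
        show v * ρ (θ b' (x * y)) = ρ x * (v * ρ (θ b' y)) + ρ y * (v * ρ (θ b' x))
        rw [Derivation.leibniz, map_add, smul_eq_mul, smul_eq_mul, map_mul, map_mul]
        ring)
    have h12 : d1 = d2 := derivation_eq (pbk π h b') (FormallyEtale.unr (hE b')) d1 d2 (fun s => by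
      show θ2 b b' (ρ (pbk π h b' s)) = v * ρ (θ b' (pbk π h b' s))
      rw [hθ]
      simp only [ρ, v]
      rw [key2, hθ2, D.h2, key2, map_mul, map_pow, ← key1, pbk_crd])
    exact congrArg (fun d => d s) h12
  · intro b z
    rw [← pbk_cst π h, hθ, D.hc, map_zero]

end TDer

end

end Pool.Agent.Work.MP_eb613f_ag
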