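import Mathlib
import Pool.Agent.Work.MP_eb613f_ag.Basic
import Pool.Agent.Work.MP_eb613f_ag.DerAlg
import Pool.Agent.Work.MP_eb613f_ag.TDer
import Pool.Agent.Work.MP_eb613f_ag.Extend

open AlgebraicGeometry CategoryTheory Limits MvPolynomial TopologicalSpace

namespace Pool.Agent.Work.MP_eb613f_ag

noncomputable section

variable {r : ℕ} {Y : Scheme.{0}}

/-- functions on the charts of a closed subscheme of `P^r` are polynomials in the coordinates -/
theorem exists_polynomial' (f : Y ⟶ PP r) [IsClosedImmersion f] (a : Fin (r + 1))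
    (s : Γ(Y, chart f a)) :
    ∃ P : MvPolynomial (Fin (r + 1)) ℂ,
      s = MvPolynomial.eval₂ (cst f (chart f a)) (crd f a) P := by
  obtain ⟨s', rfl⟩ := f.app_surjective (PP.chart r a) (isAffineOpen_chart r a) s
  obtain ⟨P, hP⟩ := exists_polynomial r a s'
  refine ⟨P, ?_⟩
  rw [hP]
  have h1 : ((f.app (PP.chart r a)).hom.comp (cst (𝟙 (PP r)) (PP.chart r a))) =
      cst f (chart f a) := by
    ext z
    have := pull_cst f (f := 𝟙 (PP r)) (f' := f) (Category.comp_id f)
      (U := PP.chart r a) (V := chart f a) le_rfl z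
    rw [pull_eq, res_self] at this
    exact this
  have h2 : (f.app (PP.chart r a)).hom (MvPolynomial.eval₂ (cst (𝟙 (PP r)) (PP.chart r a))
      (PP.coord r a) P) = MvPolynomial.eval₂
        ((f.app (PP.chart r a)).hom.comp (cst (𝟙 (PP r)) (PP.chart r a)))
        ((f.app (PP.chart r a)).hom ∘ PP.coord r a) P := by
    exact MvPolynomial.eval₂_comp_left _ _ _ _
  rw [h1] at h2
  exact h2

section

variable [IsIntegral Y]

/-- germs at the generic point -/
def gm (U : Y.Opens) (hU : genericPoint Y ∈ U) : Γ(Y, U) →+* Y.functionField :=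
  (Y.presheaf.germ U (genericPoint Y) hU).hom

theorem gm_res {U V : Y.Opens} (h : V ≤ U) (hV : genericPoint Y ∈ V) (s : Γ(Y, U)) :
    gm V hV (res h s) = gm U (h hV) s :=
  germ_res h _ hV s

theorem gm_injective (U : Y.Opens) (hU : genericPoint Y ∈ U) : Function.Injective (gm U hU) :=
  germ_injective_of_isIntegral Y _ hU

theorem gm_formallyEtale (U : Y.Opens) (hU : genericPoint Y ∈ U) (haff : IsAffineOpen U) :
    (gm U hU).FormallyEtale := by
  have : Nonempty U := ⟨⟨_, hU⟩⟩
  have h1 := functionField_isFractionRing_of_isAffineOpen Y U haff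
  have h2 : Algebra.FormallyEtale Γ(Y, U) Y.functionField :=
    Algebra.FormallyEtale.of_isLocalization (nonZeroDivisors Γ(Y, U))
  exact h2

theorem subsingleton_sections {U : Y.Opens} (hU : genericPoint Y ∉ U) :
    Subsingleton Γ(Y, U) := by
  have h : U = ⊥ := by
    by_contra h
    apply hU
    have h2 : (U : Set Y).Nonempty := by
      rw [Set.nonempty_iff_ne_empty]
      intro h3
      apply h
      ext x
      simp [h3]
    exact ((genericPoint_spec Y).mem_open_set_iff U.isOpen).2 (by simpa using h2)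
  rw [h]
  exact CommRingCat.subsingleton_of_isTerminal Y.sheaf.isTerminalOfEmpty

/-- the main step: a derivation on one chart, multiplied with a power of `x_a/x_b`, preserves
the functions on the chart `b` -/
theorem exists_pow_preserve (f : Y ⟶ PP r) [IsClosedImmersion f] (a b : Fin (r + 1))
    (ha : genericPoint Y ∈ chart f a) (hb : genericPoint Y ∈ chart f b)
    (η : Derivation ℤ Γ(Y, chart f a) Γ(Y, chart f a))
    (hη : ∀ z, η (cst f (chart f a) z) = 0)
    (ηK : Derivation ℤ Y.functionField Y.functionField)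
    (hηK : ∀ s, ηK (gm _ ha s) = gm _ ha (η s)) :
    ∃ c₀ : ℕ, ∀ c, c₀ ≤ c → ∀ s : Γ(Y, chart f b), ∃ t : Γ(Y, chart f b),
      gm _ hb (crd f b a) ^ c * ηK (gm _ hb s) = gm _ hb t := by
  classical
  set u := gm _ hb (crd f b a) with hu
  set w := gm _ ha (crd f a b) with hw
  have hab : genericPoint Y ∈ chart f a ⊓ chart f b := ⟨ha, hb⟩
  have hba : genericPoint Y ∈ chart f b ⊓ chart f a := ⟨hb, ha⟩
  have hwu : w * u = 1 := by
    have h := congrArg (gm _ hab) (crd_cocycle f a b a)
    rw [map_mul, gm_res, gm_res, gm_res, crd_self, map_one] at h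
    exact h
  have hcoord : ∀ b', gm _ hb (crd f b b') = gm _ ha (crd f a b') * u := by
    intro b'
    have h := congrArg (gm _ hba) (crd_cocycle f b a b')
    rw [map_mul, gm_res, gm_res, gm_res] at h
    rw [← h, mul_comm]
  -- the functions with poles along `x_a = 0`
  let L : Subring Y.functionField :=
    { carrier := {x | ∃ N : ℕ, ∀ m, N ≤ m → ∃ t, u ^ m * x = gm _ hb t}
      mul_mem' := by
        rintro x y ⟨N, hN⟩ ⟨N', hN'⟩
        refine ⟨N + N', fun m hm => ?_⟩
        obtain ⟨t, ht⟩ := hN (m - N') (by omega)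
        obtain ⟨t', ht'⟩ := hN' N' le_rfl
        refine ⟨t * t', ?_⟩
        rw [map_mul, ← ht, ← ht']
        have : m = (m - N') + N' := by omega
        rw [this, pow_add]
        simp only [Nat.add_sub_cancel]
        ring
      one_mem' := ⟨0, fun m _ => ⟨crd f b a ^ m, by rw [map_pow, mul_one]⟩⟩
      add_mem' := by
        rintro x y ⟨N, hN⟩ ⟨N', hN'⟩
        refine ⟨N + N', fun m hm => ?_⟩
        obtain ⟨t, ht⟩ := hN m (by omega)
        obtain ⟨t', ht'⟩ := hN' m (by omega)
        exact ⟨t + t', by rw [map_add, ← ht, ← ht', mul_add]⟩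
      zero_mem' := ⟨0, fun m _ => ⟨0, by simp⟩⟩
      neg_mem' := by
        rintro x ⟨N, hN⟩
        refine ⟨N, fun m hm => ?_⟩
        obtain ⟨t, ht⟩ := hN m hm
        exact ⟨-t, by rw [map_neg, ← ht, mul_neg]⟩ }
  have hLu : u ∈ L := ⟨0, fun m _ => ⟨crd f b a ^ (m + 1), by rw [map_pow, ← hu]; ring⟩⟩
  have hLa : ∀ g, gm _ ha g ∈ L := by
    intro g
    obtain ⟨d, -, e, he, hea⟩ := exists_sec f a (Q := 1) (fun _ => g)
    refine ⟨d, fun m hm => ⟨crd f b a ^ (m - d) * e 0 b, ?_⟩⟩
    have h := congrArg (gm _ hba) (he 0 b a)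
    rw [map_mul, map_pow, gm_res, gm_res, gm_res, hea] at h
    rw [map_mul, map_pow, h, ← hu, ← mul_assoc, ← pow_add]
    congr 2
    omega
  have hηu : ηK u = - (u * u * ηK w) := by
    have h1 : ηK (w * u) = 0 := by rw [hwu]; exact Derivation.map_one_eq_zero _
    rw [Derivation.leibniz, smul_eq_mul, smul_eq_mul] at h1
    have h2 : ηK u = u * (w * ηK u) := by
      rw [← mul_assoc, mul_comm u w, hwu, one_mul]
    rw [h2, eq_neg_iff_add_eq_zero]
    linear_combination u * h1
  have hLgen : ∀ b', ηK (gm _ hb (crd f b b')) ∈ L := by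
    intro b'
    rw [hcoord, Derivation.leibniz, smul_eq_mul, smul_eq_mul, hηu, hηK, hηK]
    refine L.add_mem (L.mul_mem (hLa _) (L.neg_mem (L.mul_mem (L.mul_mem hLu hLu) ?_)))
      (L.mul_mem hLu (hLa _))
    exact hLa _
  choose N hN using hLgen
  refine ⟨Finset.univ.sup N, fun c hc => ?_⟩
  have hgen : ∀ b', ∃ t, u ^ c * ηK (gm _ hb (crd f b b')) = gm _ hb t := fun b' =>
    hN b' c ((Finset.le_sup (Finset.mem_univ b')).trans hc)
  intro s
  obtain ⟨P, rfl⟩ := exists_polynomial' f b s
  induction P using MvPolynomial.induction_on with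
  | C z =>
    refine ⟨0, ?_⟩
    rw [MvPolynomial.eval₂_C, map_zero]
    have h1 : gm _ hb (cst f (chart f b) z) = gm _ ha (cst f (chart f a) z) := by
      rw [← res_cst f (le_top (a := chart f b)), ← res_cst f (le_top (a := chart f a)),
        gm_res, gm_res]
    rw [h1, hηK, hη, map_zero, mul_zero]
  | add p q hp hq =>
    obtain ⟨t, ht⟩ := hp
    obtain ⟨t', ht'⟩ := hq
    refine ⟨t + t', ?_⟩
    rw [MvPolynomial.eval₂_add, map_add, map_add, map_add, mul_add, ht, ht']
  | mul_X p i hp =>
    obtain ⟨t, ht⟩ := hp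
    obtain ⟨t', ht'⟩ := hgen i
    refine ⟨MvPolynomial.eval₂ (cst f (chart f b)) (crd f b) p * t' + crd f b i * t, ?_⟩
    rw [MvPolynomial.eval₂_mul, MvPolynomial.eval₂_X, map_mul, Derivation.leibniz, smul_eq_mul,
      smul_eq_mul, map_add, map_mul, map_mul, ← ht, ← ht']
    ring

/-- A derivation on one chart which kills the constants extends to a vector field with values
in `O(c)` for `c` large. -/
theorem exists_TDer (f : Y ⟶ PP r) [IsClosedImmersion f] (a : Fin (r + 1))
    (η : Derivation ℤ Γ(Y, chart f a) Γ(Y, chart f a))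
    (hη : ∀ z, η (cst f (chart f a) z) = 0) :
    ∃ c₀ : ℕ, ∀ c, c₀ ≤ c → ∃ D : TDer f c, D.θ a = η := by
  classical
  by_cases ha : genericPoint Y ∈ chart f a
  swap
  · have := subsingleton_sections ha
    refine ⟨0, fun c _ => ⟨TDer.zero, ?_⟩⟩
    ext s
    exact Subsingleton.elim _ _
  obtain ⟨ηK, hηK⟩ := exists_derivation_ext (gm _ ha)
    (gm_formallyEtale _ ha (isAffineOpen_chart' f a)) η
  have key : ∀ b, ∃ c₀ : ℕ, ∀ c, c₀ ≤ c → ∀ hb : genericPoint Y ∈ chart f b,
      ∀ s : Γ(Y, chart f b), ∃ t : Γ(Y, chart f b),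
      ηK (gm _ hb s) * gm _ hb (crd f b a) ^ c = gm _ hb t := by
    intro b
    by_cases hb : genericPoint Y ∈ chart f b
    · obtain ⟨c₀, hc₀⟩ := exists_pow_preserve f a b ha hb η hη ηK hηK
      refine ⟨c₀, fun c hc _ s => ?_⟩
      obtain ⟨t, ht⟩ := hc₀ c hc s
      exact ⟨t, by rw [← ht, mul_comm]⟩
    · exact ⟨0, fun c _ hb' => absurd hb' hb⟩
  choose c₀ hc₀ using key
  refine ⟨Finset.univ.sup c₀, fun c hc => ?_⟩
  have hc' : ∀ b (hb : genericPoint Y ∈ chart f b), ∃ θ : Derivation ℤ Γ(Y, chart f b) Γ(Y, chart f b),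
      ∀ s, gm _ hb (θ s) = gm _ hb (crd f b a) ^ c * ηK (gm _ hb s) := by
    intro b hb
    obtain ⟨θ, hθ⟩ := exists_derivation_restrict (gm _ hb) (gm_injective _ hb)
      (gm _ hb (crd f b a) ^ c • ηK) (fun s => by
        obtain ⟨t, ht⟩ := hc₀ b c ((Finset.le_sup (Finset.mem_univ b)).trans hc) hb s
        exact ⟨t, by rw [Derivation.smul_apply, smul_eq_mul, ← ht, mul_comm]⟩)
    exact ⟨θ, fun s => by rw [hθ, Derivation.smul_apply, smul_eq_mul]⟩
  have hθex : ∀ b, ∃ θ : Derivation ℤ Γ(Y, chart f b) Γ(Y, chart f b),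
      ∀ (hb : genericPoint Y ∈ chart f b) s,
        gm _ hb (θ s) = gm _ hb (crd f b a) ^ c * ηK (gm _ hb s) := by
    intro b
    by_cases hb : genericPoint Y ∈ chart f b
    · obtain ⟨θ, hθ⟩ := hc' b hb
      exact ⟨θ, fun _ => hθ⟩
    · exact ⟨0, fun hb' => absurd hb' hb⟩
  choose θ hθ using hθex
  choose θ2 hθ2 using fun b b' => exists_derivation_ext
    (res (inf_le_left : chart f b ⊓ chart f b' ≤ chart f b))
    (formallyEtale_res (isAffineOpen_chart' f b) (isAffineOpen_inf f b b') _) (θ b)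
  refine ⟨⟨θ, θ2, hθ2, ?_, ?_⟩, ?_⟩
  · intro b b' s
    by_cases hbb : genericPoint Y ∈ chart f b ⊓ chart f b'
    swap
    · have := subsingleton_sections hbb
      exact Subsingleton.elim _ _
    have hb : genericPoint Y ∈ chart f b := hbb.1
    have hb' : genericPoint Y ∈ chart f b' := hbb.2
    -- the germ of `θ2`
    have hK : ∀ t, gm _ hbb (θ2 b b' t) = gm _ hb (crd f b a) ^ c * ηK (gm _ hbb t) := by
      let R := Γ(Y, chart f b ⊓ chart f b')
      let ρ : R →+* Y.functionField := gm _ hbb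
      let v : Y.functionField := gm _ hb (crd f b a) ^ c
      let _ : Module R Y.functionField := Module.compHom _ ρ
      let d1 : Derivation ℤ R Y.functionField :=
        Derivation.mk' (ρ.toAddMonoidHom.toIntLinearMap.comp (θ2 b b').toLinearMap) (fun x y => by
          show ρ (θ2 b b' (x * y)) = ρ x * ρ (θ2 b b' y) + ρ y * ρ (θ2 b b' x)
          rw [Derivation.leibniz, map_add, smul_eq_mul, smul_eq_mul, map_mul, map_mul])
      let d2 : Derivation ℤ R Y.functionField :=
        Derivation.mk' ((LinearMap.mulLeft ℤ v).comp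
          (ηK.toLinearMap.comp ρ.toAddMonoidHom.toIntLinearMap)) (fun x y => by
          show v * ηK (ρ (x * y)) = ρ x * (v * ηK (ρ y)) + ρ y * (v * ηK (ρ x))
          rw [map_mul, Derivation.leibniz, smul_eq_mul, smul_eq_mul]
          ring)
      have h12 : d1 = d2 := derivation_eq (res (inf_le_left : chart f b ⊓ chart f b' ≤ chart f b))
        (FormallyEtale.unr
          (formallyEtale_res (isAffineOpen_chart' f b) (isAffineOpen_inf f b b') _)) d1 d2
        (fun s => by
          show ρ (θ2 b b' (res _ s)) = v * ηK (ρ (res _ s))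
          rw [hθ2]
          have e1 : ρ (res inf_le_left (θ b s)) = gm _ hb (θ b s) := gm_res _ hbb _
          have e2 : ρ (res inf_le_left s) = gm _ hb s := gm_res _ hbb _
          rw [e1, e2]
          exact hθ b hb s)
      intro t
      exact congrArg (fun d => d t) h12
    apply gm_injective _ hbb
    have hcoc : gm _ hb (crd f b a) = gm _ hb (crd f b b') * gm _ hb' (crd f b' a) := by
      have h := congrArg (gm _ hbb) (crd_cocycle f b b' a)
      rw [map_mul, gm_res, gm_res, gm_res] at h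
      exact h.symm
    rw [hK, map_mul, map_pow, gm_res, gm_res, gm_res, hθ b' hb', hcoc, mul_pow]
    ring
  · intro b z
    by_cases hb : genericPoint Y ∈ chart f b
    swap
    · have := subsingleton_sections hb
      exact Subsingleton.elim _ _
    apply gm_injective _ hb
    rw [hθ b hb, map_zero]
    have h1 : gm _ hb (cst f (chart f b) z) = gm _ ha (cst f (chart f a) z) := by
      rw [← res_cst f (le_top (a := chart f b)), ← res_cst f (le_top (a := chart f a)),
        gm_res, gm_res]
    rw [h1, hηK, hη, map_zero, mul_zero]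
  · ext s
    apply gm_injective _ ha
    rw [hθ a ha, crd_self, map_one, one_pow, one_mul, hηK]

end

end

end Pool.Agent.Work.MP_eb613f_ag
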