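import Mathlib
import Pool.Agent.Work.MP_eb613f_ag.Basic
import Pool.Agent.Work.MP_eb613f_ag.Points
import Pool.Agent.Work.MP_eb613f_ag.TDerX
import Pool.Agent.Work.MP_eb613f_ag.GenFibre
import Pool.Agent.Work.MP_eb613f_ag.SmoothAlg

open AlgebraicGeometry CategoryTheory Limits MvPolynomial TopologicalSpace

namespace Pool.Agent.Work.MP_eb613f_ag

noncomputable section

variable {r : ℕ} {X Y : Scheme.{0}}

/-- specialisations in an affine open subset -/
theorem specializes_of_basicOpen {U : Y.Opens} (hU : IsAffineOpen U) {y y' : Y}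
    (hy' : y' ∈ U) (h : ∀ t : Γ(Y, U), y' ∈ Y.basicOpen t → y ∈ Y.basicOpen t) : y ⤳ y' := by
  rw [specializes_iff_forall_open]
  intro V hV hyV
  obtain ⟨t, ht1, ht2⟩ := hU.exists_basicOpen_le (V := ⟨V, hV⟩) ⟨y', hyV⟩ hy'
  exact ht1 (h t ht2)

/-- many points of `Y` over one point of `X` -/
theorem exists_fibre_points (i : X ⟶ PP r) [IsClosedImmersion i] (f : Y ⟶ PP r) (p : Y ⟶ X)
    (hp : p ≫ i = f) [IsFinite p] [IsAffineHom f] (y : Y) (Q : ℕ) (hQ : Q ≤ residueDegree p y)
    {a : Fin (r + 1)} (ha : y ∈ chart f a) :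
    ∃ (χ : Fin Q → Γ(Y, chart f a) →+* ℂ) (pt : Fin Q → Y), Function.Injective χ ∧
      (∀ s, Rep f a (χ s) (pt s)) ∧ (∀ s, y ⤳ pt s) ∧
      ∀ s s' t, χ s (pbk p hp a t) = χ s' (pbk p hp a t) := by
  classical
  subst hp
  let A := Γ(X, chart i a)
  let B := Γ(Y, chart (p ≫ i) a)
  have hpy : p y ∈ chart i a := ha
  let α : A →+* X.residueField (p y) := (X.evaluation (chart i a) (p y) hpy).hom
  let β : B →+* Y.residueField y := (Y.evaluation (chart (p ≫ i) a) y ha).hom
  let _ : Algebra (X.residueField (p y)) (Y.residueField y) := (p.residueFieldMap y).hom.toAlgebra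
  let _ : Algebra ℂ A := (cst i (chart i a)).toAlgebra
  let _ : Algebra ℂ B := (cst (p ≫ i) (chart (p ≫ i) a)).toAlgebra
  let _ : Algebra A B := (pbk p rfl a).toAlgebra
  have h1 : IsScalarTower ℂ A B := by
    refine IsScalarTower.of_algebraMap_eq fun z => ?_
    exact (pbk_cst p rfl a z).symm
  have h2 : Algebra.FiniteType ℂ A := by
    refine ⟨⟨Finset.univ.image (crd i a), ?_⟩⟩
    rw [eq_top_iff]
    intro s _
    obtain ⟨P, rfl⟩ := exists_polynomial' i a s
    have h3 : MvPolynomial.eval₂ (cst i (chart i a)) (crd i a) P = MvPolynomial.aeval (crd i a) P :=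
      rfl
    rw [h3]
    induction P using MvPolynomial.induction_on with
    | C z => rw [MvPolynomial.aeval_C]; exact Subalgebra.algebraMap_mem _ z
    | add q q' hq hq' => rw [map_add]; exact Subalgebra.add_mem _ (hq trivial rfl) (hq' trivial rfl)
    | mul_X q b hq =>
      rw [map_mul, MvPolynomial.aeval_X]
      refine Subalgebra.mul_mem _ (hq trivial rfl) (Algebra.subset_adjoin ?_)
      simp
  have h3 : Module.Finite A B := by
    have h4 := IsFinite.finite_app p (chart i a) (isAffineOpen_chart' i a)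
    have h5 : (pbk p rfl a : Γ(X, chart i a) →+* Γ(Y, chart (p ≫ i) a)) =
        (p.app (chart i a)).hom := by
      ext s
      exact pull_app p s
    have h6 : (pbk p rfl a : Γ(X, chart i a) →+* Γ(Y, chart (p ≫ i) a)).Finite := by
      rw [h5]; exact h4
    exact h6
  obtain ⟨χ, hinj, hker, hag⟩ := exists_many_points α β (fun s => by
      have h4 := Scheme.evaluation_naturality_apply p (V := chart i a) y hpy s
      have h5 : algebraMap A B s = (p.app (chart i a)).hom s := pull_app p s
      rw [h5]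
      exact h4.symm)
    (exists_quotient (isAffineOpen_chart' i a) hpy) 
    (exists_quotient (isAffineOpen_chart' (p ≫ i) a) ha) Q hQ
  have hconst : ∀ s z, (χ s).toRingHom (cst (p ≫ i) (chart (p ≫ i) a) z) = z := fun s z =>
    (χ s).commutes z
  choose pt hpt using fun s => exists_point (p ≫ i) a (χ s).toRingHom (hconst s)
  refine ⟨fun s => (χ s).toRingHom, pt, ?_, hpt, ?_, hag⟩
  · intro s s' h
    apply hinj
    exact AlgHom.ext fun t => congrArg (fun φ : B →+* ℂ => φ t) h
  · intro s
    refine specializes_of_basicOpen (isAffineOpen_chart' (p ≫ i) a) (hpt s).mem (fun t ht => ?_)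
    by_contra h
    have h4 : β t = 0 := (ev_zero_iff ha t).2 h
    have h5 : (χ s).toRingHom t = 0 := hker s h4
    exact ((hpt s).iff t).1 h5 ht

/-- smoothness of the rings of functions on the charts -/
theorem locally_smooth (f : Y ⟶ PP r) [IsAffineHom f] (n : ℕ)
    [h : SmoothOfRelativeDimension n (f ≫ PP.toSpec r)] (a : Fin (r + 1)) :
    RingHom.Locally (RingHom.IsStandardSmoothOfRelativeDimension n) (cst f (chart f a)) := by
  have h1 := HasRingHomProperty.appLE (P := @SmoothOfRelativeDimension n) (f ≫ PP.toSpec r) h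
    ⟨⊤, isAffineOpen_top _⟩ ⟨chart f a, isAffineOpen_chart' f a⟩ le_top
  have h2 : RingHom.RespectsIso
      (RingHom.Locally (RingHom.IsStandardSmoothOfRelativeDimension n)) := by
    exact (HasRingHomProperty.isLocal_ringHomProperty (@SmoothOfRelativeDimension n)).respectsIso
  have h3 := h2.2 _ ((Scheme.ΓSpecIso (CommRingCat.of ℂ)).symm.commRingCatIsoToRingEquiv) h1
  have h4 : cst f (chart f a) =
    ((f ≫ PP.toSpec r).appLE ⊤ (chart f a) le_top).hom.comp
      (Scheme.ΓSpecIso (CommRingCat.of ℂ)).symm.commRingCatIsoToRingEquiv.toRingHom := by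
    ext z
    exact (pull_eq (f ≫ PP.toSpec r) (U := ⊤) (V := chart f a) le_top _).symm
  rw [h4]
  exact h3

end

end Pool.Agent.Work.MP_eb613f_ag
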