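import Mathlib
import Pool.Agent.Work.MP_eb613f_ag.Geom
import Pool.Agent.Work.MP_eb613f_ag.Count
import Pool.Agent.Work.MP_eb613f_ag.Curve

open AlgebraicGeometry CategoryTheory Limits MvPolynomial TopologicalSpace

namespace Pool.Agent.Work.MP_eb613f_ag

noncomputable section

variable {r : ℕ} {X Y Y' : Scheme.{0}}

theorem exists_local_parameters' (f : Y ⟶ PP r) [IsAffineHom f] (n : ℕ)
    [SmoothOfRelativeDimension n (f ≫ PP.toSpec r)] {a : Fin (r + 1)}
    {χ : Γ(Y, chart f a) →+* ℂ} {y : Y} (h : Rep f a χ y) :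
    ∃ t : Fin n → Γ(Y, chart f a),
      RingHom.ker χ = Ideal.span (Set.range t) ⊔ RingHom.ker χ ^ 2 := by
  let _ : Algebra ℂ Γ(Y, chart f a) := (cst f (chart f a)).toAlgebra
  let χ' : Γ(Y, chart f a) →ₐ[ℂ] ℂ := { χ with commutes' := h.cst }
  exact exists_local_parameters n (locally_smooth f n a) χ'

theorem exists_derivations' (f : Y ⟶ PP r) [IsClosedImmersion f] (n : ℕ)
    [SmoothOfRelativeDimension n (f ≫ PP.toSpec r)] (a : Fin (r + 1)) :
    ∃ (m : ℕ) (η : Fin m → Derivation ℤ Γ(Y, chart f a) Γ(Y, chart f a)),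
      (∀ j z, η j (cst f (chart f a) z) = 0) ∧
      ∀ χ : Γ(Y, chart f a) →+* ℂ, (∀ z, χ (cst f (chart f a) z) = z) →
        ∃ (b : Fin n → Fin (r + 1)) (lam : Fin n → Fin m → ℂ), ∀ i k,
          ∑ j, lam i j * χ (η j (crd f a (b k))) = if i = k then 1 else 0 := by
  let _ : Algebra ℂ Γ(Y, chart f a) := (cst f (chart f a)).toAlgebra
  obtain ⟨m, η, hη⟩ := exists_derivations n (locally_smooth f n a) (crd f a) (by
    rw [eq_top_iff]
    intro s _
    obtain ⟨P, rfl⟩ := exists_polynomial' f a s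
    have h3 : MvPolynomial.eval₂ (cst f (chart f a)) (crd f a) P = MvPolynomial.aeval (crd f a) P :=
      rfl
    rw [h3, Algebra.adjoin_range_eq_range_aeval]
    exact ⟨P, rfl⟩)
  refine ⟨m, fun j => (η j).restrictScalars ℤ, fun j z => (η j).map_algebraMap z, ?_⟩
  intro χ hχ
  obtain ⟨b, lam, h⟩ := hη { χ with commutes' := hχ }
  refine ⟨b, lam, fun i k => ?_⟩
  rw [← h i k, map_sum]
  refine Finset.sum_congr rfl fun j _ => ?_
  rw [map_smul]
  rfl

/-- Chinese remainder theorem for finitely many points -/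
theorem exists_separating {B : Type} [CommRing B] (C : ℂ →+* B) {Q : ℕ} (χ : Fin Q → B →+* ℂ)
    (hχ : ∀ s z, χ s (C z) = z) (hinj : Function.Injective χ) :
    ∃ g : Fin Q → B, ∀ s s', χ s (g s') = if s = s' then 1 else 0 := by
  classical
  have h1 : ∀ s s', s ≠ s' → ∃ x, χ s x = 0 ∧ χ s' x = 1 := by
    intro s s' hss
    have h2 : ∃ x, χ s x ≠ χ s' x := by
      by_contra hcon
      push Not at hcon
      exact hss (hinj (RingHom.ext hcon))
    obtain ⟨x, hx⟩ := h2
    have h3 : χ s' x - χ s x ≠ 0 := sub_ne_zero.2 (Ne.symm hx)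
    refine ⟨C (χ s' x - χ s x)⁻¹ * (x - C (χ s x)), ?_, ?_⟩
    · rw [map_mul, map_sub, hχ, hχ, sub_self, mul_zero]
    · rw [map_mul, map_sub, hχ, hχ, inv_mul_cancel₀ h3]
  have h2 : ∀ s s', ∃ x, (s ≠ s' → χ s x = 0) ∧ χ s' x = 1 := by
    intro s s'
    by_cases h : s = s'
    · exact ⟨1, fun h' => absurd h h', map_one _⟩
    · obtain ⟨x, hx1, hx2⟩ := h1 s s' h
      exact ⟨x, fun _ => hx1, hx2⟩
  choose x hx1 hx2 using h2
  refine ⟨fun s' => ∏ s, x s s', fun s s' => ?_⟩
  rw [map_prod]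
  split_ifs with h
  · subst h
    exact Finset.prod_eq_one fun i _ => hx2 i s
  · exact Finset.prod_eq_zero (Finset.mem_univ s) (hx1 s s' h)

/-- a section vanishing to high order at the bad point vanishes along the bad curve -/
theorem van_of_order (f' : Y' ⟶ PP r) [IsFinite f'] (f : Y ⟶ PP r) (π : Y' ⟶ Y) (hπ : π ≫ f = f')
    {c x : Y'} (hc : IsCurvePoint f' c) (h : c ⤳ x) {N₁ : ℕ}
    (hbad : curveDeg f' c < N₁ * curveMult f' h)
    {t M : ℕ} (ht : 0 < t) (hM : N₁ * t ≤ M) {s : Fam f} (hs : IsSec f t s) {a : Fin (r + 1)}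
    {χ : Γ(Y, chart f a) →+* ℂ} (hrep : Rep f a χ (π x)) (hord : s a ∈ RingHom.ker χ ^ M) :
    Van f s (π c) := by
  by_contra hcon
  have hx : x ∈ chart f' a := by rw [← hπ]; exact hrep.mem
  have h1 : ¬ Van f' (pbF π hπ s) c := by rwa [van_pbF]
  have h2 := bezout f' hc h (hs.pullback π hπ) (M := M) h1 hx (by
    let φ : Γ(Y, chart f a) →+* Y'.presheaf.stalk x :=
      (Y'.presheaf.germ (chart f' a) x hx).hom.comp (pbk π hπ a)
    have h3 : Ideal.map φ (RingHom.ker χ) ≤ IsLocalRing.maximalIdeal (Y'.presheaf.stalk x) := by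
      rw [Ideal.map_le_iff_le_comap]
      intro u hu
      rw [Ideal.mem_comap]
      have h4 : π x ∉ Y.basicOpen u := (hrep.iff u).1 hu
      have h5 : x ∉ Y'.basicOpen (pbk π hπ a u) := by
        rw [basicOpen_pbk]
        exact h4
      rw [IsLocalRing.mem_maximalIdeal, mem_nonunits_iff]
      intro h6
      exact h5 ((Scheme.mem_basicOpen Y' (pbk π hπ a u) x hx).2 h6)
    have h4 : φ (s a) ∈ Ideal.map φ (RingHom.ker χ ^ M) := Ideal.mem_map_of_mem _ hord
    rw [Ideal.map_pow] at h4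
    exact Ideal.pow_right_mono h3 M h4)
  have h3 : M * curveMult f' h < M * curveMult f' h := by
    calc M * curveMult f' h ≤ t * curveDeg f' c := h2
      _ < t * (N₁ * curveMult f' h) := by
        exact Nat.mul_lt_mul_of_pos_left hbad ht
      _ = (N₁ * t) * curveMult f' h := by ring
      _ ≤ M * curveMult f' h := Nat.mul_le_mul_right _ hM
  exact lt_irrefl _ h3

end

end Pool.Agent.Work.MP_eb613f_ag
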