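import Mathlib
import Pool.Agent.Work.MP_eb613f_ag.Basic
import Pool.Agent.Work.MP_eb613f_ag.Points

open AlgebraicGeometry CategoryTheory Limits MvPolynomial TopologicalSpace

namespace Pool.Agent.Work.MP_eb613f_ag

noncomputable section

variable {r : ℕ} {Y Y' : Scheme.{0}}

/-! ### push forward of limits -/

theorem IsLim.push {f : Y ⟶ PP r} {f' : Y' ⟶ PP r} (π : Y' ⟶ Y) (hπ : π ≫ f = f') {ι : Type*}
    {𝒰 : Ultrafilter ι} {y : ι → Y'} {y₀ : Y'} (h : IsLim f' 𝒰 y y₀) :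
    IsLim f 𝒰 (fun l => π (y l)) (π y₀) := by
  obtain ⟨a, χ, χ₀, h1, h2, h3⟩ := h
  refine ⟨a, fun l => (χ l).comp (pbk π hπ a), χ₀.comp (pbk π hπ a), ?_, h2.push π hπ, ?_⟩
  · filter_upwards [h1] with l hl
    exact hl.push π hπ
  · intro s
    exact h3 _

/-! ### vanishing -/

open Filter Topology in
theorem IsLim.van {f : Y ⟶ PP r} {ι : Type*} {𝒰 : Ultrafilter ι} {y : ι → Y} {y₀ : Y}
    (h : IsLim f 𝒰 y y₀) {I : Type*} [Fintype I] {j : ℕ} (s : I → Fam f)
    (hs : ∀ i, IsSec f j (s i)) (lam : ι → I → ℂ) (lam₀ : I → ℂ)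
    (hlam : ∀ i, Tendsto (fun l => lam l i) (𝒰 : Filter ι) (𝓝 (lam₀ i)))
    (hvan : ∀ᶠ l in (𝒰 : Filter ι), Van f (∑ i, cstF f (lam l i) * s i) (y l)) :
    Van f (∑ i, cstF f (lam₀ i) * s i) y₀ := by
  obtain ⟨a, χ, χ₀, h1, h2, h3⟩ := h
  have hsec : ∀ μ : I → ℂ, IsSec f j (∑ i, cstF f (μ i) * s i) := fun μ =>
    IsSec.sum _ fun i _ => (hs i).smul (μ i)
  rw [(hsec lam₀).van_iff h2.mem, ← h2.iff]
  have hval : ∀ (μ : I → ℂ) (φ : Γ(Y, chart f a) →+* ℂ), (∀ z, φ (cst f (chart f a) z) = z) →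
      φ ((∑ i, cstF f (μ i) * s i) a) = ∑ i, μ i * φ (s i a) := by
    intro μ φ hφ
    rw [Finset.sum_apply, map_sum]
    refine Finset.sum_congr rfl fun i _ => ?_
    rw [Pi.mul_apply, map_mul, cstF_apply, hφ]
  rw [hval lam₀ χ₀ h2.cst]
  have hlim : Tendsto (fun l => ∑ i, lam l i * χ l (s i a)) (𝒰 : Filter ι)
      (𝓝 (∑ i, lam₀ i * χ₀ (s i a))) :=
    tendsto_finsetSum _ fun i _ => (hlam i).mul (h3 _)
  have hzero : Tendsto (fun l => ∑ i, lam l i * χ l (s i a)) (𝒰 : Filter ι) (𝓝 0) := by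
    refine Tendsto.congr' ?_ tendsto_const_nhds
    filter_upwards [h1, hvan] with l hl1 hl2
    rw [← hval (lam l) (χ l) hl1.cst]
    exact ((hl1.iff _).2 (hl2 a)).symm
  exact tendsto_nhds_unique hlim hzero

/-! ### uniqueness -/

/-- comparison of the values in two charts -/
theorem Rep.compare {f : Y ⟶ PP r} {a b : Fin (r + 1)} {χ : Γ(Y, chart f a) →+* ℂ}
    {ψ : Γ(Y, chart f b) →+* ℂ} {y : Y} (h : Rep f a χ y) (h' : Rep f b ψ y) {n : ℕ}
    {u : Γ(Y, chart f a)} {t : Γ(Y, chart f b)}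
    (hut : res (inf_le_left : chart f a ⊓ chart f b ≤ chart f a) u =
      res (inf_le_left : chart f a ⊓ chart f b ≤ chart f a) (crd f a b) ^ n *
      res (inf_le_right : chart f a ⊓ chart f b ≤ chart f b) t) :
    χ u = χ (crd f a b) ^ n * ψ t := by
  apply (constants f y).injective
  have hy : y ∈ chart f a ⊓ chart f b := ⟨h.mem, h'.mem⟩
  have h1 := congrArg (Y.evaluation (chart f a ⊓ chart f b) y hy) hut
  rw [map_mul, map_pow, evaluation_res, evaluation_res, evaluation_res, h.evaluation,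
    h.evaluation, h'.evaluation] at h1
  rw [h1, map_mul, map_pow]

theorem exists_lift (f : Y ⟶ PP r) [IsAffineHom f] (a b : Fin (r + 1)) (t : Γ(Y, chart f b)) :
    ∃ (n : ℕ) (u : Γ(Y, chart f a)),
      res (inf_le_left : chart f a ⊓ chart f b ≤ chart f a) u =
      res (inf_le_left : chart f a ⊓ chart f b ≤ chart f a) (crd f a b) ^ n *
      res (inf_le_right : chart f a ⊓ chart f b ≤ chart f b) t := by
  have hU := isAffineOpen_chart' f a
  have hloc := hU.isLocalization_of_eq_basicOpen (crd f a b)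
    (homOfLE (inf_le_left : chart f a ⊓ chart f b ≤ chart f a)) (basicOpen_crd f a b).symm
  let _ : Algebra Γ(Y, chart f a) Γ(Y, chart f a ⊓ chart f b) :=
    (Y.presheaf.map (homOfLE (inf_le_left : chart f a ⊓ chart f b ≤ chart f a)).op).hom.toAlgebra
  obtain ⟨n, u, hu⟩ := IsLocalization.Away.surj (crd f a b) (S := Γ(Y, chart f a ⊓ chart f b))
    (res (inf_le_right : chart f a ⊓ chart f b ≤ chart f b) t)
  refine ⟨n, u, ?_⟩
  rw [mul_comm]
  exact hu.symm

open Filter Topology in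
theorem IsLim.unique {f : Y ⟶ PP r} [IsFinite f] {ι : Type*} {𝒰 : Ultrafilter ι} {y : ι → Y}
    {y₀ y₁ : Y} (h : IsLim f 𝒰 y y₀) (h' : IsLim f 𝒰 y y₁) : y₀ = y₁ := by
  obtain ⟨a, χ, χ₀, h1, h2, h3⟩ := h
  obtain ⟨b, ψ, ψ₀, h1', h2', h3'⟩ := h'
  have hne : χ₀ (crd f a b) * ψ₀ (crd f b a) = 1 := by
    have hlim := (h3 (crd f a b)).mul (h3' (crd f b a))
    have hone : Tendsto (fun l => χ l (crd f a b) * ψ l (crd f b a)) (𝒰 : Filter ι) (𝓝 1) := by
      refine Tendsto.congr' ?_ tendsto_const_nhds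
      filter_upwards [h1, h1'] with l hl hl'
      have := hl.change hl' (isSec_lin f a)
      simp only [lin, crd_self, map_one, pow_one] at this
      exact this
    exact tendsto_nhds_unique hlim hone
  have hne' : χ₀ (crd f a b) ≠ 0 := left_ne_zero_of_mul_eq_one hne
  have hmem : y₀ ∈ chart f b := by
    by_contra hcon
    apply hne'
    rw [h2.iff, basicOpen_crd]
    exact fun hh => hcon hh.2
  obtain ⟨ψ', hψ'⟩ := exists_rep f h2.isClosed hmem
  have heq : ψ' = ψ₀ := by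
    ext t
    obtain ⟨n, u, hu⟩ := exists_lift f a b t
    have e1 := h2.compare hψ' hu
    have e2 : χ₀ u = χ₀ (crd f a b) ^ n * ψ₀ t := by
      have l1 := h3 u
      have l2 : Tendsto (fun l => χ l u) (𝒰 : Filter ι) (𝓝 (χ₀ (crd f a b) ^ n * ψ₀ t)) := by
        refine Tendsto.congr' ?_ (((h3 (crd f a b)).pow n).mul (h3' t))
        filter_upwards [h1, h1'] with l hl hl'
        exact (hl.compare hl' hu).symm
      exact tendsto_nhds_unique l1 l2
    rw [e1] at e2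
    exact mul_left_cancel₀ (pow_ne_zero n hne') e2
  rw [heq] at hψ'
  exact hψ'.unique h2'

/-! ### existence -/

/-- boundedness of functions from the base -/
theorem bounded_base (f : Y ⟶ PP r) (a : Fin (r + 1)) (c : Γ(PP r, PP.chart r a)) :
    ∃ C : ℝ, ∀ χ : Γ(Y, chart f a) →+* ℂ, (∀ z, χ (cst f (chart f a) z) = z) →
      (∀ b, ‖χ (crd f a b)‖ ≤ 1) → ‖χ ((f.app (PP.chart r a)).hom c)‖ ≤ C := by
  obtain ⟨P, rfl⟩ := exists_polynomial r a c
  refine ⟨∑ d ∈ P.support, ‖P.coeff d‖, fun χ hχ hb => ?_⟩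
  rw [hom_eval₂, hom_eval₂, eval₂_eq']
  have hcst : ∀ z : ℂ, (χ.comp ((f.app (PP.chart r a)).hom.comp
      (cst (𝟙 (PP r)) (PP.chart r a)))) z = z := by
    intro z
    have := pbk_cst (f := 𝟙 (PP r)) (f' := f) f (Category.comp_id f) a z
    rw [RingHom.comp_apply, RingHom.comp_apply]
    have h2 : (f.app (PP.chart r a)).hom (cst (𝟙 (PP r)) (PP.chart r a) z) =
      cst f (chart f a) z := by
      rw [← this]
      exact (pull_app f _).symm
    rw [h2, hχ]
  refine (norm_sum_le _ _).trans (Finset.sum_le_sum fun d _ => ?_)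
  rw [norm_mul]
  have e1 : ‖((χ.comp ((f.app (PP.chart r a)).hom.comp
      (cst (𝟙 (PP r)) (PP.chart r a))))) (P.coeff d)‖ = ‖P.coeff d‖ := by rw [hcst]
  rw [e1, norm_prod]
  refine mul_le_of_le_one_right (norm_nonneg _) (Finset.prod_le_one (fun _ _ => norm_nonneg _) ?_)
  intro i _
  rw [norm_pow]
  exact pow_le_one₀ (norm_nonneg _) (hb i)

theorem norm_le_of_monic_root (p : Polynomial ℂ) (hp : p.Monic) (z : ℂ) (hz : p.IsRoot z) :
    ‖z‖ ≤ 1 + ∑ i ∈ Finset.range p.natDegree, ‖p.coeff i‖ := by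
  have hs : 0 ≤ ∑ i ∈ Finset.range p.natDegree, ‖p.coeff i‖ :=
    Finset.sum_nonneg fun _ _ => norm_nonneg _
  rcases le_or_gt ‖z‖ 1 with h1 | h1
  · linarith
  · have hz' : p.eval z = 0 := hz
    rw [Polynomial.eval_eq_sum_range, Finset.sum_range_succ, hp.coeff_natDegree, one_mul] at hz'
    obtain ⟨n, hn⟩ : ∃ n, p.natDegree = n := ⟨_, rfl⟩
    rw [hn] at hz' hs ⊢
    rcases n with _ | n
    · simp at hz'
    · have h2 : ‖z‖ ^ (n + 1) ≤ (∑ i ∈ Finset.range (n + 1), ‖p.coeff i‖) * ‖z‖ ^ n := by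
        have h3 : z ^ (n + 1) = - ∑ i ∈ Finset.range (n + 1), p.coeff i * z ^ i := by
          linear_combination hz'
        rw [← norm_pow, h3, norm_neg, Finset.sum_mul]
        refine (norm_sum_le _ _).trans (Finset.sum_le_sum fun i hi => ?_)
        rw [norm_mul, norm_pow]
        refine mul_le_mul_of_nonneg_left ?_ (norm_nonneg _)
        exact pow_le_pow_right₀ h1.le (by simp at hi; omega)
      have h4 : 0 < ‖z‖ ^ n := pow_pos (by linarith) n
      rw [pow_succ, mul_comm] at h2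
      have h5 := le_of_mul_le_mul_right h2 h4
      linarith

theorem bounded (f : Y ⟶ PP r) [IsFinite f] (a : Fin (r + 1)) (s : Γ(Y, chart f a)) :
    ∃ C : ℝ, ∀ χ : Γ(Y, chart f a) →+* ℂ, (∀ z, χ (cst f (chart f a) z) = z) →
      (∀ b, ‖χ (crd f a b)‖ ≤ 1) → ‖χ s‖ ≤ C := by
  have hfin : (f.app (PP.chart r a)).hom.Finite :=
    IsFinite.finite_app f (PP.chart r a) (isAffineOpen_chart r a)
  obtain ⟨P, hP, hPs⟩ := hfin.to_isIntegral s
  choose C hC using bounded_base f a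
  refine ⟨1 + ∑ i ∈ Finset.range P.natDegree, C (P.coeff i), fun χ hχ hb => ?_⟩
  have hmon : (P.map (χ.comp (f.app (PP.chart r a)).hom)).Monic := hP.map _
  have hroot : (P.map (χ.comp (f.app (PP.chart r a)).hom)).IsRoot (χ s) := by
    rw [Polynomial.IsRoot, Polynomial.eval_map, ← Polynomial.hom_eval₂, hPs, map_zero]
  refine (norm_le_of_monic_root _ hmon _ hroot).trans ?_
  rw [hP.natDegree_map]
  refine add_le_add le_rfl (Finset.sum_le_sum fun i _ => ?_)
  rw [Polynomial.coeff_map]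
  exact hC _ χ hχ hb

/-- a closed point has a chart in which all its coordinates are bounded by one -/
theorem exists_good_chart (f : Y ⟶ PP r) [IsFinite f] {y : Y} (hy : IsClosed {y}) :
    ∃ (a : Fin (r + 1)) (χ : Γ(Y, chart f a) →+* ℂ), Rep f a χ y ∧
      ∀ b, ‖χ (crd f a b)‖ ≤ 1 := by
  obtain ⟨a, ha⟩ := exists_mem_chart f y
  obtain ⟨χ, hχ⟩ := exists_rep f hy ha
  obtain ⟨b, -, hb⟩ := Finset.exists_max_image Finset.univ (fun b => ‖χ (crd f a b)‖)
    ⟨a, Finset.mem_univ a⟩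
  have h1 : 1 ≤ ‖χ (crd f a b)‖ := by
    have := hb a (Finset.mem_univ a)
    rwa [crd_self, map_one, norm_one] at this
  have hne : χ (crd f a b) ≠ 0 := by
    intro h0
    rw [h0, norm_zero] at h1
    linarith
  have hmem : y ∈ chart f b := by
    by_contra hcon
    apply hne
    rw [hχ.iff, basicOpen_crd]
    exact fun hh => hcon hh.2
  obtain ⟨ψ, hψ⟩ := exists_rep f hy hmem
  refine ⟨b, ψ, hψ, fun c => ?_⟩
  have hch := hχ.change hψ (isSec_lin f c)
  simp only [lin, pow_one] at hch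
  have h2 := hb c (Finset.mem_univ c)
  rw [hch, norm_mul] at h2
  have h3 : ‖χ (crd f a b)‖ * ‖ψ (crd f b c)‖ ≤ ‖χ (crd f a b)‖ * 1 := by
    rw [mul_one]; exact h2
  exact le_of_mul_le_mul_left h3 (by linarith)

open Filter Topology in
theorem exists_isLim (f : Y ⟶ PP r) [IsFinite f] {ι : Type*} (𝒰 : Ultrafilter ι) (y : ι → Y)
    (hy : ∀ᶠ l in (𝒰 : Filter ι), IsClosed {y l}) : ∃ y₀, IsLim f 𝒰 y y₀ := by
  classical
  -- choose the chart
  have hch : ∃ a, ∀ᶠ l in (𝒰 : Filter ι), ∃ χ : Γ(Y, chart f a) →+* ℂ, Rep f a χ (y l) ∧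
      ∀ b, ‖χ (crd f a b)‖ ≤ 1 := by
    have h1 : ∀ l, ∃ a : Fin (r + 1), IsClosed {y l} → ∃ χ : Γ(Y, chart f a) →+* ℂ,
        Rep f a χ (y l) ∧ ∀ b, ‖χ (crd f a b)‖ ≤ 1 := by
      intro l
      by_cases hl : IsClosed {y l}
      · obtain ⟨a, χ, h⟩ := exists_good_chart f hl
        exact ⟨a, fun _ => ⟨χ, h⟩⟩
      · exact ⟨0, fun h => absurd h hl⟩
    choose A hA using h1
    obtain ⟨a, ha⟩ := (𝒰.map A).eq_pure_of_finite
    have h2 : ∀ᶠ l in (𝒰 : Filter ι), A l = a := by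
      have h3 : {a} ∈ 𝒰.map A := by rw [ha]; exact Set.mem_singleton a
      exact h3
    refine ⟨a, ?_⟩
    filter_upwards [hy, h2] with l hl hl2
    have := hA l hl
    rwa [hl2] at this
  obtain ⟨a, ha⟩ := hch
  obtain ⟨l₀, χd, -⟩ := ha.exists
  let χ : ι → Γ(Y, chart f a) →+* ℂ := fun l =>
    if h : ∃ χ : Γ(Y, chart f a) →+* ℂ, Rep f a χ (y l) ∧ ∀ b, ‖χ (crd f a b)‖ ≤ 1
    then h.choose else χd
  have hχ : ∀ᶠ l in (𝒰 : Filter ι), Rep f a (χ l) (y l) ∧ ∀ b, ‖χ l (crd f a b)‖ ≤ 1 := by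
    filter_upwards [ha] with l hl
    have : χ l = hl.choose := by simp only [χ]; rw [dif_pos hl]
    rw [this]
    exact hl.choose_spec
  have hlim : ∀ s, ∃ z : ℂ, Tendsto (fun l => χ l s) (𝒰 : Filter ι) (𝓝 z) := by
    intro s
    obtain ⟨C, hC⟩ := bounded f a s
    have hmem : ∀ᶠ l in (𝒰 : Filter ι), χ l s ∈ Metric.closedBall (0 : ℂ) C := by
      filter_upwards [hχ] with l hl
      rw [mem_closedBall_zero_iff]
      exact hC (χ l) hl.1.cst hl.2
    obtain ⟨z, -, hz⟩ := (isCompact_closedBall (0 : ℂ) C).ultrafilter_le_nhds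
      (𝒰.map fun l => χ l s) (le_principal_iff.2 hmem)
    exact ⟨z, hz⟩
  choose L hL using hlim
  have hcst : ∀ z, L (cst f (chart f a) z) = z := by
    intro z
    refine tendsto_nhds_unique (hL _) (Tendsto.congr' ?_ tendsto_const_nhds)
    filter_upwards [hχ] with l hl
    exact (hl.1.cst z).symm
  let χ₀ : Γ(Y, chart f a) →+* ℂ :=
    { toFun := L
      map_one' := by
        refine tendsto_nhds_unique (hL 1) ?_
        simp only [map_one]
        exact tendsto_const_nhds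
      map_mul' := fun s t => by
        refine tendsto_nhds_unique (hL (s * t)) ?_
        simp only [map_mul]
        exact (hL s).mul (hL t)
      map_zero' := by
        refine tendsto_nhds_unique (hL 0) ?_
        simp only [map_zero]
        exact tendsto_const_nhds
      map_add' := fun s t => by
        refine tendsto_nhds_unique (hL (s + t)) ?_
        simp only [map_add]
        exact (hL s).add (hL t) }
  obtain ⟨y₀, hy₀⟩ := exists_point f a χ₀ hcst
  exact ⟨y₀, a, χ, χ₀, hχ.mono fun l hl => hl.1, hy₀, hL⟩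

end

end Pool.Agent.Work.MP_eb613f_ag
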