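import Mathlib
import Pool.Agent.Work.MP_eb613f_ag.Geom2
import Pool.Agent.Work.MP_eb613f_ag.Ultra
import Pool.Agent.Work.MP_eb613f_ag.Covers

open AlgebraicGeometry CategoryTheory Limits MvPolynomial TopologicalSpace

namespace Pool.Agent.Work.MP_eb613f_ag

noncomputable section

variable {r : ℕ} {X Y Y' : Scheme.{0}}

/-- a small Seshadri constant gives a curve of small degree compared with its multiplicity -/
theorem exists_bad_pair (f : Y ⟶ PP r) [IsFinite f] {m : ℕ} {N : ℝ} {x : Y}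
    (h : seshadri m f x ≤ ENNReal.ofReal N) (hN : 0 < N) :
    ∃ (c : Y) (hcx : c ⤳ x), IsCurvePoint f c ∧
      curveDeg f c < (m * ⌈N + 1⌉₊) * curveMult f hcx := by
  have h1 : seshadri m f x < ENNReal.ofReal (N + 1) :=
    lt_of_le_of_lt h ((ENNReal.ofReal_lt_ofReal_iff (by linarith)).2 (by linarith))
  simp only [seshadri, iInf_lt_iff] at h1
  obtain ⟨c, hc, hcx, h2⟩ := h1
  refine ⟨c, hcx, hc, ?_⟩
  have hpos := curveDeg_pos f hc
  have hne : (m * curveMult f hcx : ENNReal) ≠ 0 := by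
    intro h0
    rw [h0, ENNReal.div_zero (by exact_mod_cast hpos.ne')] at h2
    exact absurd h2 (by simp)
  have hne' : (m * curveMult f hcx : ENNReal) ≠ ⊤ := by
    exact_mod_cast ENNReal.natCast_ne_top (m * curveMult f hcx)
  rw [ENNReal.div_lt_iff (Or.inl hne) (Or.inl hne')] at h2
  have h3 : ENNReal.ofReal (N + 1) ≤ ((⌈N + 1⌉₊ : ℕ) : ENNReal) := by
    rw [← ENNReal.ofReal_natCast]
    exact ENNReal.ofReal_le_ofReal (Nat.le_ceil _)
  have h4 : (curveDeg f c : ENNReal) < ((⌈N + 1⌉₊ : ℕ) : ENNReal) * (m * curveMult f hcx) :=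
    lt_of_lt_of_le h2 (by gcongr)
  have h5 : curveDeg f c < ⌈N + 1⌉₊ * (m * curveMult f hcx) := by exact_mod_cast h4
  calc curveDeg f c < _ := h5
    _ = _ := by ring

/-- the images of closed points are closed -/
theorem isClosed_image_point {f : Y ⟶ PP r} {f' : Y' ⟶ PP r} [IsAffineHom f]
    [LocallyOfFiniteType f'] (π : Y' ⟶ Y) (hπ : π ≫ f = f') {y : Y'} (hy : IsClosed {y}) :
    IsClosed {π y} := by
  obtain ⟨a, ha⟩ := exists_mem_chart f' y
  obtain ⟨χ, hχ⟩ := exists_rep f' hy ha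
  exact (hχ.push π hπ).isClosed

open Filter in
theorem IsLim.congr {f : Y ⟶ PP r} {ι : Type*} {𝒰 : Ultrafilter ι} {y y' : ι → Y} {y₀ : Y}
    (h : IsLim f 𝒰 y y₀) (hyy : ∀ᶠ l in (𝒰 : Filter ι), y l = y' l) : IsLim f 𝒰 y' y₀ := by
  obtain ⟨a, χ, χ₀, h1, h2, h3⟩ := h
  refine ⟨a, χ, χ₀, ?_, h2, h3⟩
  filter_upwards [h1, hyy] with l h4 h5
  rw [← h5]
  exact h4

/-- a linear form which does not vanish at finitely many given points -/
theorem exists_avoiding (f : Y ⟶ PP r) [LocallyOfFiniteType f] {S : Set Y} (hS : S.Finite)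
    (hcl : ∀ y ∈ S, IsClosed {y}) :
    ∃ α : Fin (r + 1) → ℂ, ∀ y ∈ S, ¬ Van f (∑ b, cstF f (α b) * lin f b) y := by
  classical
  have key : ∀ y ∈ S, ∃ P : Polynomial ℂ, P ≠ 0 ∧ ∀ t : ℂ, P.eval t ≠ 0 →
      ¬ Van f (∑ b : Fin (r + 1), cstF f (t ^ (b : ℕ)) * lin f b) y := by
    intro y hy
    obtain ⟨a, ha⟩ := exists_mem_chart f y
    obtain ⟨χ, hχ⟩ := exists_rep f (hcl y hy) ha
    refine ⟨∑ b : Fin (r + 1), Polynomial.C (χ (crd f a b)) * Polynomial.X ^ (b : ℕ), ?_, ?_⟩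
    · intro h0
      have h1 := congrArg (fun P => Polynomial.coeff P (a : ℕ)) h0
      simp only [Polynomial.finsetSum_coeff, Polynomial.coeff_C_mul, Polynomial.coeff_X_pow,
        Polynomial.coeff_zero] at h1
      rw [Finset.sum_eq_single a] at h1
      · simp [crd_self] at h1
      · intro b _ hb
        rw [if_neg, mul_zero]
        intro h
        exact hb (Fin.ext h.symm)
      · simp
    · intro t ht hvan
      apply ht
      have h1 := hvan a
      rw [← hχ.iff] at h1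
      simp only [Finset.sum_apply, Pi.mul_apply, cstF_apply, lin, map_sum, map_mul, hχ.cst] at h1
      rw [Polynomial.eval_finsetSum, ← h1]
      refine Finset.sum_congr rfl fun b _ => ?_
      rw [Polynomial.eval_mul, Polynomial.eval_C, Polynomial.eval_pow, Polynomial.eval_X, mul_comm]
  choose! P hP0 hP using key
  have hfin : (⋃ y ∈ S, {t : ℂ | (P y).eval t = 0}).Finite := by
    refine hS.biUnion fun y hy => ?_
    have h := Polynomial.rootSet_finite (P y) ℂ
    refine h.subset fun t ht => ?_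
    rw [Polynomial.mem_rootSet]
    refine ⟨hP0 y hy, ?_⟩
    simpa [Polynomial.aeval_def] using ht
  obtain ⟨t, ht⟩ := hfin.exists_notMem
  refine ⟨fun b => t ^ (b : ℕ), fun y hy => hP y hy t ?_⟩
  intro h0
  apply ht
  simp only [Set.mem_iUnion]
  exact ⟨y, hy, h0⟩

end

end Pool.Agent.Work.MP_eb613f_ag
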