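import Mathlib
import Pool.Agent.Work.MP_eb613f_ag.Defs

open IsDedekindDomain WithZero

namespace Pool.Agent.Work.MP_eb613f_ag

section Generic

variable {B F : Type} [CommRing B] [IsDedekindDomain B] [Field F] [Algebra B F]
  [IsFractionRing B F] [Algebra ℂ F]

lemma Place.exists_v_eq (P : Place (algebraMap ℂ F)) (n : ℤ) : ∃ x : F, P.v x = exp n :=
  P.surj _

/-- The prime of `B` attached to a place which is nonnegative on `B`. -/
def centerIdeal (P : Place (algebraMap ℂ F)) (hle : ∀ b : B, P.v (algebraMap B F b) ≤ 1) :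
    Ideal B where
  carrier := {b | P.v (algebraMap B F b) < 1}
  add_mem' {a b} ha hb := by
    simp only [Set.mem_ofPred_eq, map_add] at *
    exact lt_of_le_of_lt (P.v.map_add _ _) (max_lt ha hb)
  zero_mem' := by simp
  smul_mem' c {b} hb := by
    simp only [Set.mem_ofPred_eq, smul_eq_mul, map_mul] at *
    calc P.v (algebraMap B F c) * P.v (algebraMap B F b)
        ≤ 1 * P.v (algebraMap B F b) := mul_le_mul_left (hle c) _
      _ < 1 := by rwa [one_mul]

lemma mem_centerIdeal (P : Place (algebraMap ℂ F)) (hle : ∀ b : B, P.v (algebraMap B F b) ≤ 1)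
    (b : B) : b ∈ centerIdeal P hle ↔ P.v (algebraMap B F b) < 1 := Iff.rfl

lemma centerIdeal_isPrime (P : Place (algebraMap ℂ F))
    (hle : ∀ b : B, P.v (algebraMap B F b) ≤ 1) : (centerIdeal P hle).IsPrime where
  ne_top' := by
    rw [Ideal.ne_top_iff_one, mem_centerIdeal]
    simp
  mem_or_mem' {a b} hab := by
    rw [mem_centerIdeal] at hab ⊢
    rw [mem_centerIdeal]
    by_contra hcon
    push Not at hcon
    have h1 : P.v (algebraMap B F a) = 1 := le_antisymm (hle a) hcon.1
    have h2 : P.v (algebraMap B F b) = 1 := le_antisymm (hle b) hcon.2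
    rw [map_mul, map_mul, h1, h2, one_mul] at hab
    exact lt_irrefl _ hab

lemma centerIdeal_ne_bot (P : Place (algebraMap ℂ F))
    (hle : ∀ b : B, P.v (algebraMap B F b) ≤ 1) : centerIdeal P hle ≠ ⊥ := by
  intro hbot
  have hone : ∀ b : B, b ≠ 0 → P.v (algebraMap B F b) = 1 := by
    intro b hb
    apply le_antisymm (hle b)
    by_contra hcon
    push Not at hcon
    have : b ∈ centerIdeal P hle := hcon
    rw [hbot, Ideal.mem_bot] at this
    exact hb this
  obtain ⟨x, hx⟩ := P.exists_v_eq 1
  obtain ⟨a, b, hb, rfl⟩ := IsFractionRing.div_surjective (A := B) x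
  have hb0 : b ≠ 0 := nonZeroDivisors.ne_zero hb
  have ha0 : a ≠ 0 := by
    rintro rfl
    simp at hx
    exact absurd hx.symm (WithZero.exp_ne_zero)
  rw [map_div₀, hone a ha0, hone b hb0, div_one] at hx
  have : (1 : WithZero (Multiplicative ℤ)) = exp 0 := by simp
  rw [this, exp_inj] at hx
  omega

/-- Every place nonnegative on `B` is an adic valuation of `B`. -/
theorem exists_spec (P : Place (algebraMap ℂ F)) (hle : ∀ b : B, P.v (algebraMap B F b) ≤ 1) :
    ∃ p : HeightOneSpectrum B, P.v = p.valuation F := by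
  let p : HeightOneSpectrum B :=
    ⟨centerIdeal P hle, centerIdeal_isPrime P hle, centerIdeal_ne_bot P hle⟩
  have hmem : ∀ b : B, b ∈ p.asIdeal ↔ P.v (algebraMap B F b) < 1 := fun b => Iff.rfl
  -- integers of `p` are integers of `P`
  have hint : ∀ x : F, p.valuation F x ≤ 1 → P.v x ≤ 1 := by
    intro x hx
    obtain ⟨n, d, hnd⟩ := p.exists_primeCompl_mul_eq_of_integer (K := F) x hx
    have hd : P.v (algebraMap B F d) = 1 := by
      apply le_antisymm (hle _)
      by_contra hcon
      push Not at hcon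
      exact d.2 ((hmem _).2 hcon)
    have h1 := congrArg P.v hnd
    rw [map_mul, hd, mul_one] at h1
    rw [h1]
    exact hle n
  have hunit : ∀ x : F, p.valuation F x = 1 → P.v x = 1 := by
    intro x hx
    apply le_antisymm (hint x hx.le)
    have h1 : p.valuation F x⁻¹ ≤ 1 := by rw [map_inv₀, hx, inv_one]
    have h2 := hint _ h1
    have hx0 : x ≠ 0 := by rintro rfl; simp at hx
    rw [map_inv₀] at h2
    have h3 : P.v x ≠ 0 := (Valuation.ne_zero_iff _).2 hx0
    rwa [inv_le_one₀ (zero_lt_iff.2 h3)] at h2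
  obtain ⟨π, hπ'⟩ := p.valuation_exists_uniformizer' F
  have hπ : p.valuation F (algebraMap B F π) = exp (-1) := hπ'
  have hπ0 : algebraMap B F π ≠ 0 := by
    intro h0
    rw [h0, map_zero] at hπ
    exact WithZero.exp_ne_zero hπ.symm
  have hdecomp : ∀ x : F, x ≠ 0 → P.v x = (P.v (algebraMap B F π)) ^ (- log (p.valuation F x)) := by
    intro x hx
    have hvx : p.valuation F x ≠ 0 := (Valuation.ne_zero_iff _).2 hx
    have h1 : p.valuation F (x * (algebraMap B F π) ^ (log (p.valuation F x))) = 1 := by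
      rw [map_mul, map_zpow₀, hπ]
      conv_lhs => rw [← exp_log hvx]
      rw [← exp_zsmul, ← exp_add, log_exp]
      simp
    have h2 := hunit _ h1
    rw [map_mul, map_zpow₀] at h2
    rw [zpow_neg]
    exact eq_inv_of_mul_eq_one_left h2
  have hlog : log (P.v (algebraMap B F π)) = -1 := by
    have hlt : P.v (algebraMap B F π) < 1 := by
      rw [← hmem]
      rw [← HeightOneSpectrum.valuation_lt_one_iff_mem (K := F), hπ]
      rw [show (1 : WithZero (Multiplicative ℤ)) = exp 0 by simp, exp_lt_exp]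
      norm_num
    have hw0 : P.v (algebraMap B F π) ≠ 0 := (Valuation.ne_zero_iff _).2 hπ0
    have hneg : log (P.v (algebraMap B F π)) < 0 := by
      rw [← log_one, log_lt_log hw0 one_ne_zero]
      exact hlt
    obtain ⟨x, hx⟩ := P.exists_v_eq 1
    have hx0 : x ≠ 0 := by
      rintro rfl
      rw [map_zero] at hx
      exact WithZero.exp_ne_zero hx.symm
    have h1 := hdecomp x hx0
    rw [hx] at h1
    have h2 := congrArg log h1
    rw [log_exp, log_zpow] at h2
    rw [smul_eq_mul] at h2
    have h3 := Int.eq_one_or_neg_one_of_mul_eq_one h2.symm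
    have h4 : log (P.v (algebraMap B F π)) ∣ 1 := ⟨_, by rw [mul_comm]; exact h2⟩
    have h5 := Int.isUnit_iff.1 (isUnit_of_dvd_one h4)
    omega
  refine ⟨p, ?_⟩
  ext x
  rcases eq_or_ne x 0 with rfl | hx
  · simp
  · have hvx : p.valuation F x ≠ 0 := (Valuation.ne_zero_iff _).2 hx
    have hw0 : P.v (algebraMap B F π) ≠ 0 := (Valuation.ne_zero_iff _).2 hπ0
    rw [hdecomp x hx]
    conv_lhs => rw [← exp_log hw0, hlog, ← exp_zsmul]
    conv_rhs => rw [← exp_log hvx]
    congr 1
    simp

end Generic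

end Pool.Agent.Work.MP_eb613f_ag
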