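import Mathlib
import Pool.Agent.Work.MP_eb613f_ag.FF1

open IsDedekindDomain WithZero

namespace Pool.Agent.Work.MP_eb613f_ag

section Generic2

variable {A B F : Type} [CommRing A] [IsDomain A] [CommRing B] [IsDedekindDomain B] [Field F]
  [Algebra A B] [Algebra B F] [Algebra A F] [IsScalarTower A B F] [IsFractionRing B F]
  [Algebra ℂ A] [Algebra ℂ B] [Algebra ℂ F] [IsScalarTower ℂ A B] [IsScalarTower ℂ B F]

/-- The place attached to a prime of `B`. -/
noncomputable def ofSpec (p : HeightOneSpectrum B) : Place (algebraMap ℂ F) where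
  v := p.valuation F
  surj := p.valuation_surjective F
  triv z hz := by
    rw [IsScalarTower.algebraMap_apply ℂ B F, HeightOneSpectrum.valuation_eq_one_iff_notMem]
    intro hmem
    have hu : IsUnit (algebraMap ℂ B z) := (IsUnit.mk0 z hz).map _
    exact p.isPrime.ne_top (Ideal.eq_top_of_isUnit_mem _ hmem hu)

omit [IsDomain A] [IsDedekindDomain B] [IsFractionRing B F] in
/-- A place nonnegative on `A` is nonnegative on the integral extension `B`. -/
lemma le_one_of_integral [Algebra.IsIntegral A B] (P : Place (algebraMap ℂ F))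
    (hA : ∀ a : A, P.v (algebraMap A F a) ≤ 1) (b : B) : P.v (algebraMap B F b) ≤ 1 := by
  let f : A →+* P.v.integer := (algebraMap A F).codRestrict _ hA
  let : Algebra A P.v.integer := f.toAlgebra
  have : IsScalarTower A P.v.integer F := IsScalarTower.of_algebraMap_eq fun a => rfl
  have h1 : IsIntegral A (algebraMap B F b) :=
    (Algebra.IsIntegral.isIntegral (R := A) b).map (IsScalarTower.toAlgHom A B F)
  have h2 : IsIntegral P.v.integer (algebraMap B F b) := h1.tower_top
  exact (Valuation.integer.integers P.v).mem_of_integral h2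

lemma inertiaDeg_eq_one [Module.Finite A B] (x : A) (hmax : (Ideal.span {x}).IsMaximal)
    (hres : ∀ a : A, ∃ z : ℂ, a - algebraMap ℂ A z ∈ Ideal.span {x}) (q : Ideal B) [q.IsPrime]
    [q.LiesOver (Ideal.span {x})] : q.inertiaDeg A = 1 := by
  have hqmax : q.IsMaximal := .of_liesOver_isMaximal q (Ideal.span {x})
  rw [Ideal.inertiaDeg_eq_of_isMaximal (Ideal.span {x}) q]
  let : Field (B ⧸ q) := Ideal.Quotient.field q
  let : Field (A ⧸ Ideal.span {x}) := Ideal.Quotient.field _
  have : Algebra.IsIntegral ℂ (A ⧸ Ideal.span {x}) := by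
    refine ⟨fun y => ?_⟩
    obtain ⟨a, rfl⟩ := Ideal.Quotient.mk_surjective y
    obtain ⟨z, hz⟩ := hres a
    have : Ideal.Quotient.mk (Ideal.span {x}) a = algebraMap ℂ (A ⧸ Ideal.span {x}) z := by
      rw [IsScalarTower.algebraMap_apply ℂ A (A ⧸ Ideal.span {x}), Ideal.Quotient.algebraMap_eq,
        Ideal.Quotient.eq]
      exact hz
    rw [this]
    exact isIntegral_algebraMap
  have : Algebra.IsIntegral ℂ (B ⧸ q) := Algebra.IsIntegral.trans (A ⧸ Ideal.span {x})
  apply finrank_eq_one (1 : B ⧸ q) one_ne_zero
  intro w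
  obtain ⟨z, hz⟩ := (IsAlgClosed.algebraMap_bijective_of_isIntegral (k := ℂ) (K := B ⧸ q)).2 w
  refine ⟨algebraMap ℂ (A ⧸ Ideal.span {x}) z, ?_⟩
  rw [Algebra.smul_def, mul_one, ← IsScalarTower.algebraMap_apply, hz]

variable (B F) in
/-- The places with a zero at `x` are the primes of `B` over `(x)`. -/
theorem zeros_sum [Module.Finite A B] [Module.Flat A B] (x : A) (hx0 : algebraMap A B x ≠ 0)
    (hmax : (Ideal.span {x}).IsMaximal)
    (hres : ∀ a : A, ∃ z : ℂ, a - algebraMap ℂ A z ∈ Ideal.span {x})
    (hA : ∀ P : Place (algebraMap ℂ F), P.v (algebraMap A F x) < 1 →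
      ∀ a : A, P.v (algebraMap A F a) ≤ 1) :
    {P : Place (algebraMap ℂ F) | P.v (algebraMap A F x) < 1}.Finite ∧
      ∑ᶠ P ∈ {P : Place (algebraMap ℂ F) | P.v (algebraMap A F x) < 1},
        P.ord (algebraMap A F x) = Module.finrank A B := by
  classical
  set I : Ideal A := Ideal.span {x} with hI
  have hfin : (I.primesOver B).Finite := Algebra.QuasiFinite.finite_primesOver I
  let _ : Fintype (I.primesOver B) := hfin.fintype
  have hxI : x ∈ I := Ideal.mem_span_singleton_self x
  have hxq : ∀ q : I.primesOver B, algebraMap A B x ∈ q.1 := fun q => by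
    have := (Ideal.mem_of_liesOver q.1 I x).1 hxI
    exact this
  let toSp : I.primesOver B → HeightOneSpectrum B := fun q =>
    ⟨q.1, q.2.1, by
      intro h0
      have := hxq q
      rw [h0, Ideal.mem_bot] at this
      exact hx0 this⟩
  let Ψ : I.primesOver B → Place (algebraMap ℂ F) := fun q => ofSpec (toSp q)
  have hΨ : ∀ q, (Ψ q).v = (toSp q).valuation F := fun q => rfl
  have hinj : Function.Injective Ψ := by
    intro q q' h
    have h1 : (toSp q).valuation F = (toSp q').valuation F := by
      rw [← hΨ, ← hΨ, h]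
    have h2 : toSp q = toSp q' := by
      apply HeightOneSpectrum.eq_of_valuation_isEquiv_valuation (K := F)
      rw [h1]
    apply Subtype.ext
    exact congrArg HeightOneSpectrum.asIdeal h2
  have hrange : Set.range Ψ = {P : Place (algebraMap ℂ F) | P.v (algebraMap A F x) < 1} := by
    ext P
    constructor
    · rintro ⟨q, rfl⟩
      change (Ψ q).v (algebraMap A F x) < 1
      rw [hΨ, IsScalarTower.algebraMap_apply A B F]
      rw [HeightOneSpectrum.valuation_lt_one_iff_mem]
      exact hxq q
    · intro hP
      have hP' : P.v (algebraMap A F x) < 1 := hP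
      have hB := le_one_of_integral (B := B) P (hA P hP')
      obtain ⟨p, hp⟩ := exists_spec P hB
      have hxp : algebraMap A B x ∈ p.asIdeal := by
        rw [← HeightOneSpectrum.valuation_lt_one_iff_mem (K := F), ← hp]
        rw [IsScalarTower.algebraMap_apply A B F] at hP'
        exact hP'
      have hover : p.asIdeal.LiesOver I := by
        constructor
        apply hmax.eq_of_le
        · exact Ideal.IsPrime.ne_top (Ideal.IsPrime.under A p.asIdeal)
        · rw [hI, Ideal.span_le]
          intro y hy
          rw [Set.mem_singleton_iff] at hy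
          rw [hy]
          exact hxp
      refine ⟨⟨p.asIdeal, p.isPrime, hover⟩, ?_⟩
      cases P with
      | mk v s t =>
        have : v = p.valuation F := hp
        subst this
        rfl
  have hord : ∀ q : I.primesOver B, (Ψ q).ord (algebraMap A F x) = (q.1.ramificationIdx A : ℤ) := by
    intro q
    have hmapI : I.map (algebraMap A B) = Ideal.span {algebraMap A B x} := by
      rw [hI, Ideal.map_span, Set.image_singleton]
    have hne : I.map (algebraMap A B) ≠ ⊥ := by
      rw [hmapI]
      simpa using hx0
    have hqp : q.1.IsPrime := q.2.1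
    have hql : q.1.LiesOver I := q.2.2
    unfold Place.ord
    rw [hΨ, IsScalarTower.algebraMap_apply A B F]
    have h1 : (toSp q).valuation F (algebraMap B F (algebraMap A B x)) =
        (toSp q).intValuation (algebraMap A B x) := (toSp q).valuation_of_algebraMap _
    rw [h1, (toSp q).intValuation_eq_exp_neg_multiplicity hx0, log_exp, neg_neg,
      Ideal.IsDedekindDomain.ramificationIdx_eq_multiplicity I q.1 hne, hmapI]
  constructor
  · rw [← hrange]
    exact Set.finite_range Ψ
  · rw [← hrange, finsum_mem_range hinj, finsum_eq_sum_of_fintype]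
    rw [← Ideal.sum_ramification_inertia_eq_finrank I B]
    push_cast
    apply Finset.sum_congr rfl
    intro q _
    have hqp : q.1.IsPrime := q.2.1
    have hql : q.1.LiesOver (Ideal.span {x}) := q.2.2
    rw [hord q, inertiaDeg_eq_one x hmax hres q.1]
    simp

end Generic2

end Pool.Agent.Work.MP_eb613f_ag
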