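import Mathlib
import Pool.Agent.Work.MP_eb613f_ag.FF2

open IsDedekindDomain WithZero

namespace Pool.Agent.Work.MP_eb613f_ag

section Special

variable {F : Type} [Field F] [Algebra ℂ F]

open IntermediateField in
/-- `F` is finite over the field generated by a transcendental element. -/
lemma finiteDimensional_adjoin_of_transcendental (htr : Algebra.trdeg ℂ F = 1)
    (hfg : (⊤ : IntermediateField ℂ F).FG) (g : F) (hg : Transcendental ℂ g) :
    FiniteDimensional ℂ⟮g⟯ F := by
  have hind : AlgebraicIndependent ℂ (fun _ : Unit => g) :=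
    algebraicIndependent_unique_type_iff.2 hg
  have htb : IsTranscendenceBasis ℂ (fun _ : Unit => g) :=
    hind.isTranscendenceBasis_of_trdeg_le_of_finite (by rw [htr]; simp)
  have halg := htb.isAlgebraic_field
  rw [Set.range_const] at halg
  obtain ⟨S, hS⟩ := hfg
  have htop : IntermediateField.adjoin ℂ⟮g⟯ (S : Set F) = ⊤ :=
    adjoin_eq_top_of_adjoin_eq_top ℂ hS
  have hfin : FiniteDimensional ℂ⟮g⟯ (IntermediateField.adjoin ℂ⟮g⟯ (S : Set F)) :=
    finiteDimensional_adjoin fun x _ => (Algebra.IsAlgebraic.isAlgebraic x).isIntegral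
  rw [htop] at hfin
  exact Module.Finite.equiv (IntermediateField.topEquiv (F := ℂ⟮g⟯) (E := F)).toLinearEquiv

open IntermediateField algebraAdjoinAdjoin in
/-- Number of zeros of a transcendental element, counted with multiplicity. -/
theorem zeros_eq (htr : Algebra.trdeg ℂ F = 1) (hfg : (⊤ : IntermediateField ℂ F).FG) (g : F)
    (hg : Transcendental ℂ g) :
    {P : Place (algebraMap ℂ F) | P.v g < 1}.Finite ∧
      ∑ᶠ P ∈ {P : Place (algebraMap ℂ F) | P.v g < 1}, P.ord g =
        (Module.finrank ℂ⟮g⟯ F : ℤ) := by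
  have hfd := finiteDimensional_adjoin_of_transcendental htr hfg g hg
  let x : Algebra.adjoin ℂ {g} := ⟨g, Algebra.self_mem_adjoin_singleton ℂ g⟩
  have hsurj : Function.Surjective (Polynomial.aeval (R := ℂ) x) := by
    rintro ⟨y, hy⟩
    rw [Algebra.adjoin_singleton_eq_range_aeval] at hy
    obtain ⟨p, hp⟩ := hy
    refine ⟨p, Subtype.ext ?_⟩
    have h1 : ((Polynomial.aeval x p : Algebra.adjoin ℂ {g}) : F) = Polynomial.aeval g p := by
      have := Polynomial.aeval_algHom_apply (Algebra.adjoin ℂ {g}).val x p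
      exact this.symm
    rw [h1]
    exact hp
  have hPIR : IsPrincipalIdealRing (Algebra.adjoin ℂ {g}) :=
    IsPrincipalIdealRing.of_surjective (Polynomial.aeval (R := ℂ) x).toRingHom hsurj
  have hDD : IsDedekindDomain (Algebra.adjoin ℂ {g}) := inferInstance
  have hB : IsDedekindDomain (integralClosure (Algebra.adjoin ℂ {g}) F) :=
    integralClosure.isDedekindDomain (Algebra.adjoin ℂ {g}) ℂ⟮g⟯ F
  have hBF : IsFractionRing (integralClosure (Algebra.adjoin ℂ {g}) F) F :=
    integralClosure.isFractionRing_of_finite_extension ℂ⟮g⟯ F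
  have hfin : Module.Finite (Algebra.adjoin ℂ {g}) (integralClosure (Algebra.adjoin ℂ {g}) F) :=
    IsIntegralClosure.finite (Algebra.adjoin ℂ {g}) ℂ⟮g⟯ F
      (integralClosure (Algebra.adjoin ℂ {g}) F)
  have hfree : Module.Free (Algebra.adjoin ℂ {g}) (integralClosure (Algebra.adjoin ℂ {g}) F) :=
    IsIntegralClosure.module_free (Algebra.adjoin ℂ {g}) ℂ⟮g⟯ F
      (integralClosure (Algebra.adjoin ℂ {g}) F)
  have hrank : Module.finrank (Algebra.adjoin ℂ {g}) (integralClosure (Algebra.adjoin ℂ {g}) F) =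
      Module.finrank ℂ⟮g⟯ F :=
    IsIntegralClosure.rank (Algebra.adjoin ℂ {g}) ℂ⟮g⟯ F
      (integralClosure (Algebra.adjoin ℂ {g}) F)
  have hg0 : g ≠ 0 := by
    rintro rfl
    exact hg (isAlgebraic_zero)
  have hres : ∀ a : Algebra.adjoin ℂ {g},
      ∃ z : ℂ, a - algebraMap ℂ (Algebra.adjoin ℂ {g}) z ∈ Ideal.span {x} := by
    intro a
    obtain ⟨p, rfl⟩ := hsurj a
    refine ⟨p.eval 0, ?_⟩
    rw [Ideal.mem_span_singleton]
    have h1 : (Polynomial.X : Polynomial ℂ) ∣ p - Polynomial.C (p.eval 0) := by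
      rw [Polynomial.X_dvd_iff]
      simp [Polynomial.coeff_zero_eq_eval_zero]
    obtain ⟨q, hq⟩ := h1
    refine ⟨Polynomial.aeval x q, ?_⟩
    have h2 := congrArg (Polynomial.aeval x) hq
    rw [map_sub, Polynomial.aeval_C, map_mul, Polynomial.aeval_X] at h2
    exact h2
  have hmax : (Ideal.span {x}).IsMaximal := by
    rw [Ideal.isMaximal_iff]
    constructor
    · intro h1
      rw [Ideal.mem_span_singleton] at h1
      obtain ⟨a, ha⟩ := h1
      obtain ⟨p, rfl⟩ := hsurj a
      have h2 : Polynomial.aeval x (Polynomial.X * p - 1) = 0 := by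
        rw [map_sub, map_mul, Polynomial.aeval_X, map_one, ← ha, sub_self]
      have h3 : Polynomial.aeval g (Polynomial.X * p - 1) = 0 := by
        have := Polynomial.aeval_algHom_apply (Algebra.adjoin ℂ {g}).val x (Polynomial.X * p - 1)
        rw [h2, map_zero] at this
        exact this
      have h4 : (Polynomial.X * p - 1 : Polynomial ℂ) ≠ 0 := by
        intro h0
        have := congrArg (Polynomial.eval 0) h0
        simp at this
      exact hg ⟨_, h4, h3⟩
    · intro J y hJ hyI hyJ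
      obtain ⟨z, hz⟩ := hres y
      have hz0 : z ≠ 0 := by
        rintro rfl
        rw [map_zero, sub_zero] at hz
        exact hyI hz
      have h1 : algebraMap ℂ (Algebra.adjoin ℂ {g}) z ∈ J := by
        have := J.sub_mem hyJ (hJ hz)
        rwa [sub_sub_cancel] at this
      have h2 : IsUnit (algebraMap ℂ (Algebra.adjoin ℂ {g}) z) := (IsUnit.mk0 z hz0).map _
      rw [Ideal.eq_top_of_isUnit_mem _ h1 h2]
      trivial
  have hA : ∀ P : Place (algebraMap ℂ F), P.v (algebraMap (Algebra.adjoin ℂ {g}) F x) < 1 →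
      ∀ a : Algebra.adjoin ℂ {g}, P.v (algebraMap (Algebra.adjoin ℂ {g}) F a) ≤ 1 := by
    rintro P hP ⟨a, ha⟩
    change P.v a ≤ 1
    change P.v g < 1 at hP
    induction ha using Algebra.adjoin_induction with
    | mem y hy =>
      rw [Set.mem_singleton_iff] at hy
      rw [hy]
      exact hP.le
    | algebraMap z =>
      rcases eq_or_ne z 0 with rfl | hz
      · simp
      · rw [P.triv z hz]
    | add y z _ _ hy hz => exact (P.v.map_add _ _).trans (max_le hy hz)
    | mul y z _ _ hy hz =>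
      rw [map_mul]
      exact mul_le_one' hy hz
  have hx0 : algebraMap (Algebra.adjoin ℂ {g}) (integralClosure (Algebra.adjoin ℂ {g}) F) x ≠ 0 := by
    intro h0
    have h1 := congrArg (algebraMap (integralClosure (Algebra.adjoin ℂ {g}) F) F) h0
    rw [← IsScalarTower.algebraMap_apply, map_zero] at h1
    exact hg0 h1
  have := zeros_sum (integralClosure (Algebra.adjoin ℂ {g}) F) F x hx0 hmax hres hA
  rw [hrank] at this
  exact this

lemma transcendental_of_notMem_range (g : F) (hg : g ∉ (algebraMap ℂ F).range) :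
    Transcendental ℂ g := by
  intro halg
  apply hg
  have hint : IsIntegral ℂ g := halg.isIntegral
  have hdeg : (minpoly ℂ g).degree = 1 :=
    IsAlgClosed.degree_eq_one_of_irreducible ℂ (minpoly.irreducible hint)
  exact minpoly.mem_range_of_degree_eq_one ℂ g hdeg

lemma Place.ord_algebraMap (P : Place (algebraMap ℂ F)) (z : ℂ) :
    P.ord (algebraMap ℂ F z) = 0 := by
  unfold Place.ord
  rcases eq_or_ne z 0 with rfl | hz
  · simp
  · rw [P.triv z hz]
    simp

lemma Place.v_ne_zero (P : Place (algebraMap ℂ F)) {g : F} (hg : g ≠ 0) : P.v g ≠ 0 :=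
  (Valuation.ne_zero_iff _).2 hg

lemma Place.ord_inv (P : Place (algebraMap ℂ F)) (g : F) : P.ord g⁻¹ = - P.ord g := by
  unfold Place.ord
  rw [map_inv₀, log_inv]

lemma Place.v_inv_lt_one_iff (P : Place (algebraMap ℂ F)) {g : F} (hg : g ≠ 0) :
    P.v g⁻¹ < 1 ↔ 1 < P.v g := by
  rw [map_inv₀, inv_lt_one₀ (zero_lt_iff.2 (P.v_ne_zero hg))]

lemma Place.ord_ne_zero (P : Place (algebraMap ℂ F)) {g : F} (hg : g ≠ 0) (h : P.ord g ≠ 0) :
    P.v g < 1 ∨ P.v g⁻¹ < 1 := by
  rw [P.v_inv_lt_one_iff hg]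
  rcases lt_trichotomy (P.v g) 1 with h1 | h1 | h1
  · exact Or.inl h1
  · exfalso
    apply h
    unfold Place.ord
    rw [h1]
    simp
  · exact Or.inr h1

open IntermediateField in
lemma adjoin_inv_eq (g : F) : ℂ⟮g⁻¹⟯ = ℂ⟮g⟯ := by
  apply le_antisymm
  · rw [adjoin_simple_le_iff]
    exact inv_mem (mem_adjoin_simple_self ℂ g)
  · rw [adjoin_simple_le_iff]
    have := inv_mem (mem_adjoin_simple_self ℂ g⁻¹)
    rwa [inv_inv] at this

lemma transcendental_inv {g : F} (hg : Transcendental ℂ g) : Transcendental ℂ g⁻¹ := by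
  intro h
  exact hg ((IsAlgebraic.inv_iff).1 h)

theorem Place.finite_ord_ne_zero {F : Type} [Field F] [Algebra ℂ F]
    (htr : Algebra.trdeg ℂ F = 1) (hfg : (⊤ : IntermediateField ℂ F).FG) (g : F) (hg : g ≠ 0) :
    {P : Place (algebraMap ℂ F) | P.ord g ≠ 0}.Finite := by
  by_cases hr : g ∈ (algebraMap ℂ F).range
  · obtain ⟨z, rfl⟩ := hr
    have : {P : Place (algebraMap ℂ F) | P.ord (algebraMap ℂ F z) ≠ 0} = ∅ := by
      ext P
      simp [P.ord_algebraMap z]
    rw [this]
    exact Set.finite_empty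
  · have ht := transcendental_of_notMem_range g hr
    have h1 := (zeros_eq htr hfg g ht).1
    have h2 := (zeros_eq htr hfg g⁻¹ (transcendental_inv ht)).1
    refine (h1.union h2).subset ?_
    intro P hP
    exact P.ord_ne_zero hg hP

/-- Zeros and poles of a nonconstant element. -/
lemma zeros_poles {F : Type} [Field F] [Algebra ℂ F]
    (htr : Algebra.trdeg ℂ F = 1) (hfg : (⊤ : IntermediateField ℂ F).FG) (g : F)
    (ht : Transcendental ℂ g) :
    (∑ᶠ P ∈ {P : Place (algebraMap ℂ F) | P.v g < 1}, P.ord g) +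
      (∑ᶠ P ∈ {P : Place (algebraMap ℂ F) | P.v g⁻¹ < 1}, P.ord g) = 0 ∧
    0 < ∑ᶠ P ∈ {P : Place (algebraMap ℂ F) | P.v g⁻¹ < 1}, P.ord g⁻¹ := by
  have h1 := zeros_eq htr hfg g ht
  have h2 := zeros_eq htr hfg g⁻¹ (transcendental_inv ht)
  have hfd := finiteDimensional_adjoin_of_transcendental htr hfg g⁻¹ (transcendental_inv ht)
  have hpos : 0 < Module.finrank (IntermediateField.adjoin ℂ {g⁻¹}) F := Module.finrank_pos
  constructor
  · have h3 : ∑ᶠ P ∈ {P : Place (algebraMap ℂ F) | P.v g⁻¹ < 1}, P.ord g =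
        - ∑ᶠ P ∈ {P : Place (algebraMap ℂ F) | P.v g⁻¹ < 1}, P.ord g⁻¹ := by
      rw [← finsum_mem_neg_distrib _ h2.1]
      refine finsum_mem_congr rfl fun P _ => ?_
      rw [P.ord_inv, neg_neg]
    rw [h3, h1.2, h2.2, adjoin_inv_eq, add_neg_cancel]
  · rw [h2.2]
    exact_mod_cast hpos

theorem Place.finsum_ord_eq_zero {F : Type} [Field F] [Algebra ℂ F]
    (htr : Algebra.trdeg ℂ F = 1) (hfg : (⊤ : IntermediateField ℂ F).FG) (g : F) (hg : g ≠ 0) :
    ∑ᶠ P : Place (algebraMap ℂ F), P.ord g = 0 := by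
  classical
  by_cases hr : g ∈ (algebraMap ℂ F).range
  · obtain ⟨z, rfl⟩ := hr
    simp [Place.ord_algebraMap]
  · have ht := transcendental_of_notMem_range g hr
    have h1 := (zeros_eq htr hfg g ht).1
    have h2 := (zeros_eq htr hfg g⁻¹ (transcendental_inv ht)).1
    have h3 := (zeros_poles htr hfg g ht).1
    rw [finsum_mem_eq_finite_toFinset_sum _ h1, finsum_mem_eq_finite_toFinset_sum _ h2] at h3
    have hsub : Function.support (fun P : Place (algebraMap ℂ F) => P.ord g) ⊆
        ((h1.toFinset ∪ h2.toFinset : Finset (Place (algebraMap ℂ F))) :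
          Set (Place (algebraMap ℂ F))) := by
      intro P hP
      rw [Finset.coe_union, Set.Finite.coe_toFinset, Set.Finite.coe_toFinset]
      exact P.ord_ne_zero hg hP
    rw [finsum_eq_sum_of_support_subset _ hsub, Finset.sum_union, h3]
    rw [Finset.disjoint_left]
    intro P hP hP'
    rw [Set.Finite.mem_toFinset] at hP hP'
    have hP2 : P.v g < 1 := hP
    have hP3 : P.v g⁻¹ < 1 := hP'
    rw [P.v_inv_lt_one_iff hg] at hP3
    exact lt_asymm hP2 hP3

theorem Place.exists_ord_neg {F : Type} [Field F] [Algebra ℂ F]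
    (htr : Algebra.trdeg ℂ F = 1) (hfg : (⊤ : IntermediateField ℂ F).FG) (g : F)
    (hg : g ∉ (algebraMap ℂ F).range) : ∃ P : Place (algebraMap ℂ F), P.ord g < 0 := by
  have ht := transcendental_of_notMem_range g hg
  have h3 := (zeros_poles htr hfg g ht).2
  have hg0 : g ≠ 0 := by
    rintro rfl
    exact hg ⟨0, map_zero _⟩
  by_contra hcon
  push Not at hcon
  have : ∑ᶠ P ∈ {P : Place (algebraMap ℂ F) | P.v g⁻¹ < 1}, P.ord g⁻¹ ≤ 0 := by
    have h2 := (zeros_eq htr hfg g⁻¹ (transcendental_inv ht)).1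
    rw [finsum_mem_eq_finite_toFinset_sum _ h2]
    apply Finset.sum_nonpos
    intro P _
    rw [P.ord_inv]
    have := hcon P
    omega
  omega

end Special

end Pool.Agent.Work.MP_eb613f_ag
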