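import Mathlib
import Pool.Agent.Work.MP_eb613f_ag.Basic
import Pool.Agent.Work.MP_eb613f_ag.FF

/-!
# Places and evaluation at the generic point of a curve
-/

open AlgebraicGeometry CategoryTheory Limits MvPolynomial TopologicalSpace WithZero

namespace Pool.Agent.Work.MP_eb613f_ag

noncomputable section

/-! ### Places -/

section places

variable {F : Type} [Field F] {φ : ℂ →+* F}

theorem Place.vne (P : Place φ) {x : F} (hx : x ≠ 0) : P.v x ≠ 0 := (map_ne_zero P.v).2 hx

theorem Place.ord_one (P : Place φ) : P.ord 1 = 0 := by simp [Place.ord]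

theorem Place.ord_zero (P : Place φ) : P.ord 0 = 0 := by simp [Place.ord]

theorem Place.ord_mul (P : Place φ) {x y : F} (hx : x ≠ 0) (hy : y ≠ 0) :
    P.ord (x * y) = P.ord x + P.ord y := by
  simp only [Place.ord, map_mul, log_mul (P.vne hx) (P.vne hy)]
  ring

theorem Place.ord_pow (P : Place φ) (x : F) (n : ℕ) : P.ord (x ^ n) = n * P.ord x := by
  simp only [Place.ord, map_pow, log_pow, nsmul_eq_mul]
  ring

theorem Place.v_le_v (P : Place φ) {x y : F} (hx : x ≠ 0) (hy : y ≠ 0) :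
    P.v x ≤ P.v y ↔ P.ord y ≤ P.ord x := by
  rw [← log_le_log (P.vne hx) (P.vne hy)]
  simp only [Place.ord]
  omega

theorem Place.v_lt_v (P : Place φ) {x y : F} (hx : x ≠ 0) (hy : y ≠ 0) :
    P.v x < P.v y ↔ P.ord y < P.ord x := by
  rw [← log_lt_log (P.vne hx) (P.vne hy)]
  simp only [Place.ord]
  omega

theorem Place.v_le_one (P : Place φ) {x : F} (hx : x ≠ 0) : P.v x ≤ 1 ↔ 0 ≤ P.ord x := by
  have := P.v_le_v hx one_ne_zero
  rwa [map_one, P.ord_one] at this

theorem Place.v_lt_one (P : Place φ) {x : F} (hx : x ≠ 0) : P.v x < 1 ↔ 0 < P.ord x := by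
  have := P.v_lt_v hx one_ne_zero
  rwa [map_one, P.ord_one] at this

theorem Place.v_le_exp (P : Place φ) {x : F} (hx : x ≠ 0) (n : ℤ) :
    P.v x ≤ exp (-n) ↔ n ≤ P.ord x := by
  rw [← log_le_iff_le_exp (P.vne hx)]
  simp only [Place.ord]
  omega

theorem Place.v_cst (P : Place φ) (z : ℂ) : P.v (φ z) ≤ 1 := by
  by_cases hz : z = 0
  · simp [hz]
  · exact (P.triv z hz).le

/-- the valuation subring, as a subring -/
def Place.ring (P : Place φ) : Subring F := P.v.integer

theorem Place.mem_ring (P : Place φ) {x : F} : x ∈ P.ring ↔ P.v x ≤ 1 := Iff.rfl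

theorem Place.mem_ring_of_isIntegral (P : Place φ) {x : F} (hx : IsIntegral P.ring x) :
    x ∈ P.ring :=
  (Valuation.integer.integers P.v).mem_of_integral hx

/-- the maximum of the pole orders of a family -/
theorem Place.exists_max (P : Place φ) {n : ℕ} (u : Fin (n + 1) → F) {a : Fin (n + 1)}
    (ha : u a = 1) : ∃ b₀, u b₀ ≠ 0 ∧ (∀ b, P.v (u b) ≤ P.v (u b₀)) := by
  obtain ⟨b₀, -, hb₀⟩ := Finset.exists_max_image (Finset.univ : Finset (Fin (n + 1)))
    (fun b => P.v (u b)) Finset.univ_nonempty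
  refine ⟨b₀, ?_, fun b => hb₀ b (Finset.mem_univ b)⟩
  intro h0
  have := hb₀ a (Finset.mem_univ a)
  simp [h0, ha] at this

theorem Place.sup'_eq (P : Place φ) {n : ℕ} (u : Fin (n + 1) → F) {a b₀ : Fin (n + 1)}
    (ha : u a = 1) (hb₀ : u b₀ ≠ 0) (hmax : ∀ b, P.v (u b) ≤ P.v (u b₀)) :
    (((Finset.univ.sup' (Finset.univ_nonempty (α := Fin (n + 1)))
      (fun b => - P.ord (u b))).toNat : ℕ) : ℤ) = - P.ord (u b₀) := by
  have h1 : P.ord (u b₀) ≤ 0 := by
    have := hmax a
    rw [ha, P.v_le_v one_ne_zero hb₀, P.ord_one] at this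
    exact this
  have h2 : Finset.univ.sup' (Finset.univ_nonempty (α := Fin (n + 1)))
      (fun b => - P.ord (u b)) = - P.ord (u b₀) := by
    apply le_antisymm
    · apply Finset.sup'_le
      intro b _
      by_cases hb : u b = 0
      · rw [hb, P.ord_zero]; omega
      · have := (P.v_le_v hb hb₀).1 (hmax b)
        omega
    · exact Finset.le_sup' (fun b => - P.ord (u b)) (Finset.mem_univ b₀)
  rw [h2, Int.toNat_of_nonneg (by omega)]

end places

/-! ### Finiteness for places in terms of `φ` -/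

section field

variable {F : Type} [Field F] (φ : ℂ →+* F)

theorem finite_ord (htr : @Algebra.trdeg ℂ F _ _ φ.toAlgebra = 1)
    (hfg : @IntermediateField.FG ℂ _ F _ φ.toAlgebra ⊤) (g : F) (hg : g ≠ 0) :
    {P : Place φ | P.ord g ≠ 0}.Finite := by
  let := φ.toAlgebra
  exact Place.finite_ord_ne_zero (F := F) htr hfg g hg

theorem finsum_ord (htr : @Algebra.trdeg ℂ F _ _ φ.toAlgebra = 1)
    (hfg : @IntermediateField.FG ℂ _ F _ φ.toAlgebra ⊤) (g : F) (hg : g ≠ 0) :
    ∑ᶠ P : Place φ, P.ord g = 0 := by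
  let := φ.toAlgebra
  exact Place.finsum_ord_eq_zero (F := F) htr hfg g hg

theorem exists_ord_neg (htr : @Algebra.trdeg ℂ F _ _ φ.toAlgebra = 1)
    (hfg : @IntermediateField.FG ℂ _ F _ φ.toAlgebra ⊤) (g : F) (hg : g ∉ φ.range) :
    ∃ P : Place φ, P.ord g < 0 := by
  let := φ.toAlgebra
  exact Place.exists_ord_neg (F := F) htr hfg g hg

end field

/-! ### Evaluation -/

section evaluation

variable {r : ℕ} {Y : Scheme.{0}}

/-- evaluation at a point of functions on a chart -/
def ev (f : Y ⟶ PP r) (c : Y) (a : Fin (r + 1)) (h : c ∈ chart f a) :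
    Γ(Y, chart f a) →+* Y.residueField c :=
  (Y.evaluation (chart f a) c h).hom

variable (f : Y ⟶ PP r) (c : Y)

theorem ev_crd (a b : Fin (r + 1)) (h : c ∈ chart f a) : ev f c a h (crd f a b) = ratio f c a b h :=
  rfl

theorem ev_cst_chart (a : Fin (r + 1)) (h : c ∈ chart f a) (z : ℂ) :
    ev f c a h (cst f (chart f a) z) = constants f c z := by
  simp only [cst, RingHom.comp_apply, constants, ev]
  exact evaluation_res le_top c h _

theorem ev_eq_zero_iff {a : Fin (r + 1)} (h : c ∈ chart f a) (s : Γ(Y, chart f a)) :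
    ev f c a h s = 0 ↔ c ∉ Y.basicOpen s :=
  Scheme.evaluation_eq_zero_iff_notMem_basicOpen Y c h s

theorem ratio_self {a : Fin (r + 1)} (h : c ∈ chart f a) : ratio f c a a h = 1 := by
  rw [← ev_crd, crd_self, map_one]

theorem ratio_ne_zero_iff {a b : Fin (r + 1)} (h : c ∈ chart f a) :
    ratio f c a b h ≠ 0 ↔ c ∈ chart f b := by
  rw [← ev_crd, Ne, ev_eq_zero_iff, not_not, basicOpen_crd]
  exact ⟨fun h' => h'.2, fun h' => ⟨h, h'⟩⟩

theorem ratio_mul {a b : Fin (r + 1)} (ha : c ∈ chart f a) (hb : c ∈ chart f b)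
    (d : Fin (r + 1)) : ratio f c a b ha * ratio f c b d hb = ratio f c a d ha := by
  have h := congrArg (Y.evaluation (chart f a ⊓ chart f b) c ⟨ha, hb⟩).hom (crd_cocycle f a b d)
  rw [map_mul] at h
  have e1 := evaluation_res (inf_le_left : chart f a ⊓ chart f b ≤ chart f a) c ⟨ha, hb⟩
    (crd f a b)
  have e2 := evaluation_res (inf_le_right : chart f a ⊓ chart f b ≤ chart f b) c ⟨ha, hb⟩
    (crd f b d)
  have e3 := evaluation_res (inf_le_left : chart f a ⊓ chart f b ≤ chart f a) c ⟨ha, hb⟩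
    (crd f a d)
  have e4 : ratio f c a b ha = (Y.evaluation (chart f a ⊓ chart f b) c ⟨ha, hb⟩).hom
    (res inf_le_left (crd f a b)) := e1.symm
  have e5 : ratio f c b d hb = (Y.evaluation (chart f a ⊓ chart f b) c ⟨ha, hb⟩).hom
    (res inf_le_right (crd f b d)) := e2.symm
  have e6 : ratio f c a d ha = (Y.evaluation (chart f a ⊓ chart f b) c ⟨ha, hb⟩).hom
    (res inf_le_left (crd f a d)) := e3.symm
  rw [e4, e5, e6]
  exact h

variable {f} in
theorem IsSec.ev_eq {j : ℕ} {s : Fam f} (hs : IsSec f j s) {a b : Fin (r + 1)}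
    (ha : c ∈ chart f a) (hb : c ∈ chart f b) :
    ev f c a ha (s a) = ratio f c a b ha ^ j * ev f c b hb (s b) := by
  have h := congrArg (Y.evaluation (chart f a ⊓ chart f b) c ⟨ha, hb⟩).hom (hs a b)
  rw [map_mul, map_pow] at h
  have e4 : ratio f c a b ha = (Y.evaluation (chart f a ⊓ chart f b) c ⟨ha, hb⟩).hom
    (res inf_le_left (crd f a b)) :=
    (evaluation_res (inf_le_left : chart f a ⊓ chart f b ≤ chart f a) c ⟨ha, hb⟩
    (crd f a b)).symm
  have e5 : ev f c b hb (s b) = (Y.evaluation (chart f a ⊓ chart f b) c ⟨ha, hb⟩).hom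
    (res inf_le_right (s b)) :=
    (evaluation_res (inf_le_right : chart f a ⊓ chart f b ≤ chart f b) c ⟨ha, hb⟩
    (s b)).symm
  have e6 : ev f c a ha (s a) = (Y.evaluation (chart f a ⊓ chart f b) c ⟨ha, hb⟩).hom
    (res inf_le_left (s a)) :=
    (evaluation_res (inf_le_left : chart f a ⊓ chart f b ≤ chart f a) c ⟨ha, hb⟩
    (s a)).symm
  rw [e4, e5, e6]
  exact h

end evaluation

end

end Pool.Agent.Work.MP_eb613f_ag
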