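import Pool.Agent.Work.MP_eb613f_ag.Curve1

/-!
# The function field of a curve on a finite `P^r`-scheme
-/

open AlgebraicGeometry CategoryTheory Limits MvPolynomial TopologicalSpace WithZero

namespace Pool.Agent.Work.MP_eb613f_ag

noncomputable section

variable {r : ℕ} {Y : Scheme.{0}} (f : Y ⟶ PP r) (c : Y)

theorem app_cst (a : Fin (r + 1)) (z : ℂ) :
    (f.app (PP.chart r a)).hom (cst (𝟙 (PP r)) (PP.chart r a) z) = cst f (chart f a) z := by
  have h := pull_cst (f := 𝟙 (PP r)) (f' := f) f (Category.comp_id f) (U := PP.chart r a)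
    (V := chart f a) le_rfl z
  rw [← h]
  exact (pull_app f _).symm

/-- values of functions coming from `P^r` -/
theorem ev_app_mem {a : Fin (r + 1)} (ha : c ∈ chart f a) (R : Subring (Y.residueField c))
    (hc : ∀ z, constants f c z ∈ R) (hb : ∀ b, ratio f c a b ha ∈ R)
    (q : Γ(PP r, PP.chart r a)) : ev f c a ha ((f.app (PP.chart r a)).hom q) ∈ R := by
  obtain ⟨P, rfl⟩ := exists_polynomial r a q
  rw [hom_eval₂, hom_eval₂, eval₂_eq']
  refine Subring.sum_mem _ fun d _ => Subring.mul_mem _ ?_ (Subring.prod_mem _ fun i _ =>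
    Subring.pow_mem _ ?_ _)
  · simp only [RingHom.comp_apply]
    rw [app_cst, ev_cst_chart]
    exact hc _
  · exact hb i

/-- values of functions at `c` lie in every integrally closed subring containing the constants
and the ratios -/
theorem ev_mem [IsFinite f] {a : Fin (r + 1)} (ha : c ∈ chart f a)
    (R : Subring (Y.residueField c)) (hR : ∀ x : Y.residueField c, IsIntegral R x → x ∈ R)
    (hc : ∀ z, constants f c z ∈ R) (hb : ∀ b, ratio f c a b ha ∈ R) (s : Γ(Y, chart f a)) :
    ev f c a ha s ∈ R := by
  obtain ⟨p, hp, hp0⟩ := f.isIntegral_app (PP.chart r a) (isAffineOpen_chart r a) s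
  apply hR
  let ψ : Γ(PP r, PP.chart r a) →+* R :=
    ((ev f c a ha).comp (f.app (PP.chart r a)).hom).codRestrict R (ev_app_mem f c ha R hc hb)
  refine ⟨p.map ψ, hp.map ψ, ?_⟩
  rw [Polynomial.eval₂_map]
  have h1 : (algebraMap R (Y.residueField c)).comp ψ =
      (ev f c a ha).comp (f.app (PP.chart r a)).hom := by
    ext x
    rfl
  rw [h1, ← Polynomial.hom_eval₂, hp0, map_zero]

/-- the residue field is the field of fractions of the values -/
theorem exists_frac [IsAffineHom f] {a : Fin (r + 1)} (ha : c ∈ chart f a)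
    (x : Y.residueField c) : ∃ s t : Γ(Y, chart f a), ev f c a ha t ≠ 0 ∧
      x * ev f c a ha t = ev f c a ha s := by
  obtain ⟨x', rfl⟩ := Y.residue_surjective c x
  have hU := isAffineOpen_chart' f a
  let := Y.presheaf.algebra_section_stalk (U := chart f a) ⟨c, ha⟩
  have hloc : IsLocalization.AtPrime (Y.presheaf.stalk c) (hU.primeIdealOf ⟨c, ha⟩).asIdeal :=
    hU.isLocalization_stalk ⟨c, ha⟩
  obtain ⟨⟨s, t⟩, h⟩ := IsLocalization.surj (hU.primeIdealOf ⟨c, ha⟩).asIdeal.primeCompl x'
  have ht := IsLocalization.map_units (Y.presheaf.stalk c) t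
  refine ⟨s, t, ?_, ?_⟩
  · exact (ht.map (Y.residue c).hom).ne_zero
  · have := congrArg (Y.residue c).hom h
    rw [map_mul] at this
    exact this

theorem fg_top [IsFinite f] :
    @IntermediateField.FG ℂ _ (Y.residueField c) _ (constants f c).toAlgebra ⊤ := by
  classical
  let := (constants f c).toAlgebra
  obtain ⟨a, ha⟩ := exists_mem_chart f c
  have hfin : (f.app (PP.chart r a)).hom.Finite :=
    f.finite_app (PP.chart r a) (isAffineOpen_chart r a)
  let alg := (f.app (PP.chart r a)).hom.toAlgebra
  have hfin' : @Module.Finite Γ(PP r, PP.chart r a) Γ(Y, chart f a) _ _ alg.toModule := hfin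
  obtain ⟨G, hG⟩ := hfin'.fg_top
  let S : Finset (Y.residueField c) :=
    Finset.univ.image (fun b => ratio f c a b ha) ∪ G.image (ev f c a ha)
  refine ⟨S, ?_⟩
  have hc : ∀ z, constants f c z ∈ (IntermediateField.adjoin ℂ (S : Set (Y.residueField c))) :=
    fun z => IntermediateField.algebraMap_mem _ z
  have hb : ∀ b, ratio f c a b ha ∈
      (IntermediateField.adjoin ℂ (S : Set (Y.residueField c))) := fun b =>
    IntermediateField.subset_adjoin _ _ (by
      simp only [S, Finset.coe_union, Finset.coe_image]
      exact Or.inl ⟨b, by simp, rfl⟩)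
  have hall : ∀ s : Γ(Y, chart f a), ev f c a ha s ∈
      (IntermediateField.adjoin ℂ (S : Set (Y.residueField c))) := by
    intro s
    have hs : s ∈ @Submodule.span Γ(PP r, PP.chart r a) Γ(Y, chart f a) _ _ alg.toModule G := by
      rw [hG]; trivial
    induction hs using Submodule.span_induction with
    | mem x hx =>
      exact IntermediateField.subset_adjoin _ _ (by
        simp only [S, Finset.coe_union, Finset.coe_image]
        exact Or.inr ⟨x, hx, rfl⟩)
    | zero => rw [map_zero]; exact zero_mem _
    | add x y _ _ hx hy => rw [map_add]; exact add_mem hx hy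
    | smul q x _ hx =>
      have e : q • x = (f.app (PP.chart r a)).hom q * x := rfl
      rw [e, map_mul]
      exact mul_mem (ev_app_mem f c ha
        (IntermediateField.adjoin ℂ (S : Set (Y.residueField c))).toSubring hc hb q) hx
  rw [eq_top_iff]
  intro x _
  obtain ⟨s, t, ht, hx⟩ := exists_frac f c ha x
  have : x = ev f c a ha s / ev f c a ha t := by
    rw [eq_div_iff ht, hx]
  rw [this]
  exact div_mem (hall s) (hall t)

variable {f c} in
/-- some coordinate is not constant on a curve -/
theorem exists_ratio_notMem [IsFinite f] (hc : IsCurvePoint f c) {a : Fin (r + 1)}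
    (ha : c ∈ chart f a) : ∃ b, ratio f c a b ha ∉ (constants f c).range := by
  by_contra hcon
  push Not at hcon
  let := (constants f c).toAlgebra
  have hmem : ∀ s, ev f c a ha s ∈ (integralClosure ℂ (Y.residueField c)).toSubring := by
    refine ev_mem f c ha _ ?_ ?_ ?_
    · intro x hx
      have : IsIntegral (integralClosure ℂ (Y.residueField c)) x := hx
      exact isIntegral_trans x this
    · intro z
      exact (isIntegral_algebraMap : IsIntegral ℂ (algebraMap ℂ (Y.residueField c) z))
    · intro b
      obtain ⟨z, hz⟩ := hcon b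
      rw [← hz]
      exact (isIntegral_algebraMap : IsIntegral ℂ (algebraMap ℂ (Y.residueField c) z))
  have halg : Algebra.IsAlgebraic ℂ (Y.residueField c) := by
    constructor
    intro x
    obtain ⟨s, t, ht, hx⟩ := exists_frac f c ha x
    have : x = ev f c a ha s / ev f c a ha t := by
      rw [eq_div_iff ht, hx]
    rw [this]
    have h1 : IsIntegral ℂ (ev f c a ha s) := hmem s
    have h2 : IsIntegral ℂ (ev f c a ha t) := hmem t
    rw [div_eq_mul_inv]
    exact h1.isAlgebraic.mul h2.isAlgebraic.inv
  have h0 : Algebra.trdeg ℂ (Y.residueField c) = 0 := trdeg_eq_zero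
  have h1 : Algebra.trdeg ℂ (Y.residueField c) = 1 := hc
  rw [h0] at h1
  exact zero_ne_one h1

end

end Pool.Agent.Work.MP_eb613f_ag
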