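import Mathlib
import Pool.Agent.Work.MP_eb613f_ag.Bad

open AlgebraicGeometry CategoryTheory Limits MvPolynomial TopologicalSpace Filter

namespace Pool.Agent.Work.MP_eb613f_ag

noncomputable section

variable {r : ℕ} {X : Scheme.{0}}

instance (k : Cover X) : IsFinite k.p := k.fin
instance (k : Cover X) : Etale k.p := k.et
instance (k : Cover X) : ConnectedSpace k.Y := k.conn

open scoped Classical in
/-- the image in the cover `k` of a point of the cover `l` -/
def img (k : Cover X) (g : ∀ l : Cover X, l.Y) (l : Cover X) : k.Y :=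
  if h : ∃ π : l.Y ⟶ k.Y, π ≫ k.p = l.p then h.choose (g l) else Classical.arbitrary k.Y

theorem img_spec {k l : Cover X} (h : ∃ π : l.Y ⟶ k.Y, π ≫ k.p = l.p) :
    ∃ π : l.Y ⟶ k.Y, π ≫ k.p = l.p ∧ ∀ g : (∀ l : Cover X, l.Y), img k g l = π (g l) := by
  classical
  refine ⟨h.choose, h.choose_spec, fun g => ?_⟩
  simp only [img]
  rw [dif_pos h]

/-- the families of closed points on the curves -/
def Fams (c : ∀ l : Cover X, l.Y) : Set (∀ l : Cover X, l.Y) :=
  {g | ∀ l, IsClosed {g l} ∧ c l ⤳ g l}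

/-- the limit points in `X` -/
def K0 (i : X ⟶ PP r) (𝒰 : Ultrafilter (Cover X)) (c : ∀ l : Cover X, l.Y) : Set X :=
  {x | ∃ g ∈ Fams c, IsLim i 𝒰 (fun l => l.p (g l)) x}

/-- the limit points in the cover `k` -/
def K1 (i : X ⟶ PP r) (𝒰 : Ultrafilter (Cover X)) (c : ∀ l : Cover X, l.Y) (k : Cover X) :
    Set k.Y :=
  {y | ∃ g ∈ Fams c, IsLim (k.p ≫ i) 𝒰 (img k g) y}

theorem closure_subset_image (i : X ⟶ PP r) [IsClosedImmersion i] (𝒰 : Ultrafilter (Cover X))
    (h𝒰 : ∀ k : Cover X, ∀ᶠ l in (𝒰 : Filter (Cover X)), ∃ π : l.Y ⟶ k.Y, π ≫ k.p = l.p)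
    (c : ∀ l : Cover X, l.Y) (k : Cover X) :
    closure (K0 i 𝒰 c) ⊆ k.p '' closure (K1 i 𝒰 c k) := by
  have hcl : IsClosed (k.p '' closure (K1 i 𝒰 c k)) := k.p.isClosedMap _ isClosed_closure
  refine closure_minimal ?_ hcl
  rintro x ⟨g, hg, hx⟩
  have h1 : ∀ᶠ l in (𝒰 : Filter (Cover X)), IsClosed {img k g l} := by
    filter_upwards [h𝒰 k] with l hl
    obtain ⟨π, hπ, hπg⟩ := img_spec hl
    rw [hπg]
    exact isClosed_image_point (f := k.p ≫ i) (f' := l.p ≫ i) π (by rw [← hπ, Category.assoc])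
      (hg l).1
  obtain ⟨y, hy⟩ := exists_isLim (k.p ≫ i) 𝒰 (img k g) h1
  have h2 : IsLim i 𝒰 (fun l => k.p (img k g l)) (k.p y) := hy.push k.p rfl
  have h3 : IsLim i 𝒰 (fun l => l.p (g l)) (k.p y) := by
    refine h2.congr ?_
    filter_upwards [h𝒰 k] with l hl
    obtain ⟨π, hπ, hπg⟩ := img_spec hl
    rw [hπg, ← hπ]
    rfl
  have h4 : x = k.p y := hx.unique h3
  exact ⟨y, subset_closure ⟨g, hg, hy⟩, h4.symm⟩

/-- a closed subset of a noetherian sober space all of whose points are closed is finite -/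
theorem finite_of_forall_closed {Z : Type*} [TopologicalSpace Z] [NoetherianSpace Z] [QuasiSober Z]
    {W : Set Z} (hW : IsClosed W) (h : ∀ z ∈ W, IsClosed {z}) : W.Finite := by
  obtain ⟨S, hS, hcl, hirr, rfl⟩ := NoetherianSpace.exists_finite_set_isClosed_irreducible hW
  refine hS.sUnion fun t ht => ?_
  obtain ⟨x, hx⟩ := QuasiSober.sober (hirr t ht) (hcl t ht)
  have hxt : x ∈ t := hx.mem
  have h1 : closure {x} = t := hx
  rw [← h1, (h x ⟨t, ht, hxt⟩).closure_eq]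
  exact Set.finite_singleton x

theorem exists_nonclosed (i : X ⟶ PP r) [IsClosedImmersion i] [IsNoetherian X]
    (𝒰 : Ultrafilter (Cover X)) (c : ∀ l : Cover X, l.Y)
    (hc : ∀ l : Cover X, IsCurvePoint (l.p ≫ i) (c l)) :
    ∃ z ∈ closure (K0 i 𝒰 c), ¬ IsClosed {z} := by
  by_contra hcon
  push Not at hcon
  have hfin : (closure (K0 i 𝒰 c)).Finite := finite_of_forall_closed isClosed_closure hcon
  obtain ⟨α, hα⟩ := exists_avoiding i hfin hcon
  choose g hg1 hg2 hg3 using fun l : Cover X => exists_hyperplane_point (l.p ≫ i) (hc l) α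
  have hg : g ∈ Fams c := fun l => ⟨hg1 l, hg2 l⟩
  have h1 : ∀ᶠ l in (𝒰 : Filter (Cover X)), IsClosed {l.p (g l)} :=
    Eventually.of_forall fun l =>
      isClosed_image_point (f := i) (f' := l.p ≫ i) l.p rfl (hg1 l)
  obtain ⟨x, hx⟩ := exists_isLim i 𝒰 (fun l => l.p (g l)) h1
  refine hα x (subset_closure ⟨g, hg, hx⟩) ?_
  refine hx.van (j := 1) (fun b => lin i b) (fun b => isSec_lin i b) (fun _ => α) α
    (fun _ => tendsto_const_nhds) (Eventually.of_forall fun l => ?_)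
  have h2 : pbF l.p (f := i) (f' := l.p ≫ i) rfl (∑ b, cstF i (α b) * lin i b) =
      ∑ b, cstF (l.p ≫ i) (α b) * lin (l.p ≫ i) b := by
    rw [map_sum]
    refine Finset.sum_congr rfl fun b _ => ?_
    rw [map_mul, pbF_cstF]
    congr 1
    ext a
    exact pbk_crd l.p rfl a b
  rw [← van_pbF l.p (f' := l.p ≫ i) rfl, h2]
  exact hg3 l

end

end Pool.Agent.Work.MP_eb613f_ag
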