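import Pool.Agent.Work.MP_eb613f_ag.Basic

set_option autoImplicit false

namespace Pool.Agent.Work.MP_eb613f_ag

section triang

variable {B : Type} [CommRing B] {n : ℕ}

/-- iterated derivation, innermost first -/
def itd (δ : Fin n → Derivation ℤ B B) : List (Fin n) → (B →+ B)
  | [] => AddMonoidHom.id B
  | i :: v => (itd δ v).comp (δ i).toLinearMap.toAddMonoidHom

theorem itd_nil (δ : Fin n → Derivation ℤ B B) (x : B) : itd δ [] x = x := rfl

theorem itd_cons (δ : Fin n → Derivation ℤ B B) (i : Fin n) (v : List (Fin n)) (x : B) :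
    itd δ (i :: v) x = itd δ v (δ i x) := rfl

theorem foldr_reverse_eq (δ : Fin n → Derivation ℤ B B) (v : List (Fin n)) (x : B) :
    v.reverse.foldr (fun i b => δ i b) x = itd δ v x := by
  induction v generalizing x with
  | nil => rfl
  | cons i v ih => rw [List.reverse_cons, List.foldr_append, itd_cons, ← ih]; rfl

theorem der_mem_pow (D : Derivation ℤ B B) (I : Ideal B) (k : ℕ) {x : B} (hx : x ∈ I ^ (k + 1)) :
    D x ∈ I ^ k := by
  induction k generalizing x with
  | zero => simp
  | succ k ih =>
    rw [pow_succ] at hx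
    refine Submodule.mul_induction_on hx (fun a ha b hb => ?_) (fun a b ha hb => ?_)
    · rw [D.leibniz]
      refine Ideal.add_mem _ ?_ ?_
      · rw [smul_eq_mul]
        exact Ideal.mul_mem_right _ _ ha
      · rw [smul_eq_mul, pow_succ, mul_comm b]
        exact Ideal.mul_mem_mul (ih ha) hb
    · rw [map_add]
      exact Ideal.add_mem _ ha hb

theorem itd_mem_pow (δ : Fin n → Derivation ℤ B B) (I : Ideal B) (v : List (Fin n)) (k : ℕ) {x : B}
    (hx : x ∈ I ^ (k + v.length)) : itd δ v x ∈ I ^ k := by
  induction v generalizing x with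
  | nil => exact hx
  | cons i v ih =>
    rw [itd_cons]
    exact ih (der_mem_pow _ _ _ (by rw [List.length_cons, ← add_assoc] at hx; exact hx))

theorem der_finprod (D : Derivation ℤ B B) (a : Fin n → B) (S : Finset (Fin n)) :
    D (∏ k ∈ S, a k) = ∑ k ∈ S, (∏ l ∈ S.erase k, a l) * D (a k) := by
  classical
  induction S using Finset.induction_on with
  | empty => simp
  | insert i S hi ih =>
    rw [Finset.prod_insert hi, D.leibniz, ih, Finset.sum_insert hi, Finset.erase_insert hi,
      smul_eq_mul, smul_eq_mul, add_comm, Finset.mul_sum]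
    congr 1
    refine Finset.sum_congr rfl (fun k hk => ?_)
    have hki : i ≠ k := by rintro rfl; exact hi hk
    rw [Finset.erase_insert_of_ne hki, Finset.prod_insert (fun h => hi (Finset.mem_of_mem_erase h)),
      mul_assoc]

/-- monomial -/
def mono (t : Fin n → B) (β : Fin n → ℕ) : B := ∏ k, t k ^ β k

theorem der_mono (D : Derivation ℤ B B) (t : Fin n → B) (β : Fin n → ℕ) :
    D (mono t β) = ∑ k, (β k : B) * D (t k) * mono t (β - Pi.single k 1) := by
  unfold mono
  rw [der_finprod]
  refine Finset.sum_congr rfl (fun k _ => ?_)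
  rw [D.leibniz_pow, nsmul_eq_mul, smul_eq_mul,
    ← Finset.mul_prod_erase Finset.univ _ (Finset.mem_univ k)]
  have h1 : ∏ l ∈ Finset.univ.erase k, t l ^ (β - Pi.single k 1 : Fin n → ℕ) l
      = ∏ l ∈ Finset.univ.erase k, t l ^ β l := by
    refine Finset.prod_congr rfl (fun l hl => ?_)
    have hlk : l ≠ k := Finset.ne_of_mem_erase hl
    simp [Pi.single_eq_of_ne hlk]
  rw [h1]
  simp only [Pi.sub_apply, Pi.single_eq_same]
  ring

theorem mono_mem {I : Ideal B} {t : Fin n → B} (ht : ∀ k, t k ∈ I) (β : Fin n → ℕ) :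
    mono t β ∈ I ^ (∑ k, β k) := by
  unfold mono
  rw [← Finset.prod_pow_eq_pow_sum]
  exact Ideal.prod_mem_prod (fun k _ => Ideal.pow_mem_pow (ht k) _)

/-- the coefficient -/
def cf : List (Fin n) → (Fin n → ℕ) → ℕ
  | [], _ => 1
  | i :: v, β => β i * cf v (β - Pi.single i 1)

theorem sum_sub_single {β : Fin n → ℕ} {i : Fin n} (h : β i ≠ 0) :
    ∑ k, (β - Pi.single i 1 : Fin n → ℕ) k + 1 = ∑ k, β k := by
  rw [← Finset.add_sum_erase _ _ (Finset.mem_univ i), ← Finset.add_sum_erase _ β (Finset.mem_univ i)]
  have h1 : ∑ l ∈ Finset.univ.erase i, (β - Pi.single i 1 : Fin n → ℕ) l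
      = ∑ l ∈ Finset.univ.erase i, β l := by
    refine Finset.sum_congr rfl (fun l hl => ?_)
    have hlk : l ≠ i := Finset.ne_of_mem_erase hl
    simp [Pi.single_eq_of_ne hlk]
  rw [h1]
  simp only [Pi.sub_apply, Pi.single_eq_same]
  omega

theorem cf_ne_zero (v : List (Fin n)) (β : Fin n → ℕ) (h : ∑ k, β k = v.length) :
    cf v β ≠ 0 ↔ ∀ k, v.count k = β k := by
  induction v generalizing β with
  | nil =>
    simp only [cf, List.count_nil, List.length_nil] at *
    constructor
    · intro _ k
      have := (Finset.sum_eq_zero_iff.1 h) k (Finset.mem_univ k)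
      exact this.symm
    · intro _; exact one_ne_zero
  | cons i v ih =>
    rw [cf, mul_ne_zero_iff]
    by_cases hi : β i = 0
    · constructor
      · intro h'; exact absurd hi h'.1
      · intro h'
        have := h' i
        rw [List.count_cons_self, hi] at this
        omega
    · have h2 : ∑ k, (β - Pi.single i 1 : Fin n → ℕ) k = v.length := by
        have := sum_sub_single hi
        rw [List.length_cons] at h
        omega
      rw [ih _ h2]
      constructor
      · rintro ⟨-, h'⟩ k
        have := h' k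
        rw [Pi.sub_apply] at this
        by_cases hk : k = i
        · subst hk
          rw [List.count_cons_self, this, Pi.single_eq_same]
          omega
        · rw [List.count_cons_of_ne (Ne.symm hk), this, Pi.single_eq_of_ne hk]
          rfl
      · intro h'
        refine ⟨hi, fun k => ?_⟩
        have := h' k
        rw [Pi.sub_apply]
        by_cases hk : k = i
        · subst hk
          rw [List.count_cons_self] at this
          rw [Pi.single_eq_same]
          omega
        · rw [List.count_cons_of_ne (Ne.symm hk)] at this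
          rw [Pi.single_eq_of_ne hk, this]
          rfl

theorem itd_zero_of_lt (δ : Fin n → Derivation ℤ B B) (χ : B →+* ℂ) {t : Fin n → B}
    (ht : ∀ k, χ (t k) = 0) (v : List (Fin n)) (β : Fin n → ℕ) (h : v.length < ∑ k, β k) (e : B) :
    χ (itd δ v (e * mono t β)) = 0 := by
  have h1 : mono t β ∈ (RingHom.ker χ) ^ (∑ k, β k) := mono_mem (fun k => ht k) β
  have h2 : e * mono t β ∈ (RingHom.ker χ) ^ (1 + v.length) :=
    Ideal.mul_mem_left _ _ (Ideal.pow_le_pow_right (by omega) h1)
  have h3 := itd_mem_pow δ _ v 1 h2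
  rw [pow_one] at h3
  exact h3

theorem itd_eq (δ : Fin n → Derivation ℤ B B) (χ : B →+* ℂ) {t : Fin n → B}
    (ht : ∀ k, χ (t k) = 0) (hδ : ∀ i k, χ (δ i (t k)) = if i = k then 1 else 0)
    (v : List (Fin n)) (β : Fin n → ℕ) (h : ∑ k, β k = v.length) (e : B) :
    χ (itd δ v (e * mono t β)) = χ e * (cf v β : ℂ) := by
  induction v generalizing β e with
  | nil =>
    rw [itd_nil, map_mul, cf]
    have : mono t β = 1 := by
      unfold mono
      refine Finset.prod_eq_one (fun k _ => ?_)
      have := (Finset.sum_eq_zero_iff.1 h) k (Finset.mem_univ k)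
      rw [this, pow_zero]
    rw [this, map_one, Nat.cast_one]
  | cons i v ih =>
    rw [itd_cons, (δ i).leibniz, smul_eq_mul, smul_eq_mul, map_add, map_add, der_mono,
      Finset.mul_sum, map_sum, map_sum, mul_comm (mono t β)]
    have h0 : χ (itd δ v (δ i e * mono t β)) = 0 :=
      itd_zero_of_lt δ χ ht v β (by rw [h, List.length_cons]; omega) _
    rw [h0, add_zero, Finset.sum_eq_single i]
    · by_cases hi : β i = 0
      · rw [cf, hi]; simp
      · have h2 : ∑ k, (β - Pi.single i 1 : Fin n → ℕ) k = v.length := by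
          have := sum_sub_single hi
          rw [List.length_cons] at h
          omega
        rw [← mul_assoc, ih _ h2, cf, map_mul, map_mul, hδ, if_pos rfl, map_natCast]
        push_cast
        ring
    · intro k _ hk
      by_cases hk0 : β k = 0
      · rw [hk0]; simp
      · have h2 : ∑ l, (β - Pi.single k 1 : Fin n → ℕ) l = v.length := by
          have := sum_sub_single hk0
          rw [List.length_cons] at h
          omega
        rw [← mul_assoc, ih _ h2, map_mul, map_mul, hδ, if_neg (Ne.symm hk)]
        simp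
    · intro h'; exact absurd (Finset.mem_univ i) h'

theorem exists_word (β : Fin n → ℕ) : ∃ v : List (Fin n), (∀ k, v.count k = β k) ∧
    v.length = ∑ k, β k := by
  classical
  let f : Fin n →₀ ℕ := Finsupp.equivFunOnFinite.symm β
  refine ⟨(Finsupp.toMultiset f).toList, fun k => ?_, ?_⟩
  · rw [← Multiset.coe_count, Multiset.coe_toList, Finsupp.count_toMultiset]
    rfl
  · rw [Multiset.length_toList, Finsupp.card_toMultiset, Finsupp.sum_fintype _ _ (fun _ => rfl)]
    rfl

end triang

theorem triangular {B : Type} [CommRing B] (C : ℂ →+* B) {n Q d : ℕ} (χ : Fin Q → B →+* ℂ)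
    (hχ : ∀ s z, χ s (C z) = z) (t : Fin n → B) (δ : Fin n → Derivation ℤ B B)
    (hC : ∀ i z, δ i (C z) = 0) (e : Fin Q → B) (ht : ∀ s k, χ s (t k) = 0)
    (hδ : ∀ s i k, χ s (δ i (t k)) = if i = k then 1 else 0)
    (he : ∀ s s', χ s (e s') = if s = s' then 1 else 0) (lam : Fin Q × (Mon n d) → ℂ)
    (hvan : ∀ s, ∀ w : List (Fin n), w.length ≤ d →
      χ s (w.foldr (fun i b => δ i b)
        (∑ p, C (lam p) * (e p.1 * ∏ k, t k ^ (p.2 : Fin n → ℕ) k))) = 0) : lam = 0 := by
  classical
  by_contra hne
  have hex : (Finset.univ.filter (fun p : Fin Q × (Mon n d) => lam p ≠ 0)).Nonempty := by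
    by_contra hcon
    rw [Finset.not_nonempty_iff_eq_empty, Finset.filter_eq_empty_iff] at hcon
    apply hne
    funext p
    have := hcon (Finset.mem_univ p)
    push Not at this
    exact this
  obtain ⟨⟨s, β⟩, hp, hmin⟩ := Finset.exists_min_image _
    (fun p : Fin Q × (Mon n d) => ∑ k, (p.2 : Fin n → ℕ) k) hex
  rw [Finset.mem_filter] at hp
  have hlam : lam (s, β) ≠ 0 := hp.2
  obtain ⟨v, hv, hvl⟩ := exists_word (β : Fin n → ℕ)
  have hβ : ∑ k, (β : Fin n → ℕ) k ≤ d := mem_Mon.1 β.2
  have h1 := hvan s v.reverse (by rw [List.length_reverse, hvl]; exact hβ)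
  rw [foldr_reverse_eq, map_sum, map_sum, Finset.sum_eq_single (s, β)] at h1
  · rw [← mul_assoc] at h1
    have h2 := itd_eq δ (χ s) (ht s) (hδ s) v β hvl.symm (C (lam (s, β)) * e s)
    unfold mono at h2
    rw [h2, map_mul, hχ, he, if_pos rfl, mul_one] at h1
    have h3 := (cf_ne_zero v β hvl.symm).2 hv
    rcases mul_eq_zero.1 h1 with h4 | h4
    · exact hlam h4
    · exact h3 (by exact_mod_cast h4)
  · rintro ⟨s', β'⟩ - hne'
    rw [← mul_assoc]
    by_cases hl0 : lam (s', β') = 0
    · rw [hl0]; simp
    have h4 := hmin (s', β') (Finset.mem_filter.2 ⟨Finset.mem_univ _, hl0⟩)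
    simp only at h4
    rcases lt_or_eq_of_le h4 with h5 | h5
    · have := itd_zero_of_lt δ (χ s) (ht s) v (β' : Fin n → ℕ) (by rw [hvl]; exact h5)
        (C (lam (s', β')) * e s')
      unfold mono at this
      exact this
    · have h2 := itd_eq δ (χ s) (ht s) (hδ s) v (β' : Fin n → ℕ) (by rw [hvl, h5])
        (C (lam (s', β')) * e s')
      unfold mono at h2
      rw [h2, map_mul, he]
      by_cases hs : s = s'
      · have hβne : (β' : Fin n → ℕ) ≠ β := by
          intro h6
          apply hne'
          rw [Prod.mk.injEq]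
          exact ⟨hs.symm, Subtype.ext h6⟩
        have : cf v (β' : Fin n → ℕ) = 0 := by
          by_contra h7
          have h8 := (cf_ne_zero v _ (by rw [hvl, h5])).1 h7
          apply hβne
          funext k
          rw [← h8 k, hv k]
        rw [this]; simp
      · rw [if_neg hs]; simp
  · intro h; exact absurd (Finset.mem_univ _) h

end Pool.Agent.Work.MP_eb613f_ag
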