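import Mathlib
import Pool.Agent.Work.MP_eb613f_ag.Limits
import Pool.Agent.Work.MP_eb613f_ag.Triang
import Pool.Agent.Work.MP_eb613f_ag.Extend

open AlgebraicGeometry CategoryTheory Limits MvPolynomial TopologicalSpace Filter

namespace Pool.Agent.Work.MP_eb613f_ag

noncomputable section

variable {r : ℕ} {X : Scheme.{0}}

theorem TDer.exists_lin {Y : Scheme.{0}} {f : Y ⟶ PP r} {e : ℕ} {m : ℕ} (D : Fin m → TDer f e)
    (lam : Fin m → ℂ) (S : Finset (Fin m)) :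
    ∃ D' : TDer f e, ∀ b s, D'.θ b s = ∑ j ∈ S, cst f (chart f b) (lam j) * (D j).θ b s := by
  classical
  induction S using Finset.induction_on with
  | empty => exact ⟨TDer.zero, fun b s => by simp [TDer.zero]⟩
  | insert j S hj ih =>
    obtain ⟨D', hD'⟩ := ih
    refine ⟨((D j).smul (lam j)).add D', fun b s => ?_⟩
    rw [Finset.sum_insert hj, ← hD']
    rfl

/-- the derivations on the cover `k` dual to the parameters -/
theorem exists_dual_TDer (i : X ⟶ PP r) [IsClosedImmersion i] (k : Cover X) {e m n : ℕ}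
    (a : Fin (r + 1)) (D : Fin m → TDer i e) (lam : Fin n → Fin m → ℂ) :
    ∃ E : Fin n → TDer (k.p ≫ i) e, ∀ q s, (E q).θ a (pbk k.p rfl a s) =
      pbk (f' := k.p ≫ i) k.p rfl a (∑ j, cst i (chart i a) (lam q j) * (D j).θ a s) := by
  have h : ∀ q, ∃ E : TDer (k.p ≫ i) e, ∀ s, E.θ a (pbk k.p rfl a s) =
      pbk (f' := k.p ≫ i) k.p rfl a (∑ j, cst i (chart i a) (lam q j) * (D j).θ a s) := by
    intro q
    obtain ⟨D', hD'⟩ := TDer.exists_lin D (lam q) Finset.univ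
    obtain ⟨E, hE⟩ := D'.exists_pullback (f' := k.p ≫ i) k.p rfl
    exact ⟨E, fun s => by rw [hE, hD']⟩
  choose E hE using h
  exact ⟨E, hE⟩

/-- the sections `t^β` -/
def monSec {Y : Scheme.{0}} (f : Y ⟶ PP r) {n : ℕ} (a : Fin (r + 1)) (b : Fin n → Fin (r + 1))
    (v : Fin n → ℂ) (d : ℕ) (β : Fin n → ℕ) : Fam f :=
  (∏ q, (lin f (b q) - cstF f (v q) * lin f a) ^ (β q)) * (lin f a) ^ (d - ∑ q, β q)

theorem IsSec.sub {Y : Scheme.{0}} {f : Y ⟶ PP r} {j : ℕ} {s t : Fam f} (hs : IsSec f j s)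
    (ht : IsSec f j t) : IsSec f j (s - t) := by
  intro a b
  simp only [Pi.sub_apply, map_sub, hs a b, ht a b, mul_sub]

theorem isSec_monSec {Y : Scheme.{0}} (f : Y ⟶ PP r) {n : ℕ} (a : Fin (r + 1))
    (b : Fin n → Fin (r + 1)) (v : Fin n → ℂ) {d : ℕ} {β : Fin n → ℕ} (hβ : ∑ q, β q ≤ d) :
    IsSec f d (monSec f a b v d β) := by
  have h1 : ∀ q ∈ (Finset.univ : Finset (Fin n)),
      IsSec f (β q * 1) ((lin f (b q) - cstF f (v q) * lin f a) ^ (β q)) := fun q _ =>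
    ((isSec_lin f (b q)).sub ((isSec_lin f a).smul (v q))).pow (β q)
  have h2 := (IsSec.prod Finset.univ h1).mul ((isSec_lin f a).pow (d - ∑ q, β q))
  have h3 : ∑ q, β q * 1 + (d - ∑ q, β q) * 1 = d := by
    simp only [mul_one]
    omega
  rw [h3] at h2
  exact h2

theorem monSec_apply {Y : Scheme.{0}} (f : Y ⟶ PP r) {n : ℕ} (a : Fin (r + 1))
    (b : Fin n → Fin (r + 1)) (v : Fin n → ℂ) (d : ℕ) (β : Fin n → ℕ) :
    monSec f a b v d β a = ∏ q, (crd f a (b q) - cst f (chart f a) (v q)) ^ (β q) := by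
  simp [monSec, lin, crd_self, Finset.prod_apply]

/-- Step 1: on a cover above `k` there is a combination of the given sections all of whose
derivatives vanish along the bad curve. -/
theorem exists_coeffs (i : X ⟶ PP r) [IsClosedImmersion i] (n : ℕ)
    [SmoothOfRelativeDimension n (i ≫ PP.toSpec r)] (k l : Cover X) (π : l.Y ⟶ k.Y)
    (hπ : π ≫ k.p = l.p) {x c : l.Y} (hcx : c ⤳ x) (hx : IsClosed {x})
    (hc : IsCurvePoint (l.p ≫ i) c) {N₁ : ℕ}
    (hdeg : curveDeg (l.p ≫ i) c < N₁ * curveMult (l.p ≫ i) hcx) {e d σ : ℕ} (hd : 0 < d)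
    (hσ : σ = N₁ * (e + 3) + 1) {I : Type} [Fintype I] (h : I → Fam (k.p ≫ i))
    (hh : ∀ p, IsSec (k.p ≫ i) (d + d) (h p)) (hI : (σ ^ n + 1) * (Mon n d).card = Fintype.card I)
    (E : Fin n → TDer (k.p ≫ i) e) (a : Fin (r + 1)) :
    ∃ lam : I → ℂ, ‖lam‖ = 1 ∧ ∀ w : List (Fin n), w.length ≤ d →
      Van (k.p ≫ i) (∑ p, cstF (k.p ≫ i) (lam p) * TDer.opw E a (d + d) w (h p)) (π c) := by
  have hπf : π ≫ (k.p ≫ i) = l.p ≫ i := by rw [← hπ, Category.assoc]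
  have hx' : IsClosed {π x} := isClosed_image_point π hπf hx
  obtain ⟨b', hb'⟩ := exists_mem_chart (k.p ≫ i) (π x)
  obtain ⟨χ', hχ'⟩ := exists_rep (k.p ≫ i) hx' hb'
  have hsm : SmoothOfRelativeDimension n ((k.p ≫ i) ≫ PP.toSpec r) := by
    have h1 : SmoothOfRelativeDimension (0 + n) (k.p ≫ (i ≫ PP.toSpec r)) := inferInstance
    rw [zero_add] at h1
    rw [Category.assoc]
    exact h1
  obtain ⟨t', ht'⟩ := exists_local_parameters' (k.p ≫ i) n hχ'
  have hσ0 : 0 < σ := by omega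
  have hσd : 0 < σ * d := Nat.mul_pos hσ0 hd
  obtain ⟨lam, hlam0, hlam⟩ := exists_vanishing (cst (k.p ≫ i) (chart (k.p ≫ i) b')) χ' hχ'.cst t'
    ht' (fun p => h p b') (σ * d) hσd (by rw [← hI]; exact card_Mon_lt n σ d hσ0 hd)
  have hnorm : ‖lam‖ ≠ 0 := norm_ne_zero_iff.2 hlam0
  set ν : ℂ := ((‖lam‖⁻¹ : ℝ) : ℂ) with hν
  refine ⟨ν • lam, ?_, fun w hw => ?_⟩
  · rw [norm_smul, hν, Complex.norm_real, norm_inv, norm_norm, inv_mul_cancel₀ hnorm]
  · set S : Fam (k.p ≫ i) := ∑ p, cstF (k.p ≫ i) ((ν • lam) p) * h p with hS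
    have hSsec : IsSec (k.p ≫ i) (d + d) S := IsSec.sum _ fun p _ => (hh p).smul _
    have hSb : S b' ∈ RingHom.ker χ' ^ (σ * d) := by
      have h1 : S b' = cst (k.p ≫ i) (chart (k.p ≫ i) b') ν *
          ∑ p, cst (k.p ≫ i) (chart (k.p ≫ i) b') (lam p) * h p b' := by
        rw [hS, Finset.sum_apply, Finset.mul_sum]
        refine Finset.sum_congr rfl fun p _ => ?_
        simp only [Pi.mul_apply, cstF_apply, Pi.smul_apply, smul_eq_mul, map_mul]
        ring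
      rw [h1]
      exact Ideal.mul_mem_left _ _ hlam
    have hle : d + N₁ * ((e + 3) * d) = σ * d := by rw [hσ]; ring
    have hwd : w.length ≤ σ * d := by
      calc w.length ≤ d := hw
        _ ≤ σ * d := Nat.le_mul_of_pos_left d hσ0
    have h2 : TDer.opw E a (d + d) w S b' ∈ RingHom.ker χ' ^ (σ * d - w.length) := by
      apply TDer.opw_mem_pow
      rw [Nat.sub_add_cancel hwd]
      exact hSb
    rw [← TDer.opw_sum]
    refine van_of_order (l.p ≫ i) (k.p ≫ i) π hπf hc hcx hdeg (t := d + d + w.length * (e + 1))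
      (by omega) ?_ (TDer.isSec_opw E a w hSsec) hχ' h2
    have h3 : N₁ * (d + d + w.length * (e + 1)) ≤ N₁ * ((e + 3) * d) := by
      apply Nat.mul_le_mul_left
      have h4 : w.length * (e + 1) ≤ d * (e + 1) := Nat.mul_le_mul_right _ hw
      nlinarith
    omega

/-- The main argument. -/
theorem no_bad_tower (i : X ⟶ PP r) [IsClosedImmersion i] [AlgebraicGeometry.IsIntegral X]
    [IsNoetherian X] (n : ℕ) [SmoothOfRelativeDimension n (i ≫ PP.toSpec r)]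
    (hlarge : LargeAlgebraicPi1 X) (N₁ : ℕ)
    (hbad : ∀ l : Cover X, ∃ (x c : l.Y) (hcx : c ⤳ x), IsClosed {x} ∧
      IsCurvePoint (l.p ≫ i) c ∧ curveDeg (l.p ≫ i) c < N₁ * curveMult (l.p ≫ i) hcx) : False := by
  classical
  choose x c hcx hx hc hdeg using hbad
  obtain ⟨𝒰, h𝒰⟩ := exists_ultrafilter X
  obtain ⟨z, hz, hzcl⟩ := exists_nonclosed i 𝒰 c hc
  -- derivations on `X`
  choose m η hη0 hη using fun a => exists_derivations' i n a
  choose c₀ hc₀ using fun a j => exists_TDer i a (η a j) (hη0 a j)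
  obtain ⟨e, he⟩ : ∃ e, ∀ a j, c₀ a j ≤ e := by
    refine ⟨Finset.univ.sup fun a => Finset.univ.sup fun j => c₀ a j, fun a j => ?_⟩
    exact (Finset.le_sup (f := fun j => c₀ a j) (Finset.mem_univ j)).trans
      (Finset.le_sup (f := fun a => Finset.univ.sup fun j => c₀ a j) (Finset.mem_univ a))
  choose D hD using fun a j => hc₀ a j e (he a j)
  obtain ⟨σ, hσ⟩ : ∃ σ, σ = N₁ * (e + 3) + 1 := ⟨_, rfl⟩
  obtain ⟨Q, hQdef⟩ : ∃ Q, Q = σ ^ n + 1 := ⟨_, rfl⟩
  -- the cover `k`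
  obtain ⟨X', p, hp1, hp2, hp3, hp4⟩ := hlarge z hzcl Q
  obtain ⟨k, hkdef⟩ : ∃ k : Cover X, k = ⟨X', p, hp1, hp2, hp3⟩ := ⟨_, rfl⟩
  have hk : ∀ y : k.Y, k.p y = z → Q ≤ residueDegree k.p y := by
    subst hkdef
    exact hp4
  obtain ⟨y, hy, hyz⟩ := closure_subset_image i 𝒰 h𝒰 c k hz
  have hQ : Q ≤ residueDegree k.p y := hk y hyz
  obtain ⟨a, ha⟩ := exists_mem_chart (k.p ≫ i) y
  obtain ⟨χ, pt, hinj, hrep, hspec, hag⟩ := exists_fibre_points i (k.p ≫ i) k.p rfl y Q hQ ha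
  have hpt : ∀ s, pt s ∈ closure (K1 i 𝒰 c k) := fun s =>
    (hspec s).mem_closed isClosed_closure hy
  have hQ0 : 0 < Q := by omega
  let s₀ : Fin Q := ⟨0, hQ0⟩
  -- the common image in `X`
  let χ₀ : Γ(X, chart i a) →+* ℂ := (χ s₀).comp (pbk k.p rfl a)
  have hχχ₀ : ∀ s u, χ s (pbk k.p rfl a u) = χ₀ u := fun s u => hag s s₀ u
  have hχ₀ : ∀ z, χ₀ (cst i (chart i a) z) = z := by
    intro z
    show χ s₀ (pbk k.p rfl a (cst i (chart i a) z)) = z
    rw [pbk_cst, (hrep s₀).cst]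
  obtain ⟨b, lam, hbl⟩ := hη a χ₀ hχ₀
  obtain ⟨E, hE⟩ := exists_dual_TDer i k a (D a) lam
  let v : Fin n → ℂ := fun q => χ₀ (crd i a (b q))
  let t : Fin n → Γ(k.Y, chart (k.p ≫ i) a) := fun q =>
    crd (k.p ≫ i) a (b q) - cst (k.p ≫ i) (chart (k.p ≫ i) a) (v q)
  have ht : ∀ s q, χ s (t q) = 0 := by
    intro s q
    simp only [t]
    rw [map_sub, (hrep s).cst, ← pbk_crd k.p rfl a (b q), hχχ₀, sub_self]
  have hδ : ∀ s q q', χ s ((E q).θ a (t q')) = if q = q' then 1 else 0 := by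
    intro s q q'
    simp only [t]
    rw [map_sub, (E q).hc, sub_zero, ← pbk_crd k.p rfl a (b q'), hE, hχχ₀, map_sum, ← hbl q q']
    refine Finset.sum_congr rfl fun j _ => ?_
    rw [map_mul, hχ₀, hD]
  -- sections separating the points
  obtain ⟨g, hg⟩ := exists_separating (cst (k.p ≫ i) (chart (k.p ≫ i) a)) χ
    (fun s => (hrep s).cst) hinj
  obtain ⟨d, hd, ee, hee, heea⟩ := exists_sec (k.p ≫ i) a g
  let h : Fin Q × (Mon n d) → Fam (k.p ≫ i) := fun p =>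
    ee p.1 * monSec (k.p ≫ i) a b v d (p.2 : Fin n → ℕ)
  have hh : ∀ p, IsSec (k.p ≫ i) (d + d) (h p) := fun p =>
    (hee p.1).mul (isSec_monSec _ a b v (mem_Mon.1 p.2.2))
  have hI : (σ ^ n + 1) * (Mon n d).card = Fintype.card (Fin Q × (Mon n d)) := by
    rw [Fintype.card_prod, Fintype.card_fin, Fintype.card_coe, hQdef]
  -- coefficients
  have hcoef : ∀ l : Cover X, ∃ lam : Fin Q × (Mon n d) → ℂ, ‖lam‖ = 1 ∧
      ((∃ π : l.Y ⟶ k.Y, π ≫ k.p = l.p) → ∀ w : List (Fin n), w.length ≤ d →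
        ∀ g' ∈ Fams c, Van (k.p ≫ i)
          (∑ p, cstF (k.p ≫ i) (lam p) * TDer.opw E a (d + d) w (h p)) (img k g' l)) := by
    intro l
    by_cases hl : ∃ π : l.Y ⟶ k.Y, π ≫ k.p = l.p
    · obtain ⟨π, hπ, hπg⟩ := img_spec hl
      obtain ⟨lam', hlam1, hlam2⟩ := exists_coeffs i n k l π hπ (hcx l) (hx l) (hc l) (hdeg l)
        hd hσ h hh hI E a
      refine ⟨lam', hlam1, fun _ w hw g' hg' => ?_⟩
      rw [hπg]
      exact (hlam2 w hw).specializes ((hg' l).2.map π.continuous)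
    · have hne : Nonempty (Fin Q × (Mon n d)) :=
        ⟨(s₀, ⟨0, by rw [mem_Mon]; simp⟩)⟩
      refine ⟨fun _ => 1, ?_, fun hl' => absurd hl' hl⟩
      rw [pi_norm_const, norm_one]
  choose lm hlm1 hlm2 using hcoef
  -- the limit of the coefficients
  obtain ⟨lm₀, hlm₀1, hlm₀2⟩ : ∃ lm₀ : Fin Q × (Mon n d) → ℂ, ‖lm₀‖ = 1 ∧
      Tendsto lm (𝒰 : Filter (Cover X)) (nhds lm₀) := by
    have hcomp : IsCompact (Metric.sphere (0 : Fin Q × (Mon n d) → ℂ) 1) := isCompact_sphere _ _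
    obtain ⟨lm₀, h1, h2⟩ := hcomp.ultrafilter_le_nhds (𝒰.map lm) (by
      rw [le_principal_iff, Ultrafilter.coe_map, mem_map]
      exact Filter.univ_mem' fun l => by simp [hlm1 l])
    exact ⟨lm₀, by simpa using h1, h2⟩
  have hlim : ∀ p, Tendsto (fun l => lm l p) (𝒰 : Filter (Cover X)) (nhds (lm₀ p)) := fun p =>
    (tendsto_pi_nhds.1 hlm₀2) p
  have hvanK : ∀ w : List (Fin n), w.length ≤ d → ∀ y' ∈ closure (K1 i 𝒰 c k),
      Van (k.p ≫ i) (∑ p, cstF (k.p ≫ i) (lm₀ p) * TDer.opw E a (d + d) w (h p)) y' := by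
    intro w hw
    have h1 : K1 i 𝒰 c k ⊆ {y' | Van (k.p ≫ i)
        (∑ p, cstF (k.p ≫ i) (lm₀ p) * TDer.opw E a (d + d) w (h p)) y'} := by
      rintro y' ⟨g', hg', hlim'⟩
      refine hlim'.van (j := d + d + w.length * (e + 1)) (fun p => TDer.opw E a (d + d) w (h p))
        (fun p => TDer.isSec_opw E a w (hh p)) lm lm₀ hlim ?_
      filter_upwards [h𝒰 k] with l hl
      exact hlm2 l hl w hw g' hg'
    exact fun y' hy' => closure_minimal h1 (isClosed_van _ _) hy'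
  have hzero : lm₀ = 0 := by
    refine triangular (cst (k.p ≫ i) (chart (k.p ≫ i) a)) χ (fun s => (hrep s).cst) t
      (fun q => (E q).θ a) (fun q => (E q).hc a) g ht hδ hg lm₀ ?_
    intro s w hw
    have h1 := hvanK w hw (pt s) (hpt s) a
    rw [← (hrep s).iff, ← TDer.opw_sum, TDer.opw_self] at h1
    convert h1 using 3
    rw [Finset.sum_apply]
    refine Finset.sum_congr rfl fun p _ => ?_
    simp only [h, Pi.mul_apply, cstF_apply, heea, monSec_apply, t]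
  rw [hzero, norm_zero] at hlm₀1
  exact zero_ne_one hlm₀1

end

end Pool.Agent.Work.MP_eb613f_ag
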