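import Mathlib
import Pool.Agent.Work.MP_eb613f_ag.Final

open AlgebraicGeometry CategoryTheory Limits MvPolynomial TopologicalSpace

namespace Pool.Agent.Work.MP_eb613f_ag

theorem compactSpace_PP (r : ℕ) : CompactSpace (PP r) := by
  refine ⟨?_⟩
  have h1 : (Set.univ : Set (PP r)) = ⋃ a, (PP.chart r a : Set (PP r)) := by
    have h := congrArg (fun U : (PP r).Opens => (U : Set (PP r))) (iSup_chart r)
    simp only [Opens.coe_iSup, Opens.coe_top] at h
    exact h.symm
  rw [h1]
  exact isCompact_iUnion fun a => (isAffineOpen_chart r a).isCompact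

theorem isNoetherian_of_closed {r : ℕ} {X : Scheme.{0}} (i : X ⟶ PP r) [IsClosedImmersion i] :
    IsNoetherian X := by
  have h1 : IsLocallyNoetherian X :=
    LocallyOfFiniteType.isLocallyNoetherian (i ≫ PP.toSpec r)
  have h2 := compactSpace_PP r
  have h3 : CompactSpace X := QuasiCompact.compactSpace_of_compactSpace i
  exact { }

/-- Large Seshadri constants on finite etale covers. -/
theorem statement (M : ProjManifold) (hlarge : LargeAlgebraicPi1 M.space) (m : ℕ)
    (N : ℝ) (hN : 0 < N) :
    ∃ (X' : Scheme.{0}) (p : X' ⟶ M.space), IsFinite p ∧ Etale p ∧ ConnectedSpace X' ∧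
      ∀ x : X', IsClosed {x} → ENNReal.ofReal N < seshadri m (p ≫ M.embedding) x := by
  have := M.isClosedImmersion
  have := M.smooth
  have := M.integral
  have := isNoetherian_of_closed M.embedding
  by_contra hcon
  refine no_bad_tower M.embedding M.dimension hlarge (m * ⌈N + 1⌉₊) (fun l => ?_)
  have h1 : ∃ x : l.Y, IsClosed {x} ∧
      seshadri m (l.p ≫ M.embedding) x ≤ ENNReal.ofReal N := by
    by_contra hx
    push Not at hx
    exact hcon ⟨l.Y, l.p, l.fin, l.et, l.conn, hx⟩
  obtain ⟨x, hx, hxN⟩ := h1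
  obtain ⟨c, hcx, hc, hdeg⟩ := exists_bad_pair (l.p ≫ M.embedding) hxN hN
  exact ⟨x, c, hcx, hx, hc, hdeg⟩

end Pool.Agent.Work.MP_eb613f_ag
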